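import Mathlib

/-! # Kernel bound for the probability that none of a family of `2 m`-wise independent events occurs -/

set_option autoImplicit false

namespace Pool.Agent.W151.KW

open Finset MeasureTheory

variable {Ω : Type*} [MeasurableSpace Ω] {μ : Measure Ω}

/-- indicator -/
noncomputable def X (A : ℕ → Set Ω) (i : ℕ) (ω : Ω) : ℝ := (A i).indicator (fun _ => (1 : ℝ)) ω

theorem X_sq (A : ℕ → Set Ω) (i : ℕ) (ω : Ω) : X A i ω * X A i ω = X A i ω := by
  unfold X
  by_cases h : ω ∈ A i <;> simp [h]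

theorem prod_X (A : ℕ → Set Ω) (S : Finset ℕ) (ω : Ω) :
    ∏ i ∈ S, X A i ω = (⋂ i ∈ S, A i).indicator (fun _ => (1 : ℝ)) ω := by
  classical
  by_cases h : ω ∈ ⋂ i ∈ S, A i
  · rw [Set.indicator_of_mem h]
    refine Finset.prod_eq_one fun i hi => ?_
    unfold X
    rw [Set.indicator_of_mem]
    exact Set.mem_iInter₂.1 h i hi
  · rw [Set.indicator_of_notMem h]
    rw [Set.mem_iInter₂] at h
    push Not at h
    obtain ⟨i, hi, hi2⟩ := h
    refine Finset.prod_eq_zero hi ?_
    unfold X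
    rw [Set.indicator_of_notMem hi2]

theorem meas_inter {A : ℕ → Set Ω} (hA : ∀ n, MeasurableSet (A n)) (S : Finset ℕ) :
    MeasurableSet (⋂ i ∈ S, A i) := Finset.measurableSet_biInter _ fun n _ => hA n

theorem integrable_prod_X [IsFiniteMeasure μ] {A : ℕ → Set Ω} (hA : ∀ n, MeasurableSet (A n))
    (S : Finset ℕ) : Integrable (fun ω => ∏ i ∈ S, X A i ω) μ := by
  simp_rw [prod_X]
  exact (integrable_const (1 : ℝ)).indicator (meas_inter hA S)

theorem integral_prod_X [IsFiniteMeasure μ] {A : ℕ → Set Ω} (hA : ∀ n, MeasurableSet (A n))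
    (S : Finset ℕ) : ∫ ω, ∏ i ∈ S, X A i ω ∂μ = μ.real (⋂ i ∈ S, A i) := by
  simp_rw [prod_X]
  rw [integral_indicator (meas_inter hA S)]
  simp

theorem expand {A : ℕ → Set Ω} (F : Finset ℕ) (a b : ℕ → ℝ) (ω : Ω) :
    ∏ i ∈ F, (b i * X A i ω + a i) =
      ∑ S ∈ F.powerset, ((∏ i ∈ S, b i) * ∏ i ∈ F \ S, a i) * ∏ i ∈ S, X A i ω := by
  classical
  rw [Finset.prod_add]
  refine Finset.sum_congr rfl fun S _ => ?_
  rw [Finset.prod_mul_distrib]
  ring

/-- products of affine functions of few indicators -/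
theorem integral_affine [IsFiniteMeasure μ] {A : ℕ → Set Ω} (hA : ∀ n, MeasurableSet (A n))
    (F : Finset ℕ) (q a b : ℕ → ℝ) (hF : ∀ S ⊆ F, μ.real (⋂ i ∈ S, A i) = ∏ i ∈ S, q i) :
    ∫ ω, ∏ i ∈ F, (b i * X A i ω + a i) ∂μ = ∏ i ∈ F, (b i * q i + a i) := by
  classical
  simp_rw [expand]
  rw [integral_finset_sum _ fun S _ => (integrable_prod_X hA S).const_mul _]
  rw [Finset.prod_add]
  refine Finset.sum_congr rfl fun S hS => ?_
  rw [integral_const_mul, integral_prod_X hA, hF S (mem_powerset.1 hS), Finset.prod_mul_distrib]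
  ring

theorem integrable_affine [IsFiniteMeasure μ] {A : ℕ → Set Ω} (hA : ∀ n, MeasurableSet (A n))
    (F : Finset ℕ) (a b : ℕ → ℝ) : Integrable (fun ω => ∏ i ∈ F, (b i * X A i ω + a i)) μ := by
  classical
  simp_rw [expand]
  exact integrable_finset_sum _ fun S _ => (integrable_prod_X hA S).const_mul _

/-- the kernel bound -/
theorem kernel [IsProbabilityMeasure μ] {A : ℕ → Set Ω} (hA : ∀ n, MeasurableSet (A n))
    (I : Finset ℕ) (q : ℕ → ℝ) (m : ℕ) (hq0 : ∀ i ∈ I, 0 < q i) (hq1 : ∀ i ∈ I, q i < 1)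
    (hI : ∀ S ⊆ I, S.card ≤ 2 * m → μ.real (⋂ i ∈ S, A i) = ∏ i ∈ S, q i) :
    μ.real (⋂ i ∈ I, (A i)ᶜ) * ∑ T ∈ I.powersetCard m, ∏ i ∈ T, q i ≤ 1 := by
  classical
  set e : ℝ := ∑ T ∈ I.powersetCard m, ∏ i ∈ T, (q i / (1 - q i)) with he
  have hr : ∀ i ∈ I, q i ≤ q i / (1 - q i) := by
    intro i hi
    have h0 := hq0 i hi
    have h1 := hq1 i hi
    rw [le_div_iff₀ (by linarith)]
    nlinarith
  have hE : ∑ T ∈ I.powersetCard m, ∏ i ∈ T, q i ≤ e := by
    refine Finset.sum_le_sum fun T hT => Finset.prod_le_prod (fun i hi => ?_) fun i hi => ?_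
    · exact (hq0 i ((mem_powersetCard.1 hT).1 hi)).le
    · exact hr i ((mem_powersetCard.1 hT).1 hi)
  have hE0 : 0 ≤ ∑ T ∈ I.powersetCard m, ∏ i ∈ T, q i :=
    Finset.sum_nonneg fun T hT => Finset.prod_nonneg fun i hi =>
      (hq0 i ((mem_powersetCard.1 hT).1 hi)).le
  have he0 : 0 ≤ e := hE0.trans hE
  -- the kernel
  set ψ : Finset ℕ → Ω → ℝ := fun T ω => ∏ i ∈ T, ((-(1 / (1 - q i))) * X A i ω + q i / (1 - q i)) with hψ
  have hpair : ∀ T ∈ I.powersetCard m, ∀ T' ∈ I.powersetCard m,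
      Integrable (fun ω => ψ T ω * ψ T' ω) μ ∧
      ∫ ω, ψ T ω * ψ T' ω ∂μ = if T = T' then ∏ i ∈ T, (q i / (1 - q i)) else 0 := by
    intro T hT T' hT'
    rw [mem_powersetCard] at hT hT'
    set a : ℕ → ℝ := fun i => if i ∈ T ∩ T' then q i ^ 2 / (1 - q i) ^ 2 else q i / (1 - q i) with ha
    set b : ℕ → ℝ := fun i => if i ∈ T ∩ T' then (1 - 2 * q i) / (1 - q i) ^ 2 else -(1 / (1 - q i)) with hb
    have hprod : ∀ ω, ψ T ω * ψ T' ω = ∏ i ∈ T ∪ T', (b i * X A i ω + a i) := by
      intro ω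
      have e1 : T ∪ T' = (T \ T') ∪ ((T' \ T) ∪ (T ∩ T')) := by
        ext i; simp only [mem_union, mem_sdiff, mem_inter]; tauto
      have d1 : Disjoint (T \ T') ((T' \ T) ∪ (T ∩ T')) := by
        rw [Finset.disjoint_left]; intro i hi; simp only [mem_sdiff, mem_union, mem_inter] at *; tauto
      have d2 : Disjoint (T' \ T) (T ∩ T') := by
        rw [Finset.disjoint_left]; intro i hi; simp only [mem_sdiff, mem_inter] at *; tauto
      have e2 : ψ T ω = (∏ i ∈ T \ T', ((-(1 / (1 - q i))) * X A i ω + q i / (1 - q i))) *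
          ∏ i ∈ T ∩ T', ((-(1 / (1 - q i))) * X A i ω + q i / (1 - q i)) := by
        rw [hψ, ← Finset.prod_union]
        · congr 1
          ext i; simp only [mem_union, mem_sdiff, mem_inter]; tauto
        · rw [Finset.disjoint_left]; intro i hi; simp only [mem_sdiff, mem_inter] at *; tauto
      have e3 : ψ T' ω = (∏ i ∈ T' \ T, ((-(1 / (1 - q i))) * X A i ω + q i / (1 - q i))) *
          ∏ i ∈ T ∩ T', ((-(1 / (1 - q i))) * X A i ω + q i / (1 - q i)) := by
        rw [hψ, ← Finset.prod_union]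
        · congr 1
          ext i; simp only [mem_union, mem_sdiff, mem_inter]; tauto
        · rw [Finset.disjoint_left]; intro i hi; simp only [mem_sdiff, mem_inter] at *; tauto
      rw [e1, Finset.prod_union d1, Finset.prod_union d2, e2, e3]
      have c1 : ∏ i ∈ T \ T', (b i * X A i ω + a i) =
          ∏ i ∈ T \ T', ((-(1 / (1 - q i))) * X A i ω + q i / (1 - q i)) := by
        refine Finset.prod_congr rfl fun i hi => ?_
        have hn : i ∉ T ∩ T' := by simp only [mem_sdiff, mem_inter] at *; tauto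
        simp only [ha, hb, if_neg hn]
      have c2 : ∏ i ∈ T' \ T, (b i * X A i ω + a i) =
          ∏ i ∈ T' \ T, ((-(1 / (1 - q i))) * X A i ω + q i / (1 - q i)) := by
        refine Finset.prod_congr rfl fun i hi => ?_
        have hn : i ∉ T ∩ T' := by simp only [mem_sdiff, mem_inter] at *; tauto
        simp only [ha, hb, if_neg hn]
      have c3 : ∏ i ∈ T ∩ T', (b i * X A i ω + a i) =
          (∏ i ∈ T ∩ T', ((-(1 / (1 - q i))) * X A i ω + q i / (1 - q i))) *
            ∏ i ∈ T ∩ T', ((-(1 / (1 - q i))) * X A i ω + q i / (1 - q i)) := by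
        rw [← Finset.prod_mul_distrib]
        refine Finset.prod_congr rfl fun i hi => ?_
        have h1 := hq1 i (hT.1 (mem_inter.1 hi).1)
        have h2 : (1 - q i) ≠ 0 := by linarith
        simp only [ha, hb, if_pos hi]
        have h3 := X_sq A i ω
        field_simp
        linear_combination (-1 : ℝ) * h3
      rw [c1, c2, c3]
      ring
    have hcard : (T ∪ T').card ≤ 2 * m := (Finset.card_union_le _ _).trans (by omega)
    have hsub : T ∪ T' ⊆ I := Finset.union_subset hT.1 hT'.1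
    simp_rw [hprod]
    refine ⟨integrable_affine hA _ _ _, ?_⟩
    rw [integral_affine hA _ q _ _ fun S hS => hI S (hS.trans hsub) ((Finset.card_le_card hS).trans hcard)]
    by_cases hTT : T = T'
    · subst hTT
      rw [if_pos rfl, Finset.union_idempotent]
      refine Finset.prod_congr rfl fun i hi => ?_
      have h1 := hq1 i (hT.1 hi)
      have h2 : (1 - q i) ≠ 0 := by linarith
      simp only [ha, hb, Finset.inter_self, if_pos hi]
      field_simp
      ring
    · rw [if_neg hTT]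
      obtain ⟨i, hi1, hi2⟩ : ∃ i, i ∈ T ∪ T' ∧ i ∉ T ∩ T' := by
        by_contra hcon
        push Not at hcon
        apply hTT
        ext i
        constructor
        · intro hi; exact (mem_inter.1 (hcon i (mem_union_left _ hi))).2
        · intro hi; exact (mem_inter.1 (hcon i (mem_union_right _ hi))).1
      refine Finset.prod_eq_zero hi1 ?_
      have h1 := hq1 i (hsub hi1)
      have h2 : (1 - q i) ≠ 0 := by linarith
      simp only [ha, hb, if_neg hi2]
      field_simp
      ring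
  set V : Ω → ℝ := fun ω => ∑ T ∈ I.powersetCard m, ψ T ω with hV
  have hVsq : ∀ ω, V ω ^ 2 = ∑ T ∈ I.powersetCard m, ∑ T' ∈ I.powersetCard m, ψ T ω * ψ T' ω := by
    intro ω
    rw [sq, hV, Finset.sum_mul_sum]
  have hVint : Integrable (fun ω => V ω ^ 2) μ := by
    simp_rw [hVsq]
    exact integrable_finset_sum _ fun T hT => integrable_finset_sum _ fun T' hT' => (hpair T hT T' hT').1
  have hVE : ∫ ω, V ω ^ 2 ∂μ = e := by
    simp_rw [hVsq]
    rw [integral_finset_sum _ fun T hT => integrable_finset_sum _ fun T' hT' => (hpair T hT T' hT').1]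
    rw [he]
    refine Finset.sum_congr rfl fun T hT => ?_
    rw [integral_finset_sum _ fun T' hT' => (hpair T hT T' hT').1]
    rw [Finset.sum_congr rfl fun T' hT' => (hpair T hT T' hT').2]
    rw [Finset.sum_ite_eq, if_pos hT]
  -- on the event
  have hm : MeasurableSet (⋂ i ∈ I, (A i)ᶜ) := Finset.measurableSet_biInter _ fun n _ => (hA n).compl
  have hle : ∀ ω, (⋂ i ∈ I, (A i)ᶜ).indicator (fun _ => e ^ 2) ω ≤ V ω ^ 2 := by
    intro ω
    by_cases h : ω ∈ ⋂ i ∈ I, (A i)ᶜ
    · rw [Set.indicator_of_mem h]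
      have : V ω = e := by
        rw [hV, he]
        refine Finset.sum_congr rfl fun T hT => Finset.prod_congr rfl fun i hi => ?_
        have h1 : ω ∈ (A i)ᶜ := Set.mem_iInter₂.1 h i ((mem_powersetCard.1 hT).1 hi)
        have h2 : X A i ω = 0 := by
          unfold X
          rw [Set.indicator_of_notMem h1]
        rw [h2]; ring
      rw [this]
    · rw [Set.indicator_of_notMem h]
      positivity
  have h1 : μ.real (⋂ i ∈ I, (A i)ᶜ) * e ^ 2 ≤ e := by
    have h2 := integral_mono ((integrable_const (e ^ 2)).indicator hm) hVint hle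
    rw [integral_indicator hm, hVE] at h2
    simpa using h2
  rcases he0.eq_or_lt with h0 | h0
  · have : ∑ T ∈ I.powersetCard m, ∏ i ∈ T, q i = 0 := le_antisymm (hE.trans h0.symm.le) hE0
    rw [this, mul_zero]
    norm_num
  · have h2 : μ.real (⋂ i ∈ I, (A i)ᶜ) * e ≤ 1 := by
      have h3 : (μ.real (⋂ i ∈ I, (A i)ᶜ) * e) * e ≤ 1 * e := by
        calc _ = μ.real (⋂ i ∈ I, (A i)ᶜ) * e ^ 2 := by ring
          _ ≤ e := h1
          _ = 1 * e := by ring
      exact le_of_mul_le_mul_right h3 h0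
    exact (mul_le_mul_of_nonneg_left hE measureReal_nonneg).trans h2

end Pool.Agent.W151.KW
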