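import Mathlib
import Pool.Agent.W151.KW.Ker
import Pool.Agent.W151.KW.Bonf

/-! # Elementary estimates -/

set_option autoImplicit false

namespace Pool.Agent.W151.KW

open Finset MeasureTheory

/-- upper bound for `log m!` -/
theorem log_fact_le (m : ℕ) (hm : 1 ≤ m) :
    Real.log (m.factorial : ℝ) ≤ 1 + Real.log m + m * Real.log m - m := by
  induction m, hm using Nat.le_induction with
  | base => simp
  | succ m hm ih =>
    have hm0 : (0 : ℝ) < m := by exact_mod_cast hm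
    have h1 : Real.log ((m + 1).factorial : ℝ) = Real.log ((m : ℝ) + 1) + Real.log (m.factorial : ℝ) := by
      rw [Nat.factorial_succ]
      push_cast
      rw [Real.log_mul (by positivity) (by positivity)]
    rw [h1]
    push_cast
    have h2 : 1 ≤ ((m : ℝ) + 1) * (Real.log ((m : ℝ) + 1) - Real.log m) := by
      rw [← Real.log_div (by positivity) (by positivity)]
      have h3 := Real.one_sub_inv_le_log_of_pos (show (0 : ℝ) < ((m : ℝ) + 1) / m by positivity)
      have h4 : 1 - (((m : ℝ) + 1) / m)⁻¹ = 1 / ((m : ℝ) + 1) := by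
        field_simp
        ring
      rw [h4] at h3
      calc (1 : ℝ) = ((m : ℝ) + 1) * (1 / ((m : ℝ) + 1)) := by field_simp
        _ ≤ _ := by gcongr
    nlinarith

/-- lower bound for `log m!` -/
theorem le_log_fact (m : ℕ) : m * Real.log m - m ≤ Real.log (m.factorial : ℝ) := by
  rcases Nat.eq_zero_or_pos m with h0 | h0
  · subst h0; simp
  have hm0 : (0 : ℝ) < m := by exact_mod_cast h0
  have h1 := Real.pow_div_factorial_le_exp (m : ℝ) hm0.le m
  have hf : (0 : ℝ) < m.factorial := by exact_mod_cast m.factorial_pos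
  rw [div_le_iff₀ hf] at h1
  have h2 := Real.log_le_log (by positivity) h1
  rw [Real.log_pow, Real.log_mul (Real.exp_pos _).ne' hf.ne', Real.log_exp] at h2
  linarith

theorem sum_prod_ge {I : Finset ℕ} {q : ℕ → ℝ} {p : ℝ} (m : ℕ) (hp : 0 ≤ p) (hq : ∀ i ∈ I, p ≤ q i) :
    (I.card.choose m : ℝ) * p ^ m ≤ ∑ T ∈ I.powersetCard m, ∏ i ∈ T, q i := by
  have h1 : ∀ T ∈ I.powersetCard m, p ^ m ≤ ∏ i ∈ T, q i := by
    intro T hT
    rw [mem_powersetCard] at hT
    calc p ^ m = ∏ _i ∈ T, p := by rw [Finset.prod_const, hT.2]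
      _ ≤ _ := Finset.prod_le_prod (fun _ _ => hp) fun i hi => hq i (hT.1 hi)
  calc (I.card.choose m : ℝ) * p ^ m = ∑ _T ∈ I.powersetCard m, p ^ m := by
        rw [Finset.sum_const, card_powersetCard, nsmul_eq_mul]
    _ ≤ _ := Finset.sum_le_sum h1

variable {Ω : Type*} [MeasurableSpace Ω] {μ : Measure Ω}

/-- the kernel bound with explicit constants -/
theorem emp_le [IsProbabilityMeasure μ] {A : ℕ → Set Ω} (hA : ∀ n, MeasurableSet (A n))
    (I : Finset ℕ) (q : ℕ → ℝ) (m : ℕ) (p y : ℝ) (hm : 1 ≤ m) (hmI : m ≤ I.card) (hp : 0 < p)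
    (hq0 : ∀ i ∈ I, p ≤ q i) (hq1 : ∀ i ∈ I, q i < 1) (hy : 0 < y)
    (hyI : y ≤ ((I.card : ℝ) + 1 - m) * p)
    (hI : ∀ S ⊆ I, S.card ≤ 2 * m → μ.real (⋂ i ∈ S, A i) = ∏ i ∈ S, q i) :
    μ.real (⋂ i ∈ I, (A i)ᶜ) ≤ Real.exp (1 + Real.log m - m * (1 + Real.log y - Real.log m)) := by
  have h1 := kernel hA I q m (fun i hi => hp.trans_le (hq0 i hi)) hq1 hI
  have h2 := sum_prod_ge m hp.le hq0
  have h3 : (((I.card + 1 - m : ℕ) : ℝ)) ^ m ≤ (m.factorial : ℝ) * (I.card.choose m : ℝ) := by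
    have := Nat.pow_le_choose (α := ℝ) m I.card
    have hf : (0 : ℝ) < m.factorial := by exact_mod_cast m.factorial_pos
    first
      | (rw [div_le_iff₀ hf] at this; linarith)
      | (linarith)
  have hc : ((I.card + 1 - m : ℕ) : ℝ) = (I.card : ℝ) + 1 - m := by
    rw [Nat.cast_sub (by omega)]; push_cast; ring
  rw [hc] at h3
  have hf : (0 : ℝ) < m.factorial := by exact_mod_cast m.factorial_pos
  have h4 : y ^ m ≤ m.factorial * ∑ T ∈ I.powersetCard m, ∏ i ∈ T, q i := by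
    calc y ^ m ≤ (((I.card : ℝ) + 1 - m) * p) ^ m := by gcongr
      _ = ((I.card : ℝ) + 1 - m) ^ m * p ^ m := by rw [mul_pow]
      _ ≤ ((m.factorial : ℝ) * (I.card.choose m : ℝ)) * p ^ m := by gcongr
      _ = m.factorial * ((I.card.choose m : ℝ) * p ^ m) := by ring
      _ ≤ _ := by gcongr
  have h5 : μ.real (⋂ i ∈ I, (A i)ᶜ) * y ^ m ≤ m.factorial := by
    calc _ ≤ μ.real (⋂ i ∈ I, (A i)ᶜ) * (m.factorial * ∑ T ∈ I.powersetCard m, ∏ i ∈ T, q i) := by
          gcongr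
      _ = m.factorial * (μ.real (⋂ i ∈ I, (A i)ᶜ) * ∑ T ∈ I.powersetCard m, ∏ i ∈ T, q i) := by ring
      _ ≤ m.factorial * 1 := by gcongr
      _ = m.factorial := by ring
  have h6 : μ.real (⋂ i ∈ I, (A i)ᶜ) ≤ m.factorial / y ^ m := by
    rw [le_div_iff₀ (by positivity)]; exact h5
  refine h6.trans ?_
  rw [← Real.exp_log (show (0 : ℝ) < m.factorial / y ^ m by positivity)]
  apply Real.exp_le_exp.2
  rw [Real.log_div hf.ne' (by positivity), Real.log_pow]
  have := log_fact_le m hm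
  nlinarith

/-! ### product weights -/

/-- probability of the set `S` in the independent model on `I` -/
noncomputable def pw (q : ℕ → ℝ) (I S : Finset ℕ) : ℝ := (∏ i ∈ S, q i) * ∏ i ∈ I \ S, (1 - q i)

theorem pw_nonneg {q : ℕ → ℝ} {I S : Finset ℕ} (hS : S ⊆ I) (h0 : ∀ i ∈ I, 0 ≤ q i)
    (h1 : ∀ i ∈ I, q i ≤ 1) : 0 ≤ pw q I S := by
  unfold pw
  refine mul_nonneg (Finset.prod_nonneg fun i hi => h0 i (hS hi)) (Finset.prod_nonneg fun i hi => ?_)
  have := h1 i (mem_sdiff.1 hi).1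
  linarith

theorem sum_pw (q : ℕ → ℝ) (I T : Finset ℕ) (hT : T ⊆ I) :
    ∑ S ∈ I.powerset, (if T ⊆ S then pw q I S else 0) = ∏ i ∈ T, q i := by
  classical
  have h1 : ∏ i ∈ I, (q i + (if i ∈ T then 0 else 1 - q i)) = ∏ i ∈ T, q i := by
    have e : ∏ i ∈ T, q i = ∏ i ∈ I, (if i ∈ T then q i else 1) := by
      rw [Finset.prod_ite_mem, Finset.inter_eq_right.2 hT]
    rw [e]
    refine Finset.prod_congr rfl fun i _ => ?_
    by_cases h : i ∈ T
    · rw [if_pos h, if_pos h, add_zero]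
    · rw [if_neg h, if_neg h]; ring
  rw [← h1, Finset.prod_add]
  refine Finset.sum_congr rfl fun S hS => ?_
  rw [mem_powerset] at hS
  by_cases h : T ⊆ S
  · rw [if_pos h]
    unfold pw
    congr 1
    refine Finset.prod_congr rfl fun i hi => ?_
    rw [if_neg]
    intro h2
    exact (mem_sdiff.1 hi).2 (h h2)
  · rw [if_neg h]
    rw [Finset.not_subset] at h
    obtain ⟨i, hi, hi2⟩ := h
    symm
    apply mul_eq_zero_of_right
    exact Finset.prod_eq_zero (mem_sdiff.2 ⟨hT hi, hi2⟩) (if_pos hi)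

theorem sum_pw_one (q : ℕ → ℝ) (I : Finset ℕ) : ∑ S ∈ I.powerset, pw q I S = 1 := by
  have := sum_pw q I ∅ (empty_subset _)
  simpa using this

end Pool.Agent.W151.KW
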