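import Mathlib
import Pool.Agent.W151.KW.ES

/-! # A lower bound for binomial probabilities (helper151) -/

set_option autoImplicit false

namespace Pool.Agent.W151.KW

open Finset

/-- Stirling's upper bound -/
theorem log_fact_le' (m : ℕ) (hm : 1 ≤ m) :
    Real.log (m.factorial : ℝ) ≤ 1 + (1 / 2) * Real.log m + m * Real.log m - m := by
  induction m, hm using Nat.le_induction with
  | base => simp
  | succ m hm ih =>
    have hm0 : (0 : ℝ) < m := by exact_mod_cast hm
    have h1 : Real.log ((m + 1).factorial : ℝ) = Real.log ((m : ℝ) + 1) + Real.log (m.factorial : ℝ) := by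
      rw [Nat.factorial_succ]
      push_cast
      rw [Real.log_mul (by positivity) (by positivity)]
    rw [h1]
    push_cast
    have h2 : 1 ≤ ((m : ℝ) + 1 / 2) * (Real.log ((m : ℝ) + 1) - Real.log m) := by
      rw [← Real.log_div (by positivity) (by positivity)]
      have h3 := Real.le_log_one_add_of_nonneg (show (0 : ℝ) ≤ 1 / m by positivity)
      have h4 : 1 + 1 / (m : ℝ) = ((m : ℝ) + 1) / m := by field_simp
      have h5 : 2 * (1 / (m : ℝ)) / (1 / (m : ℝ) + 2) = 1 / ((m : ℝ) + 1 / 2) := by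
        field_simp
        ring
      rw [h4, h5] at h3
      calc (1 : ℝ) = ((m : ℝ) + 1 / 2) * (1 / ((m : ℝ) + 1 / 2)) := by field_simp
        _ ≤ _ := by gcongr
    nlinarith

/-- Stirling's lower bound -/
theorem le_log_fact' (m : ℕ) (hm : 1 ≤ m) :
    (1 / 2) * Real.log m + m * Real.log m - m ≤ Real.log (m.factorial : ℝ) := by
  have hm0 : (0 : ℝ) < m := by exact_mod_cast hm
  have h1 := Stirling.le_factorial_stirling m
  have h2 : (0 : ℝ) < Real.sqrt (2 * Real.pi * m) * (m / Real.exp 1) ^ m := by positivity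
  have h3 := Real.log_le_log h2 h1
  rw [Real.log_mul (by positivity) (by positivity), Real.log_sqrt (by positivity), Real.log_pow,
    Real.log_div hm0.ne' (Real.exp_pos _).ne', Real.log_exp,
    Real.log_mul (by positivity) hm0.ne'] at h3
  have h4 : 0 ≤ Real.log (2 * Real.pi) := Real.log_nonneg (by linarith [Real.pi_gt_three])
  linarith

/-- lower bound for the binomial distribution -/
theorem bin_ge (h n : ℕ) (p : ℝ) (hn : 1 ≤ n) (hnh : n < h) (hp : 0 < p) (hp1 : p ≤ 1 / 16) :
    Real.exp (-(2 + (1 / 2) * Real.log n + (16 / 15) * (((n : ℝ) - h * p) ^ 2 / (h * p)))) ≤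
      (h.choose n : ℝ) * p ^ n * (1 - p) ^ (h - n) := by
  have hn0 : (0 : ℝ) < n := by exact_mod_cast hn
  have hh0 : (0 : ℝ) < h := by exact_mod_cast (by omega : 0 < h)
  have hhn : (0 : ℝ) < ((h - n : ℕ) : ℝ) := by exact_mod_cast (by omega : 0 < h - n)
  have hc : ((h - n : ℕ) : ℝ) = (h : ℝ) - n := by rw [Nat.cast_sub hnh.le]
  have hp2 : 0 < 1 - p := by linarith
  have hch : (0 : ℝ) < h.choose n := by exact_mod_cast Nat.choose_pos hnh.le
  have hpos : 0 < (h.choose n : ℝ) * p ^ n * (1 - p) ^ (h - n) := by positivity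
  rw [← Real.le_log_iff_exp_le hpos, Real.log_mul (by positivity) (by positivity),
    Real.log_mul (by positivity) (by positivity), Real.log_pow, Real.log_pow]
  have h1 : Real.log (h.choose n : ℝ) = Real.log (h.factorial : ℝ) - Real.log (n.factorial : ℝ) -
      Real.log ((h - n).factorial : ℝ) := by
    have h2 := Nat.choose_mul_factorial_mul_factorial hnh.le
    have h3 : (h.factorial : ℝ) = (h.choose n : ℝ) * n.factorial * (h - n).factorial := by
      rw [← h2]; push_cast; ring
    rw [h3, Real.log_mul (by positivity) (by positivity), Real.log_mul (by positivity) (by positivity)]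
    ring
  rw [h1]
  have h2 := le_log_fact' h (by omega)
  have h3 := log_fact_le' n hn
  have h4 := log_fact_le' (h - n) (by omega)
  have h5 : Real.log ((h - n : ℕ) : ℝ) ≤ Real.log h :=
    Real.log_le_log hhn (by exact_mod_cast Nat.sub_le h n)
  -- the two terms of the relative entropy
  have h6 : (n : ℝ) * (Real.log n - Real.log h - Real.log p) ≤ n * (n / (h * p) - 1) := by
    refine mul_le_mul_of_nonneg_left ?_ hn0.le
    have h7 := Real.log_le_sub_one_of_pos (show 0 < (n : ℝ) / (h * p) by positivity)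
    rw [Real.log_div hn0.ne' (by positivity), Real.log_mul hh0.ne' hp.ne'] at h7
    linarith
  have h7 : ((h - n : ℕ) : ℝ) * (Real.log ((h - n : ℕ) : ℝ) - Real.log h - Real.log (1 - p)) ≤
      ((h - n : ℕ) : ℝ) * (((h - n : ℕ) : ℝ) / (h * (1 - p)) - 1) := by
    refine mul_le_mul_of_nonneg_left ?_ hhn.le
    have h7 := Real.log_le_sub_one_of_pos (show 0 < ((h - n : ℕ) : ℝ) / (h * (1 - p)) by positivity)
    rw [Real.log_div hhn.ne' (by positivity), Real.log_mul hh0.ne' hp2.ne'] at h7
    linarith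
  have h8 : (n : ℝ) * (n / (h * p) - 1) + ((h - n : ℕ) : ℝ) * (((h - n : ℕ) : ℝ) / (h * (1 - p)) - 1) =
      ((n : ℝ) - h * p) ^ 2 / (h * p) * (1 / (1 - p)) := by
    rw [hc]
    field_simp
    ring
  have h9 : ((n : ℝ) - h * p) ^ 2 / (h * p) * (1 / (1 - p)) ≤
      (16 / 15) * (((n : ℝ) - h * p) ^ 2 / (h * p)) := by
    rw [mul_comm (16 / 15 : ℝ)]
    refine mul_le_mul_of_nonneg_left ?_ (by positivity)
    rw [div_le_div_iff₀ hp2 (by norm_num)]
    linarith
  have h10 : (h : ℝ) * Real.log h = n * Real.log h + ((h - n : ℕ) : ℝ) * Real.log h := by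
    rw [hc]; ring
  have h11 : (h : ℝ) = n + ((h - n : ℕ) : ℝ) := by rw [hc]; ring
  nlinarith

end Pool.Agent.W151.KW
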