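import Mathlib
import Pool.Agent.W151.KW.ES

/-! # Exchangeable distributions on the subsets of a finite set with prescribed correlations -/

set_option autoImplicit false

namespace Pool.Agent.W151.KW

open Finset

/-- the nodes -/
def nd (a g i : ℕ) : ℕ := a + g * i

/-- Lagrange coefficient at `0` -/
noncomputable def lc (a g n i : ℕ) : ℝ :=
  ∏ l ∈ (range (n + 1)).erase i, ((nd a g l : ℝ) / ((nd a g l : ℝ) - nd a g i))

theorem nd_inj {a g : ℕ} (hg : 1 ≤ g) {i j : ℕ} (h : nd a g i = nd a g j) : i = j := by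
  unfold nd at h
  have h1 : g * i = g * j := by omega
  exact Nat.eq_of_mul_eq_mul_left (by omega) h1

/-- Lagrange interpolation at `0` -/
theorem sum_lc (a g n t : ℕ) (hg : 1 ≤ g) (ht : t ≤ n) :
    ∑ i ∈ range (n + 1), lc a g n i * ((nd a g i).choose t : ℝ) = if t = 0 then 1 else 0 := by
  classical
  set v : ℕ → ℝ := fun i => (nd a g i : ℝ) with hv
  have hinj : Set.InjOn v (range (n + 1) : Finset ℕ) := by
    intro i _ j _ hij
    simp only [hv] at hij
    exact nd_inj hg (by exact_mod_cast hij)
  set f : Polynomial ℝ := descPochhammer ℝ t with hf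
  have hdeg : f.degree < ((range (n + 1)).card : ℕ) := by
    rw [card_range]
    refine lt_of_le_of_lt Polynomial.degree_le_natDegree ?_
    rw [hf, descPochhammer_natDegree]
    exact_mod_cast (by omega : t < n + 1)
  have h1 := Lagrange.eq_interpolate hinj hdeg
  have h2 := congrArg (Polynomial.eval (0 : ℝ)) h1
  rw [Lagrange.interpolate_apply, Polynomial.eval_finset_sum] at h2
  have h3 : ∀ i ∈ range (n + 1), Polynomial.eval (0 : ℝ)
      (Polynomial.C (Polynomial.eval (v i) f) * Lagrange.basis (range (n + 1)) v i) =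
      (t.factorial : ℝ) * (lc a g n i * ((nd a g i).choose t : ℝ)) := by
    intro i _
    rw [Polynomial.eval_mul, Polynomial.eval_C]
    have h4 : Polynomial.eval (v i) f = (t.factorial : ℝ) * ((nd a g i).choose t : ℝ) := by
      rw [hf, hv]
      simp only
      rw [descPochhammer_eval_eq_descFactorial, Nat.descFactorial_eq_factorial_mul_choose]
      push_cast
      ring
    have h5 : Polynomial.eval (0 : ℝ) (Lagrange.basis (range (n + 1)) v i) = lc a g n i := by
      rw [Lagrange.basis, Polynomial.eval_prod]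
      unfold lc
      refine Finset.prod_congr rfl fun l hl => ?_
      have hne : v i - v l ≠ 0 := by
        rw [sub_ne_zero]
        intro h6
        simp only [hv] at h6
        have h7 : nd a g i = nd a g l := by exact_mod_cast h6
        exact (Finset.mem_erase.1 hl).1 (nd_inj hg h7).symm
      rw [Lagrange.basisDivisor]
      simp only [Polynomial.eval_mul, Polynomial.eval_C, Polynomial.eval_sub, Polynomial.eval_X]
      have hne2 : v l - v i ≠ 0 := by
        intro h6; apply hne; linarith
      change (v i - v l)⁻¹ * (0 - v l) = v l / (v l - v i)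
      field_simp
      ring
    rw [h4, h5]
    ring
  rw [Finset.sum_congr rfl h3, ← Finset.mul_sum] at h2
  have h6 : Polynomial.eval (0 : ℝ) f = (t.factorial : ℝ) * (if t = 0 then 1 else 0) := by
    have := descPochhammer_eval_eq_descFactorial ℝ 0 t
    rw [Nat.cast_zero] at this
    rw [hf, this]
    rcases Nat.eq_zero_or_pos t with h0 | h0
    · subst h0; simp
    · obtain ⟨s, rfl⟩ := Nat.exists_eq_succ_of_ne_zero (by omega : t ≠ 0)
      simp
  rw [h6] at h2
  have hf0 : (t.factorial : ℝ) ≠ 0 := by exact_mod_cast t.factorial_ne_zero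
  exact (mul_left_cancel₀ hf0 h2).symm

/-- number of the supersets of given size -/
theorem card_supersets (B T : Finset ℕ) (j : ℕ) (hT : T ⊆ B) (hj : j ≤ B.card) :
    ((B.powersetCard j).filter (fun S => T ⊆ S)).card * B.card.choose T.card =
      B.card.choose j * j.choose T.card := by
  classical
  by_cases h : T.card ≤ j
  · have e : (B.powersetCard j).filter (fun S => T ⊆ S) =
        ((B \ T).powersetCard (j - T.card)).image (fun S => S ∪ T) := by
      ext S
      rw [mem_filter, mem_powersetCard, mem_image]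
      constructor
      · rintro ⟨⟨h1, h2⟩, h3⟩
        refine ⟨S \ T, ?_, Finset.sdiff_union_of_subset h3⟩
        rw [mem_powersetCard]
        refine ⟨Finset.sdiff_subset_sdiff h1 (Finset.Subset.refl _), ?_⟩
        rw [Finset.card_sdiff_of_subset h3, h2]
      · rintro ⟨S', h1, rfl⟩
        rw [mem_powersetCard] at h1
        have hd : Disjoint S' T := by
          rw [Finset.disjoint_left]
          intro x hx
          exact (mem_sdiff.1 (h1.1 hx)).2
        refine ⟨⟨Finset.union_subset (h1.1.trans Finset.sdiff_subset) hT, ?_⟩, Finset.subset_union_right⟩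
        rw [Finset.card_union_of_disjoint hd, h1.2]
        omega
    rw [e, Finset.card_image_of_injOn, card_powersetCard, Finset.card_sdiff_of_subset hT]
    · rw [Nat.choose_mul h]
      ring
    · intro S hS S' hS' he
      rw [Finset.mem_coe, mem_powersetCard] at hS hS'
      simp only at he
      have hd : ∀ S : Finset ℕ, S ⊆ B \ T → (S ∪ T) \ T = S := by
        intro S hS
        rw [Finset.union_sdiff_right]
        rw [Finset.sdiff_eq_self_iff_disjoint, Finset.disjoint_left]
        intro x hx
        exact (mem_sdiff.1 (hS hx)).2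
      rw [← hd S hS.1, ← hd S' hS'.1, he]
  · have e : (B.powersetCard j).filter (fun S => T ⊆ S) = ∅ := by
      rw [Finset.filter_eq_empty_iff]
      intro S hS h1
      rw [mem_powersetCard] at hS
      have := Finset.card_le_card h1
      omega
    rw [e, Nat.choose_eq_zero_of_lt (by omega : j < T.card)]
    simp

/-- the weights -/
noncomputable def nuw (p : ℕ → ℝ) (B : Finset ℕ) (n a g : ℕ) (ε : ℝ) (S : Finset ℕ) : ℝ :=
  pw p B S + ε * ((if S = ∅ then 1 else 0) -
    ∑ i ∈ range (n + 1), if S.card = nd a g i then lc a g n i / (B.card.choose (nd a g i) : ℝ) else 0)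

theorem nuw_moment (p : ℕ → ℝ) (B : Finset ℕ) (n a g : ℕ) (ε : ℝ) (hg : 1 ≤ g)
    (hh : a + g * n ≤ B.card) (T : Finset ℕ) (hT : T ⊆ B) (hTn : T.card ≤ n) :
    ∑ S ∈ B.powerset, (if T ⊆ S then nuw p B n a g ε S else 0) = ∏ i ∈ T, p i := by
  classical
  have h1 : ∀ S ∈ B.powerset, (if T ⊆ S then nuw p B n a g ε S else 0) =
      (if T ⊆ S then pw p B S else 0) + ε * ((if T ⊆ S then (if S = ∅ then (1 : ℝ) else 0) else 0) -
        ∑ i ∈ range (n + 1), (lc a g n i / (B.card.choose (nd a g i) : ℝ)) *
          (if S.card = nd a g i ∧ T ⊆ S then 1 else 0)) := by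
    intro S _
    by_cases h : T ⊆ S
    · simp only [nuw, h, and_true, mul_ite, mul_one, mul_zero, if_true]
    · simp only [h, and_false, if_false, mul_zero, Finset.sum_const_zero, sub_zero, add_zero]
  rw [Finset.sum_congr rfl h1, Finset.sum_add_distrib, sum_pw p B T hT, ← Finset.mul_sum,
    Finset.sum_sub_distrib, Finset.sum_comm]
  have h2 : ∑ S ∈ B.powerset, (if T ⊆ S then (if S = ∅ then (1 : ℝ) else 0) else 0) =
      if T.card = 0 then 1 else 0 := by
    by_cases h : T = ∅
    · subst h
      simp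
    · have h0 : T.card ≠ 0 := by rwa [Ne, Finset.card_eq_zero]
      rw [if_neg h0]
      refine Finset.sum_eq_zero fun S _ => ?_
      by_cases h3 : T ⊆ S
      · rw [if_pos h3, if_neg]
        rintro rfl
        exact h (Finset.subset_empty.1 h3)
      · rw [if_neg h3]
  have h3 : ∀ i ∈ range (n + 1), ∑ S ∈ B.powerset, (lc a g n i / (B.card.choose (nd a g i) : ℝ)) *
      (if S.card = nd a g i ∧ T ⊆ S then (1 : ℝ) else 0) =
      (lc a g n i * ((nd a g i).choose T.card : ℝ)) / (B.card.choose T.card : ℝ) := by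
    intro i hi
    rw [mem_range] at hi
    have hni : nd a g i ≤ B.card := by
      unfold nd
      have : g * i ≤ g * n := Nat.mul_le_mul_left _ (by omega)
      omega
    rw [← Finset.mul_sum]
    have h4 : ∑ S ∈ B.powerset, (if S.card = nd a g i ∧ T ⊆ S then (1 : ℝ) else 0) =
        (((B.powersetCard (nd a g i)).filter (fun S => T ⊆ S)).card : ℝ) := by
      rw [Finset.powersetCard_eq_filter, Finset.filter_filter, Finset.sum_boole]
    rw [h4]
    have h5 := card_supersets B T (nd a g i) hT hni
    have h6 : (0 : ℝ) < B.card.choose (nd a g i) := by exact_mod_cast Nat.choose_pos hni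
    have h7 : (0 : ℝ) < B.card.choose T.card := by
      exact_mod_cast Nat.choose_pos (Finset.card_le_card hT)
    have h8 : (((B.powersetCard (nd a g i)).filter (fun S => T ⊆ S)).card : ℝ) * B.card.choose T.card =
        B.card.choose (nd a g i) * (nd a g i).choose T.card := by exact_mod_cast h5
    rw [div_mul_eq_mul_div, div_eq_div_iff h6.ne' h7.ne']
    linear_combination (lc a g n i) * h8
  rw [h2, Finset.sum_congr rfl h3, ← Finset.sum_div, sum_lc a g n T.card hg hTn]
  by_cases h : T.card = 0
  · rw [if_pos h, h]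
    simp
  · rw [if_neg h]
    simp

theorem nuw_empty (p : ℕ → ℝ) (B : Finset ℕ) (n a g : ℕ) (ε : ℝ) (ha : 1 ≤ a) :
    nuw p B n a g ε ∅ = pw p B ∅ + ε := by
  unfold nuw
  rw [if_pos rfl]
  have : ∑ i ∈ range (n + 1), (if (∅ : Finset ℕ).card = nd a g i then
      lc a g n i / (B.card.choose (nd a g i) : ℝ) else 0) = 0 := by
    refine Finset.sum_eq_zero fun i _ => ?_
    rw [if_neg]
    unfold nd
    simp only [card_empty]
    omega
  rw [this]
  ring

theorem nuw_nonneg (p : ℕ → ℝ) (B : Finset ℕ) (n a g : ℕ) (ε : ℝ) (ha : 1 ≤ a) (hg : 1 ≤ g)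
    (hh : a + g * n ≤ B.card) (hp : ∀ i ∈ B, 0 ≤ p i ∧ p i ≤ 1) (h0 : 0 ≤ pw p B ∅ + ε)
    (hpos : ∀ i ≤ n, ∀ S ⊆ B, S.card = nd a g i →
      |ε| * |lc a g n i| ≤ (B.card.choose (nd a g i) : ℝ) * pw p B S)
    (S : Finset ℕ) (hS : S ⊆ B) : 0 ≤ nuw p B n a g ε S := by
  classical
  by_cases hS0 : S = ∅
  · rw [hS0, nuw_empty p B n a g ε ha]
    exact h0
  · unfold nuw
    rw [if_neg hS0]
    have hpw := pw_nonneg hS (fun i hi => (hp i hi).1) fun i hi => (hp i hi).2
    by_cases h : ∃ i ∈ range (n + 1), S.card = nd a g i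
    · obtain ⟨i, hi, hi2⟩ := h
      have hi' := mem_range.1 hi
      rw [Finset.sum_eq_single_of_mem i hi (fun j _ hj => by
        rw [if_neg]
        intro h1
        exact hj (nd_inj hg (h1.symm.trans hi2))), if_pos hi2]
      have h1 := hpos i (by omega) S hS hi2
      have hni : nd a g i ≤ B.card := by
        rw [← hi2]; exact Finset.card_le_card hS
      have h6 : (0 : ℝ) < B.card.choose (nd a g i) := by exact_mod_cast Nat.choose_pos hni
      have h2 : |ε * (lc a g n i / (B.card.choose (nd a g i) : ℝ))| ≤ pw p B S := by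
        rw [abs_mul, abs_div, abs_of_pos h6, ← mul_div_assoc, div_le_iff₀ h6]
        linarith
      have h3 := (abs_le.1 h2).2
      linarith
    · push Not at h
      rw [Finset.sum_eq_zero fun i hi => if_neg (h i hi)]
      simpa using hpw

/-- `∏_{l ≤ n, l ≠ i} |l - i| = i! (n - i)!` -/
theorem prod_erase_sub (n i : ℕ) (hi : i ≤ n) :
    ∏ l ∈ (range (n + 1)).erase i, |(l : ℝ) - i| = (i.factorial : ℝ) * ((n - i).factorial : ℝ) := by
  classical
  have e : (range (n + 1)).erase i = range i ∪ Ioc i n := by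
    ext l; simp only [mem_erase, mem_range, mem_union, mem_Ioc]; omega
  have d : Disjoint (range i) (Ioc i n) := by
    rw [Finset.disjoint_left]; intro l hl; simp only [mem_range, mem_Ioc] at *; omega
  rw [e, Finset.prod_union d]
  congr 1
  · have h1 : ∏ l ∈ range i, |(l : ℝ) - i| = ∏ l ∈ range i, ((i - 1 - l + 1 : ℕ) : ℝ) := by
      refine Finset.prod_congr rfl fun l hl => ?_
      rw [mem_range] at hl
      have h2 : ((i - 1 - l + 1 : ℕ) : ℝ) = (i : ℝ) - l := by
        have : i - 1 - l + 1 = i - l := by omega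
        rw [this, Nat.cast_sub hl.le]
      rw [h2, abs_sub_comm, abs_of_nonneg]
      have : (l : ℝ) ≤ i := by exact_mod_cast hl.le
      linarith
    rw [h1, Finset.prod_range_reflect (fun l => ((l + 1 : ℕ) : ℝ)) i, ← Nat.cast_prod,
      Finset.prod_range_add_one_eq_factorial]
  · have h1 : ∏ l ∈ Ioc i n, |(l : ℝ) - i| = ∏ l ∈ range (n - i), ((l + 1 : ℕ) : ℝ) := by
      symm
      refine Finset.prod_bij (fun l _ => i + l + 1) ?_ ?_ ?_ ?_
      · intro l hl; rw [mem_range] at hl; rw [mem_Ioc]; omega
      · intro l _ l' _ h; omega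
      · intro l hl; rw [mem_Ioc] at hl; exact ⟨l - i - 1, by rw [mem_range]; omega, by omega⟩
      · intro l _
        push_cast
        rw [abs_of_nonneg] <;> ring_nf
        positivity
    rw [h1, ← Nat.cast_prod, Finset.prod_range_add_one_eq_factorial]

/-- bound of the Lagrange coefficients -/
theorem abs_lc_le (a g n i : ℕ) (hg : 1 ≤ g) (hi : i ≤ n) (hn : 1 ≤ n) :
    |lc a g n i| ≤ (2 * Real.exp 1 * ((nd a g n : ℕ) : ℝ) / (g * n)) ^ n := by
  have hg0 : (0 : ℝ) < g := by exact_mod_cast hg
  have hn0 : (0 : ℝ) < n := by exact_mod_cast hn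
  have hcard : ((range (n + 1)).erase i).card = n := by
    rw [Finset.card_erase_of_mem (mem_range.2 (by omega)), card_range]; rfl
  have h1 : |lc a g n i| = (∏ l ∈ (range (n + 1)).erase i, (nd a g l : ℝ)) /
      (g ^ n * ((i.factorial : ℝ) * ((n - i).factorial : ℝ))) := by
    unfold lc
    rw [Finset.abs_prod]
    have h2 : ∀ l ∈ (range (n + 1)).erase i, |(nd a g l : ℝ) / ((nd a g l : ℝ) - nd a g i)| =
        (nd a g l : ℝ) / (g * |(l : ℝ) - i|) := by
      intro l _
      rw [abs_div, abs_of_nonneg (Nat.cast_nonneg _)]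
      congr 1
      unfold nd
      push_cast
      rw [show (a : ℝ) + g * l - (a + g * i) = g * ((l : ℝ) - i) by ring, abs_mul, abs_of_pos hg0]
    rw [Finset.prod_congr rfl h2, Finset.prod_div_distrib, Finset.prod_mul_distrib,
      prod_erase_sub n i hi, Finset.prod_const, hcard]
  have h2 : ∏ l ∈ (range (n + 1)).erase i, (nd a g l : ℝ) ≤ ((nd a g n : ℕ) : ℝ) ^ n := by
    calc ∏ l ∈ (range (n + 1)).erase i, (nd a g l : ℝ) ≤ ∏ _l ∈ (range (n + 1)).erase i, ((nd a g n : ℕ) : ℝ) := by
          refine Finset.prod_le_prod (fun _ _ => Nat.cast_nonneg _) fun l hl => ?_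
          have hl' := mem_range.1 (Finset.mem_erase.1 hl).2
          have : g * l ≤ g * n := Nat.mul_le_mul_left _ (by omega)
          exact_mod_cast (show nd a g l ≤ nd a g n by unfold nd; omega)
      _ = _ := by rw [Finset.prod_const, hcard]
  have h3 : (n : ℝ) ^ n / (2 * Real.exp 1) ^ n ≤ (i.factorial : ℝ) * ((n - i).factorial : ℝ) := by
    have h4 : (n.factorial : ℝ) = (n.choose i : ℝ) * ((i.factorial : ℝ) * ((n - i).factorial : ℝ)) := by
      have := Nat.choose_mul_factorial_mul_factorial hi
      rw [← this]; push_cast; ring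
    have h5 : (n.choose i : ℝ) ≤ 2 ^ n := by
      have : n.choose i ≤ 2 ^ n := by
        rw [← Nat.sum_range_choose]
        exact Finset.single_le_sum (f := fun i => n.choose i) (fun _ _ => Nat.zero_le _)
          (mem_range.2 (by omega))
      exact_mod_cast this
    have h6 : (n : ℝ) ^ n ≤ n.factorial * Real.exp 1 ^ n := by
      have := Real.pow_div_factorial_le_exp (n : ℝ) hn0.le n
      have hf : (0 : ℝ) < n.factorial := by exact_mod_cast n.factorial_pos
      rw [div_le_iff₀ hf] at this
      rw [← Real.exp_nat_mul, mul_one]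
      linarith
    rw [div_le_iff₀ (by positivity), mul_pow]
    have h7 : 0 ≤ (i.factorial : ℝ) * ((n - i).factorial : ℝ) := by positivity
    calc (n : ℝ) ^ n ≤ n.factorial * Real.exp 1 ^ n := h6
      _ = ((n.choose i : ℝ) * ((i.factorial : ℝ) * ((n - i).factorial : ℝ))) * Real.exp 1 ^ n := by rw [h4]
      _ ≤ (2 ^ n * ((i.factorial : ℝ) * ((n - i).factorial : ℝ))) * Real.exp 1 ^ n := by gcongr
      _ = _ := by ring
  rw [h1]
  calc (∏ l ∈ (range (n + 1)).erase i, (nd a g l : ℝ)) / (g ^ n * ((i.factorial : ℝ) * ((n - i).factorial : ℝ)))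
      ≤ ((nd a g n : ℕ) : ℝ) ^ n / (g ^ n * ((n : ℝ) ^ n / (2 * Real.exp 1) ^ n)) := by gcongr
    _ = _ := by
        rw [div_pow, mul_pow (2 * Real.exp 1), mul_pow (g : ℝ)]
        field_simp

end Pool.Agent.W151.KW
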