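import Mathlib
import Pool.Agent.W151.KW.Lag

/-! # Exchangeable perturbations with general nodes (helper151) -/

set_option autoImplicit false

namespace Pool.Agent.W151.KW

open Finset

/-- Lagrange coefficient at `0` for the node set `V` -/
noncomputable def lv (V : Finset ℕ) (v : ℕ) : ℝ := ∏ w ∈ V.erase v, ((w : ℝ) / ((w : ℝ) - v))

/-- Lagrange interpolation at `0` -/
theorem sum_lv (V : Finset ℕ) (t : ℕ) (ht : t < V.card) :
    ∑ v ∈ V, lv V v * (v.choose t : ℝ) = if t = 0 then 1 else 0 := by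
  classical
  have hinj : Set.InjOn (fun i : ℕ => (i : ℝ)) (V : Finset ℕ) := by
    intro i _ j _ hij
    exact Nat.cast_injective (R := ℝ) hij
  set f : Polynomial ℝ := descPochhammer ℝ t with hf
  have hdeg : f.degree < (V.card : ℕ) := by
    refine lt_of_le_of_lt Polynomial.degree_le_natDegree ?_
    rw [hf, descPochhammer_natDegree]
    exact_mod_cast ht
  have h1 := Lagrange.eq_interpolate hinj hdeg
  have h2 := congrArg (Polynomial.eval (0 : ℝ)) h1
  rw [Lagrange.interpolate_apply, Polynomial.eval_finset_sum] at h2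
  have h3 : ∀ i ∈ V, Polynomial.eval (0 : ℝ)
      (Polynomial.C (Polynomial.eval (i : ℝ) f) * Lagrange.basis V (fun i : ℕ => (i : ℝ)) i) =
      (t.factorial : ℝ) * (lv V i * (i.choose t : ℝ)) := by
    intro i _
    rw [Polynomial.eval_mul, Polynomial.eval_C]
    have h4 : Polynomial.eval (i : ℝ) f = (t.factorial : ℝ) * (i.choose t : ℝ) := by
      rw [hf, descPochhammer_eval_eq_descFactorial, Nat.descFactorial_eq_factorial_mul_choose]
      push_cast
      ring
    have h5 : Polynomial.eval (0 : ℝ) (Lagrange.basis V (fun i : ℕ => (i : ℝ)) i) = lv V i := by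
      rw [Lagrange.basis, Polynomial.eval_prod]
      unfold lv
      refine Finset.prod_congr rfl fun l hl => ?_
      have hne : (i : ℝ) - l ≠ 0 := by
        rw [sub_ne_zero]
        intro h6
        exact (Finset.mem_erase.1 hl).1 (by exact_mod_cast h6.symm)
      rw [Lagrange.basisDivisor]
      simp only [Polynomial.eval_mul, Polynomial.eval_C, Polynomial.eval_sub, Polynomial.eval_X]
      have hne2 : (l : ℝ) - i ≠ 0 := by
        intro h6; apply hne; linarith
      change ((i : ℝ) - l)⁻¹ * (0 - (l : ℝ)) = (l : ℝ) / ((l : ℝ) - i)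
      field_simp
      ring
    rw [h4, h5]
    ring
  rw [Finset.sum_congr rfl h3, ← Finset.mul_sum] at h2
  have h6 : Polynomial.eval (0 : ℝ) f = (t.factorial : ℝ) * (if t = 0 then 1 else 0) := by
    have := descPochhammer_eval_eq_descFactorial ℝ 0 t
    rw [Nat.cast_zero] at this
    rw [hf, this]
    rcases Nat.eq_zero_or_pos t with h0 | h0
    · subst h0; simp
    · obtain ⟨s, rfl⟩ := Nat.exists_eq_succ_of_ne_zero (by omega : t ≠ 0)
      simp
  rw [h6] at h2
  have hf0 : (t.factorial : ℝ) ≠ 0 := by exact_mod_cast t.factorial_ne_zero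
  exact (mul_left_cancel₀ hf0 h2).symm

/-- the perturbation with node set `V` -/
noncomputable def pv (B V : Finset ℕ) (S : Finset ℕ) : ℝ :=
  (if S = ∅ then 1 else 0) - (if S.card ∈ V then lv V S.card / (B.card.choose S.card : ℝ) else 0)

theorem pv_moment (B V : Finset ℕ) (hV : ∀ v ∈ V, v ≤ B.card) (T : Finset ℕ) (hT : T ⊆ B)
    (hTn : T.card < V.card) : ∑ S ∈ B.powerset, (if T ⊆ S then pv B V S else 0) = 0 := by
  classical
  have h1 : ∀ S ∈ B.powerset, (if T ⊆ S then pv B V S else 0) =
      (if T ⊆ S then (if S = ∅ then (1 : ℝ) else 0) else 0) -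
        ∑ v ∈ V, (lv V v / (B.card.choose v : ℝ)) * (if S.card = v ∧ T ⊆ S then 1 else 0) := by
    intro S _
    by_cases h : T ⊆ S
    · simp only [pv, h, and_true, mul_ite, mul_one, mul_zero, if_true]
      congr 1
      by_cases h2 : S.card ∈ V
      · rw [if_pos h2, Finset.sum_eq_single_of_mem S.card h2 (fun v _ hv => if_neg (Ne.symm hv)),
          if_pos rfl]
      · rw [if_neg h2, Finset.sum_eq_zero]
        intro v hv
        rw [if_neg]
        rintro rfl
        exact h2 hv
    · simp only [h, and_false, if_false, mul_zero, Finset.sum_const_zero, sub_zero]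
  rw [Finset.sum_congr rfl h1, Finset.sum_sub_distrib, Finset.sum_comm]
  have h2 : ∑ S ∈ B.powerset, (if T ⊆ S then (if S = ∅ then (1 : ℝ) else 0) else 0) =
      if T.card = 0 then 1 else 0 := by
    by_cases h : T = ∅
    · subst h
      simp
    · have h0 : T.card ≠ 0 := by rwa [Ne, Finset.card_eq_zero]
      rw [if_neg h0]
      refine Finset.sum_eq_zero fun S _ => ?_
      by_cases h3 : T ⊆ S
      · rw [if_pos h3, if_neg]
        rintro rfl
        exact h (Finset.subset_empty.1 h3)
      · rw [if_neg h3]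
  have h3 : ∀ v ∈ V, ∑ S ∈ B.powerset, (lv V v / (B.card.choose v : ℝ)) *
      (if S.card = v ∧ T ⊆ S then (1 : ℝ) else 0) =
      (lv V v * (v.choose T.card : ℝ)) / (B.card.choose T.card : ℝ) := by
    intro v hv
    have hni := hV v hv
    rw [← Finset.mul_sum]
    have h4 : ∑ S ∈ B.powerset, (if S.card = v ∧ T ⊆ S then (1 : ℝ) else 0) =
        (((B.powersetCard v).filter (fun S => T ⊆ S)).card : ℝ) := by
      rw [Finset.powersetCard_eq_filter, Finset.filter_filter, Finset.sum_boole]
    rw [h4]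
    have h5 := card_supersets B T v hT hni
    have h6 : (0 : ℝ) < B.card.choose v := by exact_mod_cast Nat.choose_pos hni
    have h7 : (0 : ℝ) < B.card.choose T.card := by
      exact_mod_cast Nat.choose_pos (Finset.card_le_card hT)
    have h8 : (((B.powersetCard v).filter (fun S => T ⊆ S)).card : ℝ) * B.card.choose T.card =
        B.card.choose v * v.choose T.card := by exact_mod_cast h5
    rw [div_mul_eq_mul_div, div_eq_div_iff h6.ne' h7.ne']
    linear_combination (lv V v) * h8
  rw [h2, Finset.sum_congr rfl h3, ← Finset.sum_div, sum_lv V T.card hTn]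
  by_cases h : T.card = 0
  · rw [if_pos h, h]
    simp
  · rw [if_neg h]
    simp

/-- the weights -/
noncomputable def nuv (p : ℕ → ℝ) (B : Finset ℕ) (V : ℕ → Finset ℕ) (g : ℕ) (ε : ℝ) (S : Finset ℕ) : ℝ :=
  pw p B S + (ε / g) * ∑ j ∈ range g, pv B (V j) S

theorem nuv_moment (p : ℕ → ℝ) (B : Finset ℕ) (V : ℕ → Finset ℕ) (g : ℕ) (ε : ℝ)
    (hV : ∀ j < g, ∀ v ∈ V j, v ≤ B.card) (T : Finset ℕ) (hT : T ⊆ B)
    (hTn : ∀ j < g, T.card < (V j).card) :
    ∑ S ∈ B.powerset, (if T ⊆ S then nuv p B V g ε S else 0) = ∏ i ∈ T, p i := by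
  classical
  have h1 : ∀ S ∈ B.powerset, (if T ⊆ S then nuv p B V g ε S else 0) =
      (if T ⊆ S then pw p B S else 0) +
        (ε / g) * ∑ j ∈ range g, (if T ⊆ S then pv B (V j) S else 0) := by
    intro S _
    by_cases h : T ⊆ S
    · simp only [nuv, h, if_true]
    · simp only [h, if_false, Finset.sum_const_zero, mul_zero, add_zero]
  rw [Finset.sum_congr rfl h1, Finset.sum_add_distrib, sum_pw p B T hT, ← Finset.mul_sum,
    Finset.sum_comm, Finset.sum_eq_zero fun j hj => ?_, mul_zero, add_zero]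
  rw [mem_range] at hj
  exact pv_moment B (V j) (hV j hj) T hT (hTn j hj)

theorem nuv_empty (p : ℕ → ℝ) (B : Finset ℕ) (V : ℕ → Finset ℕ) (g : ℕ) (hg : 1 ≤ g) (ε : ℝ)
    (hV : ∀ j < g, 0 ∉ V j) : nuv p B V g ε ∅ = pw p B ∅ + ε := by
  unfold nuv
  have : ∀ j ∈ range g, pv B (V j) ∅ = 1 := by
    intro j hj
    unfold pv
    rw [if_pos rfl, card_empty, if_neg (hV j (mem_range.1 hj)), sub_zero]
  rw [Finset.sum_congr rfl this, Finset.sum_const, card_range, nsmul_eq_mul, mul_one]
  have hg0 : (g : ℝ) ≠ 0 := by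
    have : g ≠ 0 := by omega
    exact_mod_cast this
  field_simp

theorem nuv_nonneg (p : ℕ → ℝ) (B : Finset ℕ) (V : ℕ → Finset ℕ) (g : ℕ) (hg : 1 ≤ g) (ε : ℝ)
    (hε : 0 ≤ ε)
    (hp : ∀ i ∈ B, 0 ≤ p i ∧ p i ≤ 1)
    (hneg : ∀ j < g, lv (V j) B.card ≤ 0)
    (huniq : ∀ s, s ≠ B.card → ∀ j < g, ∀ j' < g, s ∈ V j → s ∈ V j' → j = j')
    (hpos : ∀ j < g, ∀ S ⊆ B, S ≠ B → S.card ∈ V j →
      ε / g * |lv (V j) S.card| ≤ (B.card.choose S.card : ℝ) * pw p B S)
    (S : Finset ℕ) (hS : S ⊆ B) : 0 ≤ nuv p B V g ε S := by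
  classical
  have hg0 : (0 : ℝ) < g := by exact_mod_cast hg
  have hpw := pw_nonneg hS (fun i hi => (hp i hi).1) fun i hi => (hp i hi).2
  by_cases hSB : S = B
  · have h1 : ∀ j ∈ range g, 0 ≤ pv B (V j) S := by
      intro j hj
      rw [mem_range] at hj
      unfold pv
      rw [hSB]
      have h2 : (0 : ℝ) ≤ if B = ∅ then 1 else 0 := by split_ifs <;> norm_num
      have h3 : (if B.card ∈ V j then lv (V j) B.card / (B.card.choose B.card : ℝ) else 0) ≤ 0 := by
        split_ifs
        · rw [Nat.choose_self, Nat.cast_one, div_one]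
          exact hneg j hj
        · exact le_rfl
      linarith
    unfold nuv
    have := Finset.sum_nonneg h1
    positivity
  · have hcard : S.card ≠ B.card := by
      intro h
      exact hSB (Finset.eq_of_subset_of_card_le hS h.ge)
    have hge : ∀ j, -(if S.card ∈ V j then |lv (V j) S.card| / (B.card.choose S.card : ℝ) else 0) ≤
        pv B (V j) S := by
      intro j
      unfold pv
      have h2 : (0 : ℝ) ≤ if S = ∅ then 1 else 0 := by split_ifs <;> norm_num
      have h3 : (if S.card ∈ V j then lv (V j) S.card / (B.card.choose S.card : ℝ) else 0) ≤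
          if S.card ∈ V j then |lv (V j) S.card| / (B.card.choose S.card : ℝ) else 0 := by
        split_ifs
        · exact div_le_div_of_nonneg_right (le_abs_self _) (Nat.cast_nonneg _)
        · exact le_rfl
      linarith
    unfold nuv
    have h6 : (0 : ℝ) < B.card.choose S.card := by
      exact_mod_cast Nat.choose_pos (Finset.card_le_card hS)
    by_cases h : ∃ j < g, S.card ∈ V j
    · obtain ⟨j, hj, hj2⟩ := h
      have h1 : -(|lv (V j) S.card| / (B.card.choose S.card : ℝ)) ≤ ∑ j ∈ range g, pv B (V j) S := by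
        have h4 : ∑ j' ∈ range g, -(if S.card ∈ V j' then
            |lv (V j') S.card| / (B.card.choose S.card : ℝ) else 0) ≤ ∑ j ∈ range g, pv B (V j) S :=
          Finset.sum_le_sum fun j _ => hge j
        rw [Finset.sum_eq_single_of_mem j (mem_range.2 hj) (fun j' hj' hne => by
          rw [if_neg, neg_zero]
          intro h5
          exact hne (huniq S.card hcard j' (mem_range.1 hj') j hj h5 hj2)), if_pos hj2] at h4
        exact h4
      have h2 := hpos j hj S hS hSB hj2
      have h3 : ε / g * (|lv (V j) S.card| / (B.card.choose S.card : ℝ)) ≤ pw p B S := by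
        rw [← mul_div_assoc, div_le_iff₀ h6]
        linarith
      have h4 : ε / g * (-(|lv (V j) S.card| / (B.card.choose S.card : ℝ))) ≤
          ε / g * ∑ j ∈ range g, pv B (V j) S := mul_le_mul_of_nonneg_left h1 (by positivity)
      linarith
    · push Not at h
      have h1 : 0 ≤ ∑ j ∈ range g, pv B (V j) S := by
        refine Finset.sum_nonneg fun j hj => ?_
        have h2 := hge j
        rw [if_neg (h j (mem_range.1 hj)), neg_zero] at h2
        exact h2
      positivity

/-! ### the nodes -/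

/-- the nodes `a + g i`, `i ≤ n`, and `b` -/
def vs (a g n b : ℕ) : Finset ℕ := insert b ((range (n + 1)).image (fun i => nd a g i))

theorem mem_vs {a g n b v : ℕ} : v ∈ vs a g n b ↔ v = b ∨ ∃ i ≤ n, v = nd a g i := by
  unfold vs
  rw [Finset.mem_insert, Finset.mem_image]
  constructor
  · rintro (h | ⟨i, hi, rfl⟩)
    · exact Or.inl h
    · exact Or.inr ⟨i, by rw [mem_range] at hi; omega, rfl⟩
  · rintro (h | ⟨i, hi, rfl⟩)
    · exact Or.inl h
    · exact Or.inr ⟨i, mem_range.2 (by omega), rfl⟩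

theorem nd_mono {a g i n : ℕ} (hi : i ≤ n) : nd a g i ≤ nd a g n := by
  unfold nd
  have : g * i ≤ g * n := Nat.mul_le_mul_left _ hi
  omega

theorem b_notMem {a g n b : ℕ} (hb : nd a g n < b) : b ∉ (range (n + 1)).image (fun i => nd a g i) := by
  rw [Finset.mem_image]
  rintro ⟨i, hi, h⟩
  rw [mem_range] at hi
  have := nd_mono (a := a) (g := g) (by omega : i ≤ n)
  omega

theorem card_vs {a g n b : ℕ} (hg : 1 ≤ g) (hb : nd a g n < b) : (vs a g n b).card = n + 2 := by
  unfold vs
  rw [Finset.card_insert_of_notMem (b_notMem hb), Finset.card_image_of_injective _ (fun i j h => nd_inj hg h),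
    card_range]

theorem lv_node {a g n b i : ℕ} (hg : 1 ≤ g) (hb : 2 * nd a g n ≤ b) (hn : 1 ≤ nd a g n) (hi : i ≤ n) :
    |lv (vs a g n b) (nd a g i)| ≤ 2 * |lc a g n i| := by
  classical
  have hb' : nd a g n < b := by omega
  have hib : nd a g i ≠ b := by
    have := nd_mono (a := a) (g := g) hi
    omega
  have h1 : (vs a g n b).erase (nd a g i) =
      insert b (((range (n + 1)).erase i).image (fun i => nd a g i)) := by
    unfold vs
    rw [Finset.erase_insert_of_ne hib.symm]
    congr 1
    ext v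
    simp only [Finset.mem_erase, Finset.mem_image]
    constructor
    · rintro ⟨h2, j, hj, rfl⟩
      exact ⟨j, ⟨fun h => h2 (by rw [h]), hj⟩, rfl⟩
    · rintro ⟨j, ⟨h2, hj⟩, rfl⟩
      exact ⟨fun h => h2 (nd_inj hg h), j, hj, rfl⟩
  have h2 : b ∉ ((range (n + 1)).erase i).image (fun i => nd a g i) := by
    intro h
    exact b_notMem hb' (Finset.image_subset_image (Finset.erase_subset _ _) h)
  have h3 : lv (vs a g n b) (nd a g i) = ((b : ℝ) / ((b : ℝ) - nd a g i)) * lc a g n i := by
    unfold lv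
    rw [h1, Finset.prod_insert h2, Finset.prod_image (fun x _ y _ h => nd_inj hg h)]
    rfl
  rw [h3, abs_mul]
  refine mul_le_mul_of_nonneg_right ?_ (abs_nonneg _)
  have h4 : 2 * (nd a g i : ℝ) ≤ b := by
    have := nd_mono (a := a) (g := g) hi
    exact_mod_cast (by omega : 2 * nd a g i ≤ b)
  have h5 : (0 : ℝ) < b := by exact_mod_cast (by omega : 0 < b)
  rw [abs_of_nonneg (div_nonneg h5.le (by linarith)), div_le_iff₀ (by linarith)]
  linarith

theorem lv_far {a g n b : ℕ} (hg : 1 ≤ g) (hb : nd a g n < b) (hn : Even n) : lv (vs a g n b) b ≤ 0 := by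
  classical
  have h1 : (vs a g n b).erase b = (range (n + 1)).image (fun i => nd a g i) := by
    unfold vs
    rw [Finset.erase_insert (b_notMem hb)]
  have h2 : lv (vs a g n b) b = ∏ i ∈ range (n + 1), ((nd a g i : ℝ) / ((nd a g i : ℝ) - b)) := by
    unfold lv
    rw [h1, Finset.prod_image (fun x _ y _ h => nd_inj hg h)]
  have h3 : ∏ i ∈ range (n + 1), ((nd a g i : ℝ) / ((nd a g i : ℝ) - b)) =
      (-1) ^ (n + 1) * ∏ i ∈ range (n + 1), ((nd a g i : ℝ) / ((b : ℝ) - nd a g i)) := by
    rw [show (-1 : ℝ) ^ (n + 1) = ∏ _i ∈ range (n + 1), (-1 : ℝ) by rw [Finset.prod_const, card_range],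
      ← Finset.prod_mul_distrib]
    refine Finset.prod_congr rfl fun i hi => ?_
    rw [neg_one_mul, ← div_neg, neg_sub]
  rw [h2, h3, (hn.add_one).neg_one_pow, neg_one_mul, neg_nonpos]
  refine Finset.prod_nonneg fun i hi => div_nonneg (Nat.cast_nonneg _) ?_
  rw [mem_range] at hi
  have h4 := nd_mono (a := a) (g := g) (by omega : i ≤ n)
  have h5 : (nd a g i : ℝ) ≤ b := by exact_mod_cast (by omega : nd a g i ≤ b)
  linarith

end Pool.Agent.W151.KW
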