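import Mathlib
import Pool.Agent.W151.KW.ES

/-! # Truncated inclusion-exclusion sums and their second moments -/

set_option autoImplicit false

namespace Pool.Agent.W151.KW

open Finset MeasureTheory
open Pool.Agent.W151.KW.Bf (G)

variable {Ω : Type*} [MeasurableSpace Ω] {μ : Measure Ω} {A : ℕ → Set Ω}

/-- coefficients of the truncated inclusion-exclusion sum -/
noncomputable def cf (d : ℕ) (S : Finset ℕ) : ℝ := if S.card ≤ d then (-1 : ℝ) ^ S.card else 0

theorem G_eq (x : ℕ → ℝ) (I : Finset ℕ) (d : ℕ) : G x I d = ∑ S ∈ I.powerset, cf d S * ∏ i ∈ S, x i := by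
  unfold G cf
  refine Finset.sum_congr rfl fun S _ => ?_
  rw [ite_mul, zero_mul]

/-- the truncated inclusion-exclusion sum -/
noncomputable def LL (A : ℕ → Set Ω) (I : Finset ℕ) (d : ℕ) (ω : Ω) : ℝ := G (fun i => X A i ω) I d

theorem LL_eq (I : Finset ℕ) (d : ℕ) (ω : Ω) :
    LL A I d ω = ∑ S ∈ I.powerset, cf d S * ∏ i ∈ S, X A i ω := G_eq _ _ _

theorem integral_LL [IsFiniteMeasure μ] (hA : ∀ n, MeasurableSet (A n)) (I : Finset ℕ) (d : ℕ)
    (q : ℕ → ℝ) (hI : ∀ S ⊆ I, S.card ≤ d → μ.real (⋂ i ∈ S, A i) = ∏ i ∈ S, q i) :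
    Integrable (LL A I d) μ ∧ ∫ ω, LL A I d ω ∂μ = G q I d := by
  have e : LL A I d = fun ω => ∑ S ∈ I.powerset, cf d S * ∏ i ∈ S, X A i ω := by
    funext ω; exact LL_eq I d ω
  rw [e]
  refine ⟨integrable_finsetSum _ fun S _ => (integrable_prod_X hA S).const_mul _, ?_⟩
  rw [integral_finsetSum _ fun S _ => (integrable_prod_X hA S).const_mul _, G_eq]
  refine Finset.sum_congr rfl fun S hS => ?_
  rw [integral_const_mul, integral_prod_X hA]
  by_cases h : S.card ≤ d
  · rw [hI S (mem_powerset.1 hS) h]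
  · unfold cf
    rw [if_neg h, zero_mul, zero_mul]

theorem prod_X_mul (S T : Finset ℕ) (ω : Ω) :
    (∏ i ∈ S, X A i ω) * ∏ i ∈ T, X A i ω = ∏ i ∈ S ∪ T, X A i ω := by
  classical
  simp_rw [prod_X]
  by_cases h1 : ω ∈ ⋂ i ∈ S, A i
  · by_cases h2 : ω ∈ ⋂ i ∈ T, A i
    · rw [Set.indicator_of_mem h1, Set.indicator_of_mem h2, Set.indicator_of_mem, one_mul]
      rw [Set.mem_iInter₂] at *
      intro i hi
      rcases Finset.mem_union.1 hi with h | h
      · exact h1 i h
      · exact h2 i h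
    · rw [Set.indicator_of_notMem h2, mul_zero, Set.indicator_of_notMem]
      intro h3
      apply h2
      rw [Set.mem_iInter₂] at *
      exact fun i hi => h3 i (Finset.mem_union_right _ hi)
  · rw [Set.indicator_of_notMem h1, zero_mul, Set.indicator_of_notMem]
    intro h3
    apply h1
    rw [Set.mem_iInter₂] at *
    exact fun i hi => h3 i (Finset.mem_union_left _ hi)

theorem LL_mul (I J : Finset ℕ) (d : ℕ) (ω : Ω) :
    LL A I d ω * LL A J d ω = ∑ S ∈ I.powerset, ∑ T ∈ J.powerset, (cf d S * cf d T) *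
      ∏ i ∈ S ∪ T, X A i ω := by
  rw [LL_eq, LL_eq, Finset.sum_mul_sum]
  refine Finset.sum_congr rfl fun S _ => Finset.sum_congr rfl fun T _ => ?_
  rw [← prod_X_mul]
  ring

theorem integral_LL_mul [IsFiniteMeasure μ] (hA : ∀ n, MeasurableSet (A n)) (I J : Finset ℕ) (d : ℕ)
    (q : ℕ → ℝ) (hI : ∀ S ⊆ I ∪ J, S.card ≤ 2 * d → μ.real (⋂ i ∈ S, A i) = ∏ i ∈ S, q i) :
    Integrable (fun ω => LL A I d ω * LL A J d ω) μ ∧
    ∫ ω, LL A I d ω * LL A J d ω ∂μ = ∑ S ∈ I.powerset, ∑ T ∈ J.powerset, (cf d S * cf d T) *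
      ∏ i ∈ S ∪ T, q i := by
  simp_rw [LL_mul]
  have hint : ∀ S T : Finset ℕ, Integrable (fun ω => (cf d S * cf d T) * ∏ i ∈ S ∪ T, X A i ω) μ :=
    fun S T => (integrable_prod_X hA _).const_mul _
  refine ⟨integrable_finsetSum _ fun S _ => integrable_finsetSum _ fun T _ => hint S T, ?_⟩
  rw [integral_finsetSum _ fun S _ => integrable_finsetSum _ fun T _ => hint S T]
  refine Finset.sum_congr rfl fun S hS => ?_
  rw [integral_finsetSum _ fun T _ => hint S T]
  refine Finset.sum_congr rfl fun T hT => ?_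
  rw [integral_const_mul, integral_prod_X hA]
  rw [mem_powerset] at hS hT
  by_cases h : S.card ≤ d ∧ T.card ≤ d
  · rw [hI (S ∪ T) (Finset.union_subset_union hS hT) ((Finset.card_union_le _ _).trans (by omega))]
  · rw [not_and_or] at h
    rcases h with h | h
    · have : cf d S = 0 := by unfold cf; rw [if_neg h]
      rw [this, zero_mul, zero_mul, zero_mul]
    · have : cf d T = 0 := by unfold cf; rw [if_neg h]
      rw [this, mul_zero, zero_mul, zero_mul]

theorem integral_LL_disj [IsFiniteMeasure μ] (hA : ∀ n, MeasurableSet (A n)) (I J : Finset ℕ) (d : ℕ)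
    (q : ℕ → ℝ) (hIJ : Disjoint I J)
    (hI : ∀ S ⊆ I ∪ J, S.card ≤ 2 * d → μ.real (⋂ i ∈ S, A i) = ∏ i ∈ S, q i) :
    ∫ ω, LL A I d ω * LL A J d ω ∂μ = G q I d * G q J d := by
  rw [(integral_LL_mul hA I J d q hI).2, G_eq, G_eq, Finset.sum_mul_sum]
  refine Finset.sum_congr rfl fun S hS => Finset.sum_congr rfl fun T hT => ?_
  rw [mem_powerset] at hS hT
  rw [Finset.prod_union (hIJ.mono hS hT)]
  ring

/-- indicator of a finite set -/
noncomputable def xi (U : Finset ℕ) (i : ℕ) : ℝ := if i ∈ U then 1 else 0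

theorem prod_xi (U S : Finset ℕ) : ∏ i ∈ S, xi U i = if S ⊆ U then 1 else 0 := by
  by_cases h : S ⊆ U
  · rw [if_pos h]
    exact Finset.prod_eq_one fun i hi => if_pos (h hi)
  · rw [if_neg h]
    rw [Finset.not_subset] at h
    obtain ⟨i, hi, hi2⟩ := h
    exact Finset.prod_eq_zero hi (if_neg hi2)

/-- sums of products over unions, as an average over the independent model -/
theorem sum_union_eq (q : ℕ → ℝ) (I : Finset ℕ) (c : Finset ℕ → ℝ) :
    ∑ S ∈ I.powerset, ∑ T ∈ I.powerset, (c S * c T) * ∏ i ∈ S ∪ T, q i =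
      ∑ U ∈ I.powerset, pw q I U * (∑ S ∈ I.powerset, c S * ∏ i ∈ S, xi U i) ^ 2 := by
  classical
  have h1 : ∀ S ∈ I.powerset, ∀ T ∈ I.powerset, (c S * c T) * ∏ i ∈ S ∪ T, q i =
      ∑ U ∈ I.powerset, pw q I U * ((c S * ∏ i ∈ S, xi U i) * (c T * ∏ i ∈ T, xi U i)) := by
    intro S hS T hT
    rw [mem_powerset] at hS hT
    rw [← sum_pw q I (S ∪ T) (Finset.union_subset hS hT), Finset.mul_sum]
    refine Finset.sum_congr rfl fun U _ => ?_
    rw [prod_xi, prod_xi]
    by_cases h : S ∪ T ⊆ U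
    · rw [if_pos h, if_pos (Finset.union_subset_iff.1 h).1, if_pos (Finset.union_subset_iff.1 h).2]
      ring
    · rw [if_neg h, mul_zero]
      rw [Finset.union_subset_iff, not_and_or] at h
      rcases h with h | h
      · rw [if_neg h]; ring
      · rw [if_neg h]; ring
  rw [Finset.sum_congr rfl fun S hS => Finset.sum_congr rfl fun T hT => h1 S hS T hT]
  have h2 : ∀ U, (∑ S ∈ I.powerset, c S * ∏ i ∈ S, xi U i) ^ 2 =
      ∑ S ∈ I.powerset, ∑ T ∈ I.powerset, (c S * ∏ i ∈ S, xi U i) * (c T * ∏ i ∈ T, xi U i) := by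
    intro U
    rw [sq, Finset.sum_mul_sum]
  simp_rw [h2, Finset.mul_sum]
  rw [Finset.sum_congr rfl fun S _ => Finset.sum_comm]
  exact Finset.sum_comm

/-- elementary symmetric sum -/
noncomputable def es (x : ℕ → ℝ) (I : Finset ℕ) (n : ℕ) : ℝ := ∑ S ∈ I.powersetCard n, ∏ i ∈ S, x i

theorem G_succ (x : ℕ → ℝ) (I : Finset ℕ) (d : ℕ) (hd : Odd d) : G x I (d + 1) = G x I d + es x I (d + 1) := by
  have e3 : es x I (d + 1) = ∑ S ∈ I.powerset, if S.card = d + 1 then ∏ b ∈ S, x b else 0 := by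
    unfold es
    rw [Finset.powersetCard_eq_filter, Finset.sum_filter]
  rw [e3]
  unfold G
  rw [← Finset.sum_add_distrib]
  apply Finset.sum_congr rfl
  intro S _
  by_cases h : S.card ≤ d
  · rw [if_pos h, if_pos (by omega), if_neg (by omega), add_zero]
  · by_cases h' : S.card = d + 1
    · rw [if_neg h, if_pos h'.le, if_pos h', h', zero_add]
      have : Even (d + 1) := by
        rw [Nat.even_add_one]; exact Nat.not_even_iff_odd.2 hd
      rw [this.neg_one_pow, one_mul]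
    · rw [if_neg h, if_neg (by omega), if_neg h', zero_add]

/-- Bonferroni -/
theorem G_bounds (x : ℕ → ℝ) (I : Finset ℕ) (d : ℕ) (hd : Odd d) (hx : ∀ b ∈ I, 0 ≤ x b ∧ x b ≤ 1) :
    ∏ b ∈ I, (1 - x b) - es x I (d + 1) ≤ G x I d ∧ G x I d ≤ ∏ b ∈ I, (1 - x b) := by
  refine ⟨?_, (Pool.Agent.W151.KW.Bf.bonf x I hx d).2 hd⟩
  have h1 := (Pool.Agent.W151.KW.Bf.bonf x I hx (d + 1)).1 (by
    rw [Nat.even_add_one]; exact Nat.not_even_iff_odd.2 hd)
  rw [G_succ x I d hd] at h1
  linarith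

theorem xi_mem (U : Finset ℕ) (i : ℕ) : 0 ≤ xi U i ∧ xi U i ≤ 1 := by
  unfold xi
  split_ifs <;> norm_num

theorem prod_one_sub_xi (U I : Finset ℕ) (hU : U ⊆ I) : ∏ b ∈ I, (1 - xi U b) = if U = ∅ then 1 else 0 := by
  by_cases h : U = ∅
  · rw [if_pos h, h]
    exact Finset.prod_eq_one fun i _ => by simp [xi]
  · rw [if_neg h]
    obtain ⟨i, hi⟩ := Finset.nonempty_iff_ne_empty.2 h
    exact Finset.prod_eq_zero (hU hi) (by simp [xi, hi])

/-- second moment of the truncated sum -/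
theorem integral_LL_sq [IsFiniteMeasure μ] (hA : ∀ n, MeasurableSet (A n)) (I : Finset ℕ) (d : ℕ)
    (hd : Odd d) (q : ℕ → ℝ) (hq : ∀ b ∈ I, 0 ≤ q b ∧ q b ≤ 1)
    (hI : ∀ S ⊆ I, S.card ≤ 2 * d → μ.real (⋂ i ∈ S, A i) = ∏ i ∈ S, q i) :
    Integrable (fun ω => LL A I d ω ^ 2) μ ∧
    ∫ ω, LL A I d ω ^ 2 ∂μ ≤ ∏ b ∈ I, (1 - q b) +
      ∑ S ∈ I.powersetCard (d + 1), ∑ T ∈ I.powersetCard (d + 1), ∏ i ∈ S ∪ T, q i := by
  classical
  have h0 := integral_LL_mul hA I I d q (by rw [Finset.union_idempotent]; exact hI)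
  simp_rw [← sq] at h0
  refine ⟨h0.1, ?_⟩
  rw [h0.2, sum_union_eq]
  have h1 : ∀ U ∈ I.powerset, pw q I U * (∑ S ∈ I.powerset, cf d S * ∏ i ∈ S, xi U i) ^ 2 ≤
      (if U = ∅ then pw q I U else 0) + pw q I U *
        (∑ S ∈ I.powerset, (if S.card = d + 1 then (1 : ℝ) else 0) * ∏ i ∈ S, xi U i) ^ 2 := by
    intro U hU
    rw [mem_powerset] at hU
    have hpw := pw_nonneg hU (fun i hi => (hq i hi).1) fun i hi => (hq i hi).2
    have e1 : ∑ S ∈ I.powerset, (if S.card = d + 1 then (1 : ℝ) else 0) * ∏ i ∈ S, xi U i =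
        es (xi U) I (d + 1) := by
      unfold es
      rw [Finset.powersetCard_eq_filter, Finset.sum_filter]
      refine Finset.sum_congr rfl fun S _ => ?_
      rw [ite_mul, one_mul, zero_mul]
    rw [← G_eq, e1]
    obtain ⟨h2, h3⟩ := G_bounds (xi U) I d hd fun b _ => xi_mem U b
    rw [prod_one_sub_xi U I hU] at h2 h3
    by_cases h : U = ∅
    · rw [if_pos h] at h2 h3 ⊢
      have e2 : es (xi U) I (d + 1) = 0 := by
        unfold es
        refine Finset.sum_eq_zero fun S hS => ?_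
        rw [mem_powersetCard] at hS
        rw [prod_xi, if_neg]
        intro h4
        rw [h, Finset.subset_empty] at h4
        rw [h4] at hS
        simp at hS
      rw [e2] at h2 ⊢
      have e3 : G (xi U) I d = 1 := by linarith
      rw [e3]
      linarith
    · rw [if_neg h] at h2 h3 ⊢
      rw [zero_add]
      refine mul_le_mul_of_nonneg_left ?_ hpw
      nlinarith
  refine (Finset.sum_le_sum h1).trans ?_
  rw [Finset.sum_add_distrib]
  have h2 : ∑ U ∈ I.powerset, (if U = ∅ then pw q I U else 0) = ∏ b ∈ I, (1 - q b) := by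
    rw [Finset.sum_ite_eq' I.powerset ∅ (fun U => pw q I U), if_pos (Finset.empty_mem_powerset I)]
    unfold pw
    simp
  rw [h2, ← sum_union_eq]
  apply le_of_eq
  congr 1
  rw [Finset.powersetCard_eq_filter, Finset.sum_filter]
  refine Finset.sum_congr rfl fun S _ => ?_
  by_cases h : S.card = d + 1
  · simp only [if_pos h, Finset.sum_filter, Finset.powersetCard_eq_filter]
    refine Finset.sum_congr rfl fun T _ => ?_
    by_cases h' : T.card = d + 1
    · simp only [if_pos h']; ring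
    · simp only [if_neg h']; ring
  · simp only [if_neg h, zero_mul, Finset.sum_const_zero]

/-- crude bound of the sum over unions -/
theorem sum_union_le (I : Finset ℕ) (n : ℕ) (q : ℕ → ℝ) (hq : ∀ b ∈ I, 0 ≤ q b) :
    ∑ S ∈ I.powersetCard n, ∑ T ∈ I.powersetCard n, ∏ i ∈ S ∪ T, q i ≤
      es q I n * (2 ^ n * Real.exp (∑ i ∈ I, q i)) := by
  classical
  unfold es
  rw [Finset.sum_mul]
  refine Finset.sum_le_sum fun S hS => ?_
  rw [mem_powersetCard] at hS
  have hSn : 0 ≤ ∏ i ∈ S, q i := Finset.prod_nonneg fun i hi => hq i (hS.1 hi)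
  have h1 : ∀ T : Finset ℕ, ∏ i ∈ S ∪ T, q i = (∏ i ∈ S, q i) * ∏ i ∈ T \ S, q i := by
    intro T
    rw [← Finset.prod_union Finset.disjoint_sdiff, Finset.union_sdiff_self_eq_union]
  simp_rw [h1]
  rw [← Finset.mul_sum]
  refine mul_le_mul_of_nonneg_left ?_ hSn
  -- inject `T ↦ (T ∩ S, T \ S)`
  have h2 : ∑ T ∈ I.powersetCard n, ∏ i ∈ T \ S, q i ≤
      ∑ z ∈ S.powerset ×ˢ I.powerset, ∏ i ∈ z.2, q i := by
    have h3 : ∑ T ∈ I.powersetCard n, ∏ i ∈ T \ S, q i =
        ∑ z ∈ (I.powersetCard n).image (fun T => (T ∩ S, T \ S)), ∏ i ∈ z.2, q i := by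
      rw [Finset.sum_image]
      intro T hT T' hT' he
      rw [Prod.mk.injEq] at he
      calc T = (T ∩ S) ∪ (T \ S) := by
            ext i; simp only [mem_union, mem_inter, mem_sdiff]; tauto
        _ = (T' ∩ S) ∪ (T' \ S) := by rw [he.1, he.2]
        _ = T' := by ext i; simp only [mem_union, mem_inter, mem_sdiff]; tauto
    rw [h3]
    refine Finset.sum_le_sum_of_subset_of_nonneg ?_ ?_
    · intro z hz
      rw [mem_image] at hz
      obtain ⟨T, hT, rfl⟩ := hz
      rw [mem_powersetCard] at hT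
      rw [mem_product, mem_powerset, mem_powerset]
      exact ⟨Finset.inter_subset_right, Finset.sdiff_subset.trans hT.1⟩
    · intro z hz _
      rw [mem_product, mem_powerset, mem_powerset] at hz
      exact Finset.prod_nonneg fun i hi => hq i (hz.2 hi)
  refine h2.trans ?_
  rw [Finset.sum_product]
  simp only [Finset.sum_const, card_powerset, hS.2, nsmul_eq_mul]
  push_cast
  refine mul_le_mul_of_nonneg_left ?_ (by positivity)
  have h4 : ∑ T ∈ I.powerset, ∏ i ∈ T, q i = ∏ i ∈ I, (q i + 1) := by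
    rw [Finset.prod_add]
    refine Finset.sum_congr rfl fun T _ => ?_
    simp
  rw [h4, Real.exp_sum]
  exact Finset.prod_le_prod (fun i hi => by linarith [hq i hi]) fun i _ => Real.add_one_le_exp _

/-- second moment method: some interval is empty -/
theorem none_empty [IsProbabilityMeasure μ] (hA : ∀ n, MeasurableSet (A n)) (N : ℕ) (I : ℕ → Finset ℕ)
    (d : ℕ) (hd : Odd d) (q : ℕ → ℝ)
    (hdisj : ∀ i < N, ∀ j < N, i ≠ j → Disjoint (I i) (I j))
    (hI : ∀ i < N, ∀ j < N, ∀ S ⊆ I i ∪ I j, S.card ≤ 2 * d → μ.real (⋂ i ∈ S, A i) = ∏ i ∈ S, q i)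
    (α β : ℝ) (hα : 0 < α) (hN : 0 < N)
    (h1 : ∀ j < N, α ≤ ∫ ω, LL A (I j) d ω ∂μ) (h2 : ∀ j < N, ∫ ω, LL A (I j) d ω ^ 2 ∂μ ≤ β) :
    μ.real (⋂ j ∈ range N, (⋂ i ∈ I j, (A i)ᶜ)ᶜ) ≤ β / (N * α ^ 2) := by
  classical
  have hN0 : (0 : ℝ) < N := by exact_mod_cast hN
  set M : ℕ → ℝ := fun j => ∫ ω, LL A (I j) d ω ∂μ with hM
  set Y : Ω → ℝ := fun ω => ∑ j ∈ range N, LL A (I j) d ω with hY
  have hMj : ∀ j < N, Integrable (LL A (I j) d) μ ∧ M j = G q (I j) d := by
    intro j hj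
    exact integral_LL hA (I j) d q fun S hS hSc => hI j hj j hj S (by rwa [Finset.union_idempotent]) (by omega)
  have hprod : ∀ i < N, ∀ j < N, Integrable (fun ω => LL A (I i) d ω * LL A (I j) d ω) μ :=
    fun i hi j hj => (integral_LL_mul hA (I i) (I j) d q (hI i hi j hj)).1
  have hEM : (N : ℝ) * α ≤ ∑ j ∈ range N, M j := by
    calc (N : ℝ) * α = ∑ _j ∈ range N, α := by rw [Finset.sum_const, card_range, nsmul_eq_mul]
      _ ≤ _ := Finset.sum_le_sum fun j hj => h1 j (mem_range.1 hj)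
  set EM : ℝ := ∑ j ∈ range N, M j with hEMd
  have hYint : Integrable Y μ := integrable_finsetSum _ fun j hj => (hMj j (mem_range.1 hj)).1
  have hYE : ∫ ω, Y ω ∂μ = EM := by
    rw [hY, integral_finsetSum _ fun j hj => (hMj j (mem_range.1 hj)).1]
  have hYsq : ∀ ω, Y ω ^ 2 = ∑ i ∈ range N, ∑ j ∈ range N, LL A (I i) d ω * LL A (I j) d ω := by
    intro ω; rw [sq, hY, Finset.sum_mul_sum]
  have hYsqint : Integrable (fun ω => Y ω ^ 2) μ := by
    simp_rw [hYsq]
    exact integrable_finsetSum _ fun i hi => integrable_finsetSum _ fun j hj =>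
      hprod i (mem_range.1 hi) j (mem_range.1 hj)
  have hYsqE : ∫ ω, Y ω ^ 2 ∂μ ≤ EM ^ 2 + N * β := by
    simp_rw [hYsq]
    rw [integral_finsetSum _ fun i hi => integrable_finsetSum _ fun j hj =>
      hprod i (mem_range.1 hi) j (mem_range.1 hj)]
    have h3 : ∀ i ∈ range N, ∫ ω, ∑ j ∈ range N, LL A (I i) d ω * LL A (I j) d ω ∂μ ≤
        ∑ j ∈ range N, (M i * M j + if i = j then β else 0) := by
      intro i hi
      rw [integral_finsetSum _ fun j hj => hprod i (mem_range.1 hi) j (mem_range.1 hj)]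
      refine Finset.sum_le_sum fun j hj => ?_
      rw [mem_range] at hi hj
      by_cases hij : i = j
      · subst hij
        rw [if_pos rfl]
        have h4 := h2 i hi
        simp_rw [sq] at h4
        nlinarith [mul_self_nonneg (M i)]
      · rw [if_neg hij, add_zero, integral_LL_disj hA (I i) (I j) d q (hdisj i hi j hj hij) (hI i hi j hj),
          (hMj i hi).2, (hMj j hj).2]
    refine (Finset.sum_le_sum h3).trans (le_of_eq ?_)
    simp_rw [Finset.sum_add_distrib]
    congr 1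
    · rw [hEMd, sq, Finset.sum_mul_sum]
    · rw [Finset.sum_congr rfl fun i hi => Finset.sum_ite_eq (range N) i (fun _ => β)]
      rw [Finset.sum_congr rfl fun i hi => if_pos hi, Finset.sum_const, card_range, nsmul_eq_mul]
  have hvar : ∫ ω, (Y ω - EM) ^ 2 ∂μ ≤ N * β := by
    have e : ∀ ω, (Y ω - EM) ^ 2 = Y ω ^ 2 - 2 * EM * Y ω + EM ^ 2 := fun ω => by ring
    simp_rw [e]
    rw [integral_add (f := fun ω => Y ω ^ 2 - 2 * EM * Y ω) (g := fun _ => EM ^ 2)
        (hYsqint.sub (hYint.const_mul _)) (integrable_const _),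
      integral_sub (f := fun ω => Y ω ^ 2) (g := fun ω => 2 * EM * Y ω) hYsqint (hYint.const_mul _),
      integral_const_mul, hYE, integral_const]
    simp only [probReal_univ, smul_eq_mul, one_mul]
    nlinarith
  have hvint : Integrable (fun ω => (Y ω - EM) ^ 2) μ := by
    have e : ∀ ω, (Y ω - EM) ^ 2 = Y ω ^ 2 - 2 * EM * Y ω + EM ^ 2 := fun ω => by ring
    simp_rw [e]
    exact (hYsqint.sub (hYint.const_mul _)).add (integrable_const _)
  set F : Set Ω := ⋂ j ∈ range N, (⋂ i ∈ I j, (A i)ᶜ)ᶜ with hF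
  have hFm : MeasurableSet F := Finset.measurableSet_biInter _ fun j _ =>
    (Finset.measurableSet_biInter _ fun i _ => (hA i).compl).compl
  have hle : ∀ ω, F.indicator (fun _ => ((N : ℝ) * α) ^ 2) ω ≤ (Y ω - EM) ^ 2 := by
    intro ω
    by_cases h : ω ∈ F
    · rw [Set.indicator_of_mem h]
      have h3 : Y ω ≤ 0 := by
        refine Finset.sum_nonpos fun j hj => ?_
        have h4 : ω ∉ ⋂ i ∈ I j, (A i)ᶜ := Set.mem_iInter₂.1 h j hj
        rw [Set.mem_iInter₂] at h4
        push Not at h4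
        obtain ⟨i, hi, hi2⟩ := h4
        have h5 := (G_bounds (fun i => X A i ω) (I j) d hd fun b _ => by
          unfold X
          by_cases hb : ω ∈ A b
          · simp [hb]
          · simp [hb]).2
        refine h5.trans (le_of_eq ?_)
        refine Finset.prod_eq_zero hi ?_
        have h6 : ω ∈ A i := by simpa using hi2
        unfold X
        simp [h6]
      have h7 : 0 < (N : ℝ) * α := by positivity
      nlinarith
    · rw [Set.indicator_of_notMem h]
      positivity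
  have h8 := integral_mono ((integrable_const (((N : ℝ) * α) ^ 2)).indicator hFm) hvint hle
  rw [integral_indicator hFm] at h8
  have h9 : μ.real F * ((N : ℝ) * α) ^ 2 ≤ N * β := by
    refine le_trans (le_of_eq ?_) (h8.trans hvar)
    simp
  rw [le_div_iff₀ (by positivity)]
  have h10 : (μ.real F * (N * α ^ 2)) * N ≤ β * N := by
    calc _ = μ.real F * ((N : ℝ) * α) ^ 2 := by ring
      _ ≤ N * β := h9
      _ = β * N := by ring
  exact le_of_mul_le_mul_right h10 hN0

end Pool.Agent.W151.KW
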