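import Mathlib
import Pool.Agent.H318R2.Cr.Defs

/-! # Random models of the primes whose correlations of bounded order are Cramer's (helper151) -/

set_option autoImplicit false

namespace Pool.Agent.W151.KW

open MeasureTheory

/-- Cramer's random model of level `K`: `A n` is the event that `n` belongs to the random set.  It has
probability `1 / log n`, and any at most `K n` of the events `A i`, `i ≥ n`, are independent. -/
structure IsModel {Ω : Type*} [MeasurableSpace Ω] (μ : Measure Ω) (K : ℕ → ℕ) (A : ℕ → Set Ω) :
    Prop where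
  measurable : ∀ n, MeasurableSet (A n)
  prob : ∀ n, 3 ≤ n → μ (A n) = ENNReal.ofReal (1 / Real.log n)
  indep : ∀ n, ∀ F : Finset ℕ, (∀ i ∈ F, n ≤ i) → F.card ≤ K n →
    μ (⋂ i ∈ F, A i) = ∏ i ∈ F, μ (A i)

end Pool.Agent.W151.KW
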