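import Mathlib
import Pool.Agent.H318R2.Cr.Defs

/-! # Limsup of the gaps, from short intervals meeting the set -/

set_option autoImplicit false

namespace Pool.Agent.W151.KW

open Finset Filter Topology
open Pool.Agent.H318R2.Cr

theorem infinite_of {S : Set ℕ} (H : ℕ → ℕ)
    (ha : ∀ᶠ k : ℕ in atTop, ∀ a : ℕ, 2 ^ k ≤ a → a < 2 ^ (k + 1) → ∃ n ∈ Ioc a (a + H k), n ∈ S) :
    S.Infinite := by
  obtain ⟨k₀, hk₀⟩ := eventually_atTop.1 ha
  rw [Set.infinite_iff_exists_gt]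
  intro N
  obtain ⟨n, hn1, hn2⟩ := hk₀ (max k₀ N) (le_max_left _ _) (2 ^ (max k₀ N)) le_rfl
    (Nat.pow_lt_pow_right (by norm_num) (Nat.lt_succ_self _))
  refine ⟨n, hn2, ?_⟩
  rw [mem_Ioc] at hn1
  have h1 : max k₀ N < 2 ^ (max k₀ N) := Nat.lt_two_pow_self
  have h2 : N ≤ max k₀ N := le_max_right _ _
  omega

/-- short gaps give an upper bound for the limsup -/
theorem limsup_le' {S : Set ℕ} {lam : ℝ} (H : ℕ → ℕ)
    (h1 : ∀ᶠ k : ℕ in atTop, (H k : ℝ) ≤ lam * ((k : ℝ) * Real.log 2) ^ 2)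
    (ha : ∀ᶠ k : ℕ in atTop, ∀ a : ℕ, 2 ^ k ≤ a → a < 2 ^ (k + 1) → ∃ n ∈ Ioc a (a + H k), n ∈ S) :
    cramerLimsup S ≤ (lam : EReal) := by
  classical
  have hS : S.Infinite := infinite_of H ha
  unfold cramerLimsup
  have hinf : (Set.ofPred (fun n : ℕ => n ∈ S)).Infinite := hS
  obtain ⟨k₀, hk₀⟩ := eventually_atTop.1 (h1.and ha)
  apply Filter.limsup_le_of_le
  · exact Filter.isCobounded_le_of_bot
  · refine eventually_atTop.2 ⟨2 ^ (k₀ + 1), fun i hi => ?_⟩
    have h10 : i ≤ Nat.nth (· ∈ S) i := (Nat.nth_strictMono hinf).le_apply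
    set q := Nat.nth (· ∈ S) i with hq
    set q' := Nat.nth (· ∈ S) (i + 1) with hq'
    have hq2 : 2 ^ (k₀ + 1) ≤ q := hi.trans h10
    have hq0 : q ≠ 0 := by
      have : 0 < 2 ^ (k₀ + 1) := by positivity
      omega
    set k := Nat.log 2 q with hk
    have hkk : k₀ + 1 ≤ k := (Nat.le_log_iff_pow_le (by norm_num) hq0).2 hq2
    have hk1 : 2 ^ k ≤ q := Nat.pow_log_le_self 2 hq0
    have hk2 : q < 2 ^ (k + 1) := Nat.lt_pow_succ_log_self (by norm_num) q
    obtain ⟨c1, c3⟩ := hk₀ k (by omega)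
    have key : ∀ s ∈ S, q < s → q' ≤ s := by
      intro s hs hqs
      by_contra hcon
      have := Nat.le_nth_of_lt_nth_succ (p := fun n => n ∈ S) (k := i) (a := s) (by omega) hs
      omega
    have hgap : (q' : ℝ) - q ≤ lam * ((k : ℝ) * Real.log 2) ^ 2 := by
      obtain ⟨s, hs1, hs2⟩ := c3 q hk1 hk2
      rw [mem_Ioc] at hs1
      have h3 := key s hs2 hs1.1
      have h4 : (q' : ℝ) ≤ q + H k := by exact_mod_cast (by omega : q' ≤ q + H k)
      linarith
    have hl2 : (k : ℝ) * Real.log 2 ≤ Real.log q := by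
      have e : (k : ℝ) * Real.log 2 = Real.log ((2 ^ k : ℕ) : ℝ) := by
        push_cast
        rw [Real.log_pow]
      rw [e]
      exact Real.log_le_log (by positivity) (by exact_mod_cast hk1)
    have hkpos : (0 : ℝ) < (k : ℝ) * Real.log 2 := by
      have : (0 : ℝ) < k := by exact_mod_cast (by omega : 0 < k)
      have := Real.log_pos (show (1 : ℝ) < 2 by norm_num)
      positivity
    have hlam : 0 ≤ lam := by
      by_contra hcon
      push Not at hcon
      have h6 : (0 : ℝ) ≤ H k := Nat.cast_nonneg _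
      have h5 : lam * ((k : ℝ) * Real.log 2) ^ 2 < 0 := mul_neg_of_neg_of_pos hcon (by positivity)
      linarith
    have hl0 : 0 < Real.log q := hkpos.trans_le hl2
    rw [EReal.coe_le_coe_iff, div_le_iff₀ (by positivity)]
    calc (q' : ℝ) - q ≤ lam * ((k : ℝ) * Real.log 2) ^ 2 := hgap
      _ ≤ lam * Real.log q ^ 2 := by gcongr

end Pool.Agent.W151.KW
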