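import Mathlib
import Pool.Agent.W151.KW.Defs
import Pool.Agent.W151.KW.ES
import Pool.Agent.W151.KW.Det
import Pool.Agent.W150.SM.Prob

/-! # Upper bound of Cramer's constant in models of level `2 κ log n` -/

set_option autoImplicit false

namespace Pool.Agent.W151.KW

open Finset MeasureTheory Filter Topology
open Pool.Agent.H318R2.Cr

variable {Ω : Type*} [MeasurableSpace Ω] {μ : Measure Ω} {A : ℕ → Set Ω} {K : ℕ → ℕ}

theorem IsModel.real_prob (hM : IsModel μ K A) {n : ℕ} (hn : 3 ≤ n) : μ.real (A n) = 1 / Real.log n := by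
  rw [Measure.real, hM.prob n hn, ENNReal.toReal_ofReal]
  exact div_nonneg zero_le_one (Real.log_natCast_nonneg n)

theorem IsModel.real_inter (hM : IsModel μ K A) {n : ℕ} (hn : 3 ≤ n) (F : Finset ℕ)
    (hF : ∀ i ∈ F, n ≤ i) (hc : F.card ≤ K n) :
    μ.real (⋂ i ∈ F, A i) = ∏ i ∈ F, (1 / Real.log i) := by
  rw [Measure.real, hM.indep n F hF hc, ENNReal.toReal_prod]
  refine Finset.prod_congr rfl fun i hi => ?_
  exact hM.real_prob (hn.trans (hF i hi))

theorem one_lt_log_three : 1 < Real.log 3 := by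
  rw [Real.lt_log_iff_exp_lt (by norm_num)]
  linarith [Real.exp_one_lt_d9]

theorem inv_log_lt_one {n : ℕ} (hn : 3 ≤ n) : 1 / Real.log n < 1 := by
  have h1 : (3 : ℝ) ≤ n := by exact_mod_cast hn
  have h2 := Real.log_le_log (by norm_num) h1
  have h3 := one_lt_log_three
  rw [div_lt_one (by linarith)]
  linarith

theorem log_le_of {n k : ℕ} (hn : 0 < n) (h : n ≤ 2 ^ k) : Real.log n ≤ k * Real.log 2 := by
  have e : (k : ℝ) * Real.log 2 = Real.log ((2 ^ k : ℕ) : ℝ) := by
    push_cast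
    rw [Real.log_pow]
  rw [e]
  exact Real.log_le_log (by exact_mod_cast hn) (by exact_mod_cast h)

theorem le_log_of {n k : ℕ} (h : 2 ^ k ≤ n) : k * Real.log 2 ≤ Real.log n := by
  have e : (k : ℝ) * Real.log 2 = Real.log ((2 ^ k : ℕ) : ℝ) := by
    push_cast
    rw [Real.log_pow]
  rw [e]
  exact Real.log_le_log (by positivity) (by exact_mod_cast h)

/-- the constant of the upper bound -/
noncomputable def Mc (κ : ℝ) : ℝ := min κ 1 * Real.exp (1 / min κ 1 - 1)

theorem Mc_pos {κ : ℝ} (hκ : 0 < κ) : 0 < Mc κ := by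
  unfold Mc
  have : 0 < min κ 1 := lt_min hκ one_pos
  positivity

theorem Mc_of_ge {κ : ℝ} (hκ : 1 ≤ κ) : Mc κ = 1 := by
  unfold Mc
  rw [min_eq_right hκ]
  simp

/-- probability of an empty interval at level `k` -/
theorem emp_interval [IsProbabilityMeasure μ] (hM : IsModel μ K A) (k m H a : ℕ) (y : ℝ) (hk : 2 ≤ k)
    (hm : 1 ≤ m) (hmK : 2 * m ≤ K (2 ^ k)) (hmH : m ≤ H) (hH : H ≤ 2 ^ k) (ha : 2 ^ k ≤ a)
    (ha2 : a < 2 ^ (k + 1)) (hy : 0 < y)
    (hyH : y ≤ ((H : ℝ) + 1 - m) * (1 / (((k + 2 : ℕ) : ℝ) * Real.log 2))) :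
    μ.real (⋂ i ∈ Ioc a (a + H), (A i)ᶜ) ≤
      Real.exp (1 + Real.log m - m * (1 + Real.log y - Real.log m)) := by
  have hl2 := Real.log_pos (show (1 : ℝ) < 2 by norm_num)
  have h4 : 4 ≤ 2 ^ k := by
    calc 4 = 2 ^ 2 := by norm_num
      _ ≤ 2 ^ k := Nat.pow_le_pow_right (by norm_num) hk
  have hcard : (Ioc a (a + H)).card = H := by rw [Nat.card_Ioc]; omega
  refine emp_le hM.measurable (Ioc a (a + H)) (fun i => 1 / Real.log i) m
    (1 / (((k + 2 : ℕ) : ℝ) * Real.log 2)) y hm (by rw [hcard]; exact hmH) (by positivity) ?_ ?_ hy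
    (by rw [hcard]; exact hyH) ?_
  · intro i hi
    rw [mem_Ioc] at hi
    have h1 : i ≤ 2 ^ (k + 2) := by
      have e1 : 2 ^ (k + 1) = 2 * 2 ^ k := by rw [pow_succ]; ring
      have e2 : 2 ^ (k + 2) = 4 * 2 ^ k := by rw [pow_add]; ring
      omega
    have h2 : 3 ≤ i := by omega
    have h3 := log_le_of (by omega : 0 < i) h1
    have h5 : 0 < Real.log i := by
      have : (1 : ℝ) < i := by exact_mod_cast (by omega : 1 < i)
      exact Real.log_pos this
    exact one_div_le_one_div_of_le h5 h3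
  · intro i hi
    rw [mem_Ioc] at hi
    exact inv_log_lt_one (by omega)
  · intro S hS hSc
    refine hM.real_inter (n := 2 ^ k) (by omega) S (fun i hi => ?_) (hSc.trans hmK)
    have := mem_Ioc.1 (hS hi)
    omega

/-- in a model of level `2 κ log n` every long interval of length `(1 + ε) Mc κ log²` meets the set -/
theorem upper_aux [IsProbabilityMeasure μ] (hM : IsModel μ K A) {κ : ℝ} (hκ : 0 < κ)
    (hK : ∀ᶠ n : ℕ in atTop, 2 * κ * Real.log n ≤ K n) {ε : ℝ} (hε : 0 < ε) :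
    ∃ H : ℕ → ℕ, (∀ᶠ k : ℕ in atTop, (H k : ℝ) ≤ (1 + ε) * Mc κ * ((k : ℝ) * Real.log 2) ^ 2) ∧
      ∀ᵐ ω ∂μ, ∀ᶠ k : ℕ in atTop, ∀ a : ℕ, 2 ^ k ≤ a → a < 2 ^ (k + 1) →
        ∃ n ∈ Ioc a (a + H k), ω ∈ A n := by
  have hl2 := Real.log_pos (show (1 : ℝ) < 2 by norm_num)
  set κ' : ℝ := min κ 1 with hκ'
  have hκ'0 : 0 < κ' := lt_min hκ one_pos
  have hκ'1 : κ' ≤ 1 := min_le_right _ _
  have hκ'κ : κ' ≤ κ := min_le_left _ _
  have hMc := Mc_pos hκ
  set lam : ℝ := (1 + ε) * Mc κ with hlam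
  have hlam0 : 0 < lam := by positivity
  set H : ℕ → ℕ := fun k => ⌊lam * ((k : ℝ) * Real.log 2) ^ 2⌋₊ with hH
  refine ⟨H, Eventually.of_forall fun k => Nat.floor_le (by positivity), ?_⟩
  set m : ℕ → ℕ := fun k => ⌊κ' * ((k : ℝ) * Real.log 2)⌋₊ with hm
  set η : ℝ := Real.log (1 + ε / 2) with hη
  have hη0 : 0 < η := Real.log_pos (by linarith)
  -- limits
  have hlin : Tendsto (fun k : ℕ => (k : ℝ) * Real.log 2) atTop atTop :=
    tendsto_natCast_atTop_atTop.atTop_mul_const hl2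
  have hpow : Tendsto (fun k : ℕ => 2 ^ k) atTop (atTop : Filter ℕ) :=
    tendsto_pow_atTop_atTop_of_one_lt (by norm_num)
  have e1 : ∀ᶠ k : ℕ in atTop, 2 * m k ≤ K (2 ^ k) := by
    filter_upwards [hpow.eventually hK] with k hk
    have h1 : (m k : ℝ) ≤ κ' * ((k : ℝ) * Real.log 2) := Nat.floor_le (by positivity)
    have h2 : Real.log ((2 ^ k : ℕ) : ℝ) = k * Real.log 2 := by
      push_cast; rw [Real.log_pow]
    rw [h2] at hk
    have h3 : (2 * m k : ℝ) ≤ K (2 ^ k) := by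
      have : κ' * ((k : ℝ) * Real.log 2) ≤ κ * ((k : ℝ) * Real.log 2) := by gcongr
      linarith
    exact_mod_cast h3
  have e2 : ∀ᶠ k : ℕ in atTop, 1 ≤ m k := by
    have h1 : ∀ᶠ k : ℕ in atTop, 1 / κ' ≤ (k : ℝ) * Real.log 2 := hlin.eventually_ge_atTop _
    filter_upwards [h1] with k hk
    apply Nat.le_floor
    rw [div_le_iff₀ hκ'0] at hk
    push_cast
    linarith
  have e3 : ∀ᶠ k : ℕ in atTop, H k ≤ 2 ^ k := by
    have h1 : Tendsto (fun k : ℕ => (k : ℝ) ^ 2 / 2 ^ k) atTop (𝓝 0) := by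
      have := tendsto_pow_const_div_const_pow_of_one_lt 2 (show (1 : ℝ) < 2 by norm_num)
      exact this
    have h2 : ∀ᶠ k : ℕ in atTop, (k : ℝ) ^ 2 / 2 ^ k < 1 / (lam * Real.log 2 ^ 2) :=
      h1.eventually (gt_mem_nhds (by positivity))
    filter_upwards [h2] with k hk
    rw [div_lt_div_iff₀ (by positivity) (by positivity)] at hk
    have h3 : lam * ((k : ℝ) * Real.log 2) ^ 2 ≤ ((2 ^ k : ℕ) : ℝ) := by
      push_cast
      nlinarith
    exact Nat.floor_le_of_le h3
  have e4 : ∀ᶠ k : ℕ in atTop, (1 + ε / 2) * Mc κ * ((k : ℝ) * Real.log 2) ≤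
      ((H k : ℝ) + 1 - m k) * (1 / (((k + 2 : ℕ) : ℝ) * Real.log 2)) ∧ m k ≤ H k := by
    have hk0 : ∀ᶠ k : ℕ in atTop, (2 * (1 + ε / 2) * Mc κ * Real.log 2 + 1) / (ε / 2 * Mc κ) ≤
        (k : ℝ) * Real.log 2 := hlin.eventually_ge_atTop _
    filter_upwards [hk0, eventually_ge_atTop 1] with k hk hk1
    have hk1' : (1 : ℝ) ≤ k := by exact_mod_cast hk1
    set L : ℝ := (k : ℝ) * Real.log 2 with hL
    have hL0 : 0 < L := by positivity
    have h1 : lam * L ^ 2 - 1 < H k := by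
      have := Nat.lt_floor_add_one (lam * L ^ 2)
      simp only [hH, ← hL]
      linarith
    have h2 : (m k : ℝ) ≤ κ' * L := Nat.floor_le (by positivity)
    have h3 : (((k + 2 : ℕ) : ℝ) * Real.log 2) = L + 2 * Real.log 2 := by
      rw [hL]; push_cast; ring
    rw [div_le_iff₀ (by positivity)] at hk
    have h6 : κ' * L ≤ 1 * L := mul_le_mul_of_nonneg_right hκ'1 hL0.le
    have h7 : ((1 + ε / 2) * Mc κ * L) * (L + 2 * Real.log 2) ≤ lam * L ^ 2 - L := by
      rw [hlam]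
      have h8 : (2 * (1 + ε / 2) * Mc κ * Real.log 2 + 1) * L ≤ (L * (ε / 2 * Mc κ)) * L :=
        mul_le_mul_of_nonneg_right hk hL0.le
      nlinarith
    constructor
    · rw [h3, mul_one_div, le_div_iff₀ (by positivity)]
      linarith
    · have h9 : (m k : ℝ) ≤ H k := by
        have h10 : 0 ≤ ((1 + ε / 2) * Mc κ * L) * (L + 2 * Real.log 2) := by positivity
        have h11 : (m k : ℝ) < H k + 1 := by linarith
        have h12 : m k < H k + 1 := by exact_mod_cast h11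
        exact_mod_cast Nat.lt_succ_iff.1 h12
      exact_mod_cast h9
  -- the bad events
  set E : ℕ → Set Ω := fun k => ⋃ a ∈ Finset.Ico (2 ^ k) (2 ^ (k + 1)), ⋂ i ∈ Ioc a (a + H k), (A i)ᶜ with hE
  set C : ℝ := Real.exp (1 + 1 / κ' + η) with hC
  set r : ℝ := Real.exp (-(κ' * η * Real.log 2)) with hr
  have hr0 : 0 < r := Real.exp_pos _
  have hr1 : r < 1 := by
    rw [hr]
    have h0 : 0 < κ' * η * Real.log 2 := by positivity
    rw [Real.exp_lt_one_iff]
    linarith
  have hsum : Summable (fun k : ℕ => C * ((k : ℝ) ^ 1 * r ^ k)) := by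
    apply Summable.mul_left
    exact summable_pow_mul_geometric_of_norm_lt_one 1 (by rw [Real.norm_of_nonneg hr0.le]; exact hr1)
  have hbound : ∀ᶠ k : ℕ in atTop, μ.real (E k) ≤ C * ((k : ℝ) ^ 1 * r ^ k) := by
    filter_upwards [e1, e2, e3, e4, eventually_ge_atTop 2] with k h1 h2 h3 h4 h5
    set L : ℝ := (k : ℝ) * Real.log 2 with hL
    have hk2 : (2 : ℝ) ≤ k := by exact_mod_cast h5
    have hL0 : 0 < L := by positivity
    have hone : ∀ a ∈ Finset.Ico (2 ^ k) (2 ^ (k + 1)), μ.real (⋂ i ∈ Ioc a (a + H k), (A i)ᶜ) ≤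
        C * k * r ^ k / 2 ^ k := by
      intro a ha
      rw [Finset.mem_Ico] at ha
      refine (emp_interval hM k (m k) (H k) a ((1 + ε / 2) * Mc κ * L) h5 h2 h1 h4.2 h3 ha.1 ha.2
        (by positivity) h4.1).trans ?_
      have hm0 : (0 : ℝ) < m k := by exact_mod_cast h2
      have hmle : (m k : ℝ) ≤ κ' * L := Nat.floor_le (by positivity)
      have hmge : κ' * L - 1 < m k := by
        have := Nat.lt_floor_add_one (κ' * L)
        simp only [hm, ← hL]
        linarith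
      have hlogm : Real.log (m k) ≤ Real.log κ' + Real.log L := by
        rw [← Real.log_mul hκ'0.ne' hL0.ne']
        exact Real.log_le_log hm0 hmle
      have hlogy : Real.log ((1 + ε / 2) * Mc κ * L) = η + (Real.log κ' + (1 / κ' - 1)) + Real.log L := by
        unfold Mc
        rw [← hκ', Real.log_mul (by positivity) hL0.ne', Real.log_mul (by positivity) (by positivity),
          Real.log_mul hκ'0.ne' (Real.exp_pos _).ne', Real.log_exp]
      have hlogmk : Real.log (m k) ≤ Real.log k := by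
        apply Real.log_le_log hm0
        refine hmle.trans ?_
        rw [hL]
        have hl21 : Real.log 2 ≤ 1 := by
          have := Real.log_two_lt_d9; linarith
        calc κ' * ((k : ℝ) * Real.log 2) ≤ 1 * ((k : ℝ) * 1) := by gcongr
          _ = k := by ring
      have hfac : 1 / κ' + η ≤ 1 + Real.log ((1 + ε / 2) * Mc κ * L) - Real.log (m k) := by
        rw [hlogy]; linarith
      have hfac0 : 0 ≤ 1 / κ' + η := by positivity
      have h6 : (κ' * L - 1) * (1 / κ' + η) ≤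
          m k * (1 + Real.log ((1 + ε / 2) * Mc κ * L) - Real.log (m k)) := by
        calc (κ' * L - 1) * (1 / κ' + η) ≤ m k * (1 / κ' + η) :=
              mul_le_mul_of_nonneg_right hmge.le hfac0
          _ ≤ _ := mul_le_mul_of_nonneg_left hfac hm0.le
      have h7 : (κ' * L - 1) * (1 / κ' + η) = L + κ' * η * L - 1 / κ' - η := by
        field_simp
        ring
      have h8 : C * k * r ^ k / 2 ^ k = Real.exp (1 + 1 / κ' + η + Real.log k - κ' * η * L - L) := by
        have hr' : r ^ k = Real.exp (-(κ' * η * L)) := by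
          rw [hr, ← Real.exp_nat_mul]
          congr 1
          rw [hL]; ring
        have h2' : (2 : ℝ) ^ k = Real.exp L := by
          rw [hL, mul_comm, Real.exp_mul, Real.exp_log (by norm_num), Real.rpow_natCast]
        have h9 : 1 + 1 / κ' + η + Real.log k - κ' * η * L - L =
            (1 + 1 / κ' + η) + Real.log k + (-(κ' * η * L)) + (-L) := by ring
        have h10 : Real.exp ((1 + 1 / κ' + η) + Real.log k + (-(κ' * η * L)) + (-L)) =
            C * k * Real.exp (-(κ' * η * L)) / Real.exp L := by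
          rw [Real.exp_add ((1 + 1 / κ' + η) + Real.log k + (-(κ' * η * L))) (-L),
            Real.exp_add ((1 + 1 / κ' + η) + Real.log k) (-(κ' * η * L)),
            Real.exp_add (1 + 1 / κ' + η) (Real.log k), Real.exp_log (by positivity : (0 : ℝ) < k),
            Real.exp_neg L]
          exact (div_eq_mul_inv _ _).symm
        rw [hr', h2', h9, h10]
      rw [h8]
      apply Real.exp_le_exp.2
      rw [h7] at h6
      linarith
    calc μ.real (E k) ≤ ∑ a ∈ Finset.Ico (2 ^ k) (2 ^ (k + 1)), μ.real (⋂ i ∈ Ioc a (a + H k), (A i)ᶜ) :=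
          measureReal_biUnion_finset_le _ _
      _ ≤ ∑ _a ∈ Finset.Ico (2 ^ k) (2 ^ (k + 1)), C * k * r ^ k / 2 ^ k := Finset.sum_le_sum hone
      _ = C * ((k : ℝ) ^ 1 * r ^ k) := by
          rw [Finset.sum_const, Nat.card_Ico, nsmul_eq_mul]
          have : ((2 ^ (k + 1) - 2 ^ k : ℕ) : ℝ) = 2 ^ k := by
            rw [Nat.cast_sub (Nat.pow_le_pow_right (by norm_num) (by omega))]
            push_cast
            ring
          rw [this]
          field_simp
  filter_upwards [Pool.Agent.W150.SM.bc hsum hbound] with ω hω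
  filter_upwards [hω] with k hk a ha1 ha2
  by_contra hcon
  push Not at hcon
  apply hk
  simp only [hE, Set.mem_iUnion, Set.mem_iInter, exists_prop]
  exact ⟨a, Finset.mem_Ico.2 ⟨ha1, ha2⟩, fun i hi => hcon i hi⟩

theorem upper [IsProbabilityMeasure μ] (hM : IsModel μ K A) {κ : ℝ} (hκ : 0 < κ)
    (hK : ∀ᶠ n : ℕ in atTop, 2 * κ * Real.log n ≤ K n) :
    ∀ᵐ ω ∂μ, {n | ω ∈ A n}.Infinite ∧ cramerLimsup {n | ω ∈ A n} ≤ ((Mc κ : ℝ) : EReal) := by
  have h1 : ∀ᵐ ω ∂μ, ∀ j : ℕ, {n | ω ∈ A n}.Infinite ∧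
      cramerLimsup {n | ω ∈ A n} ≤ (((1 + 1 / ((j : ℝ) + 1)) * Mc κ : ℝ) : EReal) := by
    rw [ae_all_iff]
    intro j
    obtain ⟨H, hH, h⟩ := upper_aux hM hκ hK (ε := 1 / ((j : ℝ) + 1)) (by positivity)
    filter_upwards [h] with ω hω
    exact ⟨infinite_of H hω, limsup_le' H hH hω⟩
  filter_upwards [h1] with ω hω
  refine ⟨(hω 0).1, ?_⟩
  have h5 : Tendsto (fun n : ℕ => (1 + 1 / ((n : ℝ) + 1)) * Mc κ) atTop (𝓝 ((1 + 0) * Mc κ)) :=
    (tendsto_const_nhds.add tendsto_one_div_add_atTop_nhds_zero_nat).mul_const _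
  rw [add_zero, one_mul] at h5
  exact ge_of_tendsto' ((continuous_coe_real_ereal.tendsto (Mc κ)).comp h5) fun j => (hω j).2

end Pool.Agent.W151.KW
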