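import Mathlib
import Pool.Agent.W151.KW.Up
import Pool.Agent.W151.KW.Low1
import Pool.Agent.W150.SM.Det

/-! # Lower bound of Cramer's constant in models of level `2 κ log n` -/

set_option autoImplicit false

namespace Pool.Agent.W151.KW

open Finset MeasureTheory Filter Topology
open Pool.Agent.H318R2.Cr

variable {Ω : Type*} [MeasurableSpace Ω] {μ : Measure Ω} {A : ℕ → Set Ω} {K : ℕ → ℕ}

theorem exp_le_one_sub {x : ℝ} (h0 : 0 ≤ x) (h1 : x ≤ 1 / 2) : Real.exp (-(x + 2 * x ^ 2)) ≤ 1 - x := by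
  have h2 : 0 < 1 - x := by linarith
  rw [← Real.le_log_iff_exp_le h2]
  have h3 := Real.one_sub_inv_le_log_of_pos h2
  have h4 : -(x + 2 * x ^ 2) ≤ 1 - (1 - x)⁻¹ := by
    have h5 : (1 - x)⁻¹ ≤ 1 + x + 2 * x ^ 2 := by
      rw [inv_le_iff_one_le_mul₀ h2]
      nlinarith [mul_nonneg h0 h0, mul_nonneg (mul_nonneg h0 h0) (by linarith : (0 : ℝ) ≤ 1 / 2 - x)]
    linarith
  linarith

theorem prod_one_sub_le (I : Finset ℕ) (q : ℕ → ℝ) (hq : ∀ i ∈ I, q i ≤ 1) :
    ∏ i ∈ I, (1 - q i) ≤ Real.exp (-∑ i ∈ I, q i) := by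
  rw [← Finset.sum_neg_distrib, Real.exp_sum]
  refine Finset.prod_le_prod (fun i hi => by linarith [hq i hi]) fun i _ => ?_
  have := Real.add_one_le_exp (-(q i))
  linarith

theorem le_prod_one_sub (I : Finset ℕ) (q : ℕ → ℝ) (p : ℝ) (hq : ∀ i ∈ I, 0 ≤ q i ∧ q i ≤ p)
    (hp : p ≤ 1 / 2) : Real.exp (-(I.card * (p + 2 * p ^ 2))) ≤ ∏ i ∈ I, (1 - q i) := by
  have h1 : Real.exp (-(I.card * (p + 2 * p ^ 2))) = ∏ _i ∈ I, Real.exp (-(p + 2 * p ^ 2)) := by
    rw [Finset.prod_const, ← Real.exp_nat_mul]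
    congr 1; ring
  rw [h1]
  refine Finset.prod_le_prod (fun _ _ => (Real.exp_pos _).le) fun i hi => ?_
  obtain ⟨h2, h3⟩ := hq i hi
  have hp0 : 0 ≤ p := h2.trans h3
  exact (exp_le_one_sub hp0 hp).trans (by linarith)

theorem es_le (I : Finset ℕ) (q : ℕ → ℝ) (n : ℕ) (M : ℝ) (hq : ∀ i ∈ I, 0 ≤ q i) (hM : 0 < M)
    (hs : ∑ i ∈ I, q i ≤ M) (hn : 8 * M ≤ n) : es q I n ≤ Real.exp (n * (1 - 3 * Real.log 2)) := by
  have hn0 : (0 : ℝ) < n := by linarith
  have h1 : es q I n ≤ (∑ i ∈ I, q i) ^ n / n.factorial := Pool.Agent.W151.KW.Bf.esymm_le q I hq n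
  have h2 : (0 : ℝ) < n.factorial := by exact_mod_cast n.factorial_pos
  have hs0 : 0 ≤ ∑ i ∈ I, q i := Finset.sum_nonneg hq
  have h3 : (∑ i ∈ I, q i) ^ n / n.factorial ≤ M ^ n / n.factorial := by gcongr
  refine (h1.trans h3).trans ?_
  rw [← Real.exp_log (show 0 < M ^ n / (n.factorial : ℝ) by positivity)]
  apply Real.exp_le_exp.2
  rw [Real.log_div (by positivity) h2.ne', Real.log_pow]
  have h4 := le_log_fact n
  have h5 : Real.log M + 3 * Real.log 2 ≤ Real.log n := by
    have e : Real.log M + 3 * Real.log 2 = Real.log (8 * M) := by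
      rw [Real.log_mul (by norm_num) hM.ne', show (8 : ℝ) = 2 ^ 3 by norm_num, Real.log_pow]
      push_cast; ring
    rw [e]
    exact Real.log_le_log (by positivity) hn
  nlinarith

theorem lower_aux [IsProbabilityMeasure μ] (hM : IsModel μ K A) {κ lam : ℝ} (hlam : 0 < lam)
    (hlam1 : lam < 1) (hlamκ : lam < κ / 8)
    (hK : ∀ᶠ n : ℕ in atTop, 2 * κ * Real.log n ≤ K n) :
    ∀ᵐ ω ∂μ, ∀ᶠ k : ℕ in atTop, ∃ a H : ℕ, 2 ^ k ≤ a ∧ a ≤ 2 ^ (k + 1) ∧
      lam * (((k : ℝ) + 1) * Real.log 2) ^ 2 ≤ H ∧ ∀ n ∈ Ioc a (a + H), ω ∉ A n := by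
  have hl2 := Real.log_pos (show (1 : ℝ) < 2 by norm_num)
  have hl2u := Real.log_two_lt_d9
  have hl2l := Real.log_two_gt_d9
  obtain ⟨δ, hδ0, hδ1, hδ2⟩ : ∃ δ : ℝ, 0 < δ ∧ lam + 2 * δ < 1 ∧ lam + δ < κ / 8 := by
    refine ⟨min ((1 - lam) / 4) ((κ / 8 - lam) / 2), lt_min (by linarith) (by linarith), ?_, ?_⟩
    · have := min_le_left ((1 - lam) / 4) ((κ / 8 - lam) / 2)
      linarith
    · have := min_le_right ((1 - lam) / 4) ((κ / 8 - lam) / 2)
      linarith
  set lam' : ℝ := lam + δ with hlam'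
  have hlam'0 : 0 < lam' := by positivity
  set ρ : ℝ := 1 - (lam + 2 * δ) with hρ
  have hρ0 : 0 < ρ := by linarith
  set H : ℕ → ℕ := fun k => ⌈lam * (((k : ℝ) + 1) * Real.log 2) ^ 2⌉₊ with hH
  set N : ℕ → ℕ := fun k => 2 ^ k / H k with hN
  set d : ℕ → ℕ := fun k => 2 * ⌊4 * lam' * ((k : ℝ) * Real.log 2)⌋₊ + 1 with hd
  set I : ℕ → ℕ → Finset ℕ := fun k j => Ioc (2 ^ k + j * H k) (2 ^ k + j * H k + H k) with hI
  have hlin : Tendsto (fun k : ℕ => (k : ℝ) * Real.log 2) atTop atTop :=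
    tendsto_natCast_atTop_atTop.atTop_mul_const hl2
  have hpow : Tendsto (fun k : ℕ => 2 ^ k) atTop (atTop : Filter ℕ) :=
    tendsto_pow_atTop_atTop_of_one_lt (by norm_num)
  have hHpos : ∀ k : ℕ, 0 < H k := by
    intro k
    apply Nat.ceil_pos.2
    positivity
  have hHge : ∀ k : ℕ, lam * (((k : ℝ) + 1) * Real.log 2) ^ 2 ≤ H k := fun k => Nat.le_ceil _
  -- parameters
  have e1 : ∀ᶠ k : ℕ in atTop, 2 * d k ≤ K (2 ^ k) := by
    have h0 : ∀ᶠ k : ℕ in atTop, 2 / (2 * κ - 16 * lam') ≤ (k : ℝ) * Real.log 2 := hlin.eventually_ge_atTop _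
    filter_upwards [hpow.eventually hK, h0] with k hk hk0
    have hκlam : 0 < 2 * κ - 16 * lam' := by linarith
    rw [div_le_iff₀ hκlam] at hk0
    have h1 : ((⌊4 * lam' * ((k : ℝ) * Real.log 2)⌋₊ : ℕ) : ℝ) ≤ 4 * lam' * ((k : ℝ) * Real.log 2) :=
      Nat.floor_le (by positivity)
    have h2 : Real.log ((2 ^ k : ℕ) : ℝ) = k * Real.log 2 := by
      push_cast; rw [Real.log_pow]
    rw [h2] at hk
    have h3 : ((2 * d k : ℕ) : ℝ) ≤ K (2 ^ k) := by
      simp only [hd]
      push_cast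
      nlinarith
    exact_mod_cast h3
  have e2 : ∀ᶠ k : ℕ in atTop, (H k : ℝ) ≤ lam' * ((k : ℝ) * Real.log 2) ^ 2 := by
    have h0 : ∀ᶠ k : ℕ in atTop, (4 * lam + 2) / δ ≤ (k : ℝ) * Real.log 2 := hlin.eventually_ge_atTop _
    filter_upwards [h0, eventually_ge_atTop 2] with k hk hk1
    have hk1' : (2 : ℝ) ≤ k := by exact_mod_cast hk1
    set L : ℝ := (k : ℝ) * Real.log 2 with hL
    rw [div_le_iff₀ hδ0] at hk
    have hL1 : 1 ≤ L := by nlinarith
    have h1 : (H k : ℝ) < lam * (((k : ℝ) + 1) * Real.log 2) ^ 2 + 1 := Nat.ceil_lt_add_one (by positivity)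
    have h2 : ((k : ℝ) + 1) * Real.log 2 = L + Real.log 2 := by rw [hL]; ring
    rw [h2] at h1
    have h3 : lam * (L + Real.log 2) ^ 2 ≤ lam * (L ^ 2 + 3 * L) := by
      refine mul_le_mul_of_nonneg_left ?_ hlam.le
      nlinarith
    have h4 : (4 * lam + 2) * L ≤ (L * δ) * L := mul_le_mul_of_nonneg_right hk (by linarith)
    rw [hlam']
    nlinarith
  have e3 : ∀ᶠ k : ℕ in atTop, (2 : ℝ) ^ k / (2 * H k) ≤ N k ∧ 0 < N k := by
    have h1 : Tendsto (fun k : ℕ => (k : ℝ) ^ 2 / 2 ^ k) atTop (𝓝 0) :=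
      tendsto_pow_const_div_const_pow_of_one_lt 2 (show (1 : ℝ) < 2 by norm_num)
    have h2 : ∀ᶠ k : ℕ in atTop, (k : ℝ) ^ 2 / 2 ^ k < 1 / (2 * lam') :=
      h1.eventually (gt_mem_nhds (by positivity))
    filter_upwards [h2, e2] with k hk hk2
    rw [div_lt_div_iff₀ (by positivity) (by positivity)] at hk
    have h3 : (2 * H k : ℝ) ≤ 2 ^ k := by
      have : lam' * ((k : ℝ) * Real.log 2) ^ 2 ≤ lam' * (k : ℝ) ^ 2 := by
        refine mul_le_mul_of_nonneg_left ?_ hlam'0.le
        have : (k : ℝ) * Real.log 2 ≤ k := by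
          have : (0 : ℝ) ≤ k := Nat.cast_nonneg k
          nlinarith
        exact pow_le_pow_left₀ (by positivity) this 2
      linarith
    have hH0 : (0 : ℝ) < H k := by exact_mod_cast hHpos k
    have h4 : (2 : ℝ) ^ k / H k < N k + 1 := by
      have h5 : 2 ^ k < H k * (N k + 1) := by
        simp only [hN]
        exact Nat.lt_mul_div_succ _ (hHpos k)
      have h6 : (2 : ℝ) ^ k < H k * (N k + 1) := by exact_mod_cast h5
      rw [div_lt_iff₀ hH0]
      linarith
    have h7 : 2 ≤ (2 : ℝ) ^ k / H k := by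
      rw [le_div_iff₀ hH0]
      linarith
    have h8 : (2 : ℝ) ^ k / (2 * H k) = ((2 : ℝ) ^ k / H k) / 2 := by
      rw [div_div, mul_comm (H k : ℝ) 2]
    constructor
    · rw [h8]
      linarith
    · have : (0 : ℝ) < N k := by linarith
      exact_mod_cast this
  -- the bad events
  set E : ℕ → Set Ω := fun k => ⋂ j ∈ range (N k), (⋂ i ∈ I k j, (A i)ᶜ)ᶜ with hE
  set C : ℝ := 16 * Real.exp 4 with hC
  set r : ℝ := Real.exp (-(ρ * Real.log 2)) with hr
  have hr0 : 0 < r := Real.exp_pos _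
  have hr1 : r < 1 := by
    have h0 : 0 < ρ * Real.log 2 := by positivity
    rw [hr, Real.exp_lt_one_iff]
    linarith
  have hsum : Summable (fun k : ℕ => C * ((k : ℝ) ^ 2 * r ^ k)) := by
    apply Summable.mul_left
    exact summable_pow_mul_geometric_of_norm_lt_one 2 (by rw [Real.norm_of_nonneg hr0.le]; exact hr1)
  have hbound : ∀ᶠ k : ℕ in atTop, μ.real (E k) ≤ C * ((k : ℝ) ^ 2 * r ^ k) := by
    have h0 : ∀ᶠ k : ℕ in atTop, (3 + 1 / lam') ≤ (k : ℝ) * Real.log 2 := hlin.eventually_ge_atTop _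
    filter_upwards [e1, e2, e3, h0, eventually_ge_atTop 3] with k h1 h2 h3 h4 h5
    set L : ℝ := (k : ℝ) * Real.log 2 with hL
    have hk3 : (3 : ℝ) ≤ k := by exact_mod_cast h5
    have hL3 : 3 ≤ L := by
      have : 0 < 1 / lam' := by positivity
      linarith
    have hL0 : 0 < L := by linarith
    have hlamL : 1 ≤ lam' * L := by
      have : 1 / lam' ≤ L := by linarith
      rw [div_le_iff₀ hlam'0] at this
      linarith
    have h8 : 8 ≤ 2 ^ k := by
      calc 8 = 2 ^ 3 := by norm_num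
        _ ≤ 2 ^ k := Nat.pow_le_pow_right (by norm_num) h5
    set q : ℕ → ℝ := fun i => 1 / Real.log i with hq
    have hH0 : (0 : ℝ) < H k := by exact_mod_cast hHpos k
    have hHN : ∀ j < N k, (j + 1) * H k ≤ 2 ^ k := by
      intro j hj
      calc (j + 1) * H k ≤ N k * H k := Nat.mul_le_mul_right _ hj
        _ ≤ 2 ^ k := Nat.div_mul_le_self _ _
    have hrange : ∀ j < N k, ∀ i ∈ I k j, 2 ^ k < i ∧ i ≤ 2 ^ (k + 1) := by
      intro j hj i hi
      simp only [hI, mem_Ioc] at hi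
      have h9 := hHN j hj
      have h10 : (j + 1) * H k = j * H k + H k := by ring
      have h11 : 2 ^ (k + 1) = 2 ^ k + 2 ^ k := by rw [pow_succ]; ring
      omega
    have hqi : ∀ j < N k, ∀ i ∈ I k j, 1 / (((k : ℝ) + 1) * Real.log 2) ≤ q i ∧ q i ≤ 1 / L := by
      intro j hj i hi
      obtain ⟨h9, h10⟩ := hrange j hj i hi
      have h11 := log_le_of (by omega : 0 < i) h10
      have h12 := le_log_of h9.le
      push_cast at h11
      exact ⟨one_div_le_one_div_of_le (by linarith) h11, one_div_le_one_div_of_le hL0 h12⟩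
    have hq01 : ∀ j < N k, ∀ i ∈ I k j, 0 ≤ q i ∧ q i ≤ 1 := by
      intro j hj i hi
      obtain ⟨h9, h10⟩ := hqi j hj i hi
      refine ⟨le_trans (by positivity) h9, h10.trans ?_⟩
      rw [div_le_one hL0]; linarith
    have hcard : ∀ j, (I k j).card = H k := by
      intro j; simp only [hI, Nat.card_Ioc]; omega
    have hdodd : Odd (d k) := ⟨_, rfl⟩
    have hdn : 8 * (lam' * L) ≤ ((d k + 1 : ℕ) : ℝ) := by
      have := Nat.lt_floor_add_one (4 * lam' * L)
      simp only [hd]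
      push_cast
      rw [← hL]
      linarith
    have hsumle : ∀ j < N k, ∑ i ∈ I k j, q i ≤ lam' * L := by
      intro j hj
      calc ∑ i ∈ I k j, q i ≤ ∑ _i ∈ I k j, 1 / L := Finset.sum_le_sum fun i hi => (hqi j hj i hi).2
        _ = H k / L := by rw [Finset.sum_const, hcard, nsmul_eq_mul]; ring
        _ ≤ lam' * L := by
            rw [div_le_iff₀ hL0]
            calc (H k : ℝ) ≤ lam' * L ^ 2 := h2
              _ = lam' * L * L := by ring
    have hsumge : ∀ j < N k, lam * L ≤ ∑ i ∈ I k j, q i := by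
      intro j hj
      have hk1 : 0 < ((k : ℝ) + 1) * Real.log 2 := by positivity
      calc lam * L ≤ lam * (((k : ℝ) + 1) * Real.log 2) := by
            refine mul_le_mul_of_nonneg_left ?_ hlam.le
            rw [hL]; nlinarith
        _ ≤ H k * (1 / (((k : ℝ) + 1) * Real.log 2)) := by
            rw [mul_one_div, le_div_iff₀ hk1]
            have := hHge k
            nlinarith
        _ = ∑ _i ∈ I k j, 1 / (((k : ℝ) + 1) * Real.log 2) := by
            rw [Finset.sum_const, hcard, nsmul_eq_mul]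
        _ ≤ _ := Finset.sum_le_sum fun i hi => (hqi j hj i hi).1
    have hes : ∀ j < N k, es q (I k j) (d k + 1) ≤
        Real.exp (((d k + 1 : ℕ) : ℝ) * (1 - 3 * Real.log 2)) := by
      intro j hj
      exact es_le (I k j) q (d k + 1) (lam' * L) (fun i hi => (hq01 j hj i hi).1) (by positivity)
        (hsumle j hj) hdn
    set α : ℝ := Real.exp (-(lam' * L + 2)) / 2 with hα
    set β : ℝ := 2 * Real.exp (-(lam * L)) with hβ
    have hform : ∀ i < N k, ∀ j < N k, ∀ S ⊆ I k i ∪ I k j, S.card ≤ 2 * d k →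
        μ.real (⋂ i ∈ S, A i) = ∏ i ∈ S, q i := by
      intro i hi j hj S hS hSc
      refine hM.real_inter (n := 2 ^ k) (by omega) S (fun x hx => ?_) (hSc.trans h1)
      rcases Finset.mem_union.1 (hS hx) with h | h
      · exact (hrange i hi x h).1.le
      · exact (hrange j hj x h).1.le
    have hlow : ∀ j < N k, α ≤ ∫ ω, LL A (I k j) (d k) ω ∂μ := by
      intro j hj
      rw [(integral_LL hM.measurable (I k j) (d k) q fun S hS hSc =>
        hform j hj j hj S (by rwa [Finset.union_idempotent]) (by omega)).2]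
      refine le_trans ?_ (G_bounds q (I k j) (d k) hdodd (hq01 j hj)).1
      have h9 : Real.exp (-(lam' * L + 2)) ≤ ∏ b ∈ I k j, (1 - q b) := by
        refine le_trans (Real.exp_le_exp.2 ?_) (le_prod_one_sub (I k j) q (1 / L)
          (fun i hi => ⟨(hq01 j hj i hi).1, (hqi j hj i hi).2⟩)
          (one_div_le_one_div_of_le (by norm_num) (by linarith)))
        rw [hcard]
        have h10 : (H k : ℝ) * (1 / L + 2 * (1 / L) ^ 2) = (H k / L ^ 2) * (L + 2) := by
          field_simp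
        have h11 : (H k : ℝ) / L ^ 2 ≤ lam' := by
          rw [div_le_iff₀ (by positivity)]; exact h2
        have h12 : lam' ≤ 1 := by
          rw [hlam']; linarith
        have h13 : 0 ≤ (H k : ℝ) / L ^ 2 := by positivity
        rw [h10]
        nlinarith
      have h14 := hes j hj
      have h15 : Real.exp (((d k + 1 : ℕ) : ℝ) * (1 - 3 * Real.log 2)) ≤ Real.exp (-(lam' * L + 2)) / 2 := by
        have h16 : Real.exp (-(lam' * L + 2)) / 2 = Real.exp (-(lam' * L + 2) - Real.log 2) := by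
          rw [Real.exp_sub, Real.exp_log (by norm_num)]
        rw [h16]
        apply Real.exp_le_exp.2
        have h17 : ((d k + 1 : ℕ) : ℝ) * (1 - 3 * Real.log 2) ≤ (8 * (lam' * L)) * (1 - 3 * Real.log 2) :=
          mul_le_mul_of_nonpos_right hdn (by linarith)
        nlinarith
      rw [hα]
      linarith
    have hup : ∀ j < N k, ∫ ω, LL A (I k j) (d k) ω ^ 2 ∂μ ≤ β := by
      intro j hj
      refine (integral_LL_sq hM.measurable (I k j) (d k) hdodd q (hq01 j hj) fun S hS hSc =>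
        hform j hj j hj S (by rwa [Finset.union_idempotent]) hSc).2.trans ?_
      have h9 : ∏ b ∈ I k j, (1 - q b) ≤ Real.exp (-(lam * L)) :=
        (prod_one_sub_le (I k j) q fun i hi => (hq01 j hj i hi).2).trans
          (Real.exp_le_exp.2 (by linarith [hsumge j hj]))
      have h10 := sum_union_le (I k j) (d k + 1) q fun i hi => (hq01 j hj i hi).1
      have h11 : es q (I k j) (d k + 1) * (2 ^ (d k + 1) * Real.exp (∑ i ∈ I k j, q i)) ≤
          Real.exp (-(lam * L)) := by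
        calc _ ≤ Real.exp (((d k + 1 : ℕ) : ℝ) * (1 - 3 * Real.log 2)) *
              (2 ^ (d k + 1) * Real.exp (lam' * L)) := by
              refine mul_le_mul (hes j hj) ?_ (by positivity) (Real.exp_pos _).le
              exact mul_le_mul_of_nonneg_left (Real.exp_le_exp.2 (hsumle j hj)) (by positivity)
          _ = Real.exp (((d k + 1 : ℕ) : ℝ) * (1 - 2 * Real.log 2) + lam' * L) := by
              have h12 : (2 : ℝ) ^ (d k + 1) = Real.exp (((d k + 1 : ℕ) : ℝ) * Real.log 2) := by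
                rw [mul_comm, Real.exp_mul, Real.exp_log (by norm_num), Real.rpow_natCast]
              rw [h12, ← Real.exp_add, ← Real.exp_add]
              congr 1; ring
          _ ≤ _ := by
              apply Real.exp_le_exp.2
              have h17 : ((d k + 1 : ℕ) : ℝ) * (1 - 2 * Real.log 2) ≤ (8 * (lam' * L)) * (1 - 2 * Real.log 2) :=
                mul_le_mul_of_nonpos_right hdn (by linarith)
              have h18 : lam * L ≤ lam' * L := by
                refine mul_le_mul_of_nonneg_right ?_ hL0.le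
                rw [hlam']; linarith
              nlinarith
      rw [hβ]
      linarith
    have hdisj : ∀ i < N k, ∀ j < N k, i ≠ j → Disjoint (I k i) (I k j) := by
      intro i _ j _ hij
      rw [Finset.disjoint_left]
      intro x hx hy
      simp only [hI, mem_Ioc] at hx hy
      rcases Nat.lt_or_gt_of_ne hij with h | h
      · have : (i + 1) * H k ≤ j * H k := Nat.mul_le_mul_right _ h
        have h9 : (i + 1) * H k = i * H k + H k := by ring
        omega
      · have : (j + 1) * H k ≤ i * H k := Nat.mul_le_mul_right _ h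
        have h9 : (j + 1) * H k = j * H k + H k := by ring
        omega
    have hfin := none_empty hM.measurable (N k) (I k) (d k) hdodd q hdisj hform α β (by positivity)
      h3.2 hlow hup
    refine hfin.trans ?_
    have hN0 : (0 : ℝ) < N k := by exact_mod_cast h3.2
    have h20 : β / (N k * α ^ 2) ≤ β / ((2 : ℝ) ^ k / (2 * H k) * α ^ 2) := by
      have hα0 : 0 < α := by positivity
      have hβ0 : 0 < β := by positivity
      refine div_le_div_of_nonneg_left hβ0.le (by positivity) ?_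
      exact mul_le_mul_of_nonneg_right h3.1 (by positivity)
    refine h20.trans ?_
    have h21 : β / ((2 : ℝ) ^ k / (2 * H k) * α ^ 2) =
        16 * H k * Real.exp (-(lam * L) + 2 * (lam' * L + 2) - L) := by
      have h2' : (2 : ℝ) ^ k = Real.exp L := by
        rw [hL, mul_comm, Real.exp_mul, Real.exp_log (by norm_num), Real.rpow_natCast]
      have h22 : α ^ 2 = Real.exp (-(2 * (lam' * L + 2))) / 4 := by
        rw [hα, div_pow, ← Real.exp_nat_mul]
        congr 1
        · congr 1; push_cast; ring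
        · norm_num
      have h23 : Real.exp (-(lam * L) + 2 * (lam' * L + 2) - L) =
          Real.exp (-(lam * L)) * (Real.exp (-(2 * (lam' * L + 2))))⁻¹ * (Real.exp L)⁻¹ := by
        rw [← Real.exp_neg, ← Real.exp_neg, ← Real.exp_add, ← Real.exp_add]
        congr 1; ring
      rw [h23, h2', h22, hβ]
      have h24 := (Real.exp_pos L).ne'
      have h25 := (Real.exp_pos (-(2 * (lam' * L + 2)))).ne'
      field_simp
      ring
    rw [h21]
    have h26 : Real.exp (-(lam * L) + 2 * (lam' * L + 2) - L) = Real.exp 4 * r ^ k := by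
      rw [hr, ← Real.exp_nat_mul, ← Real.exp_add]
      congr 1
      rw [hρ, hlam', hL]
      ring
    rw [h26, hC]
    have h27 : (H k : ℝ) ≤ (k : ℝ) ^ 2 := by
      refine h2.trans ?_
      have h28 : lam' ≤ 1 := by rw [hlam']; linarith
      have h29 : L ≤ k := by
        rw [hL]; nlinarith
      calc lam' * L ^ 2 ≤ 1 * (k : ℝ) ^ 2 := by gcongr
        _ = (k : ℝ) ^ 2 := one_mul _
    have h30 : 0 < Real.exp 4 * r ^ k := by positivity
    calc 16 * (H k : ℝ) * (Real.exp 4 * r ^ k) ≤ 16 * (k : ℝ) ^ 2 * (Real.exp 4 * r ^ k) := by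
          gcongr
      _ = 16 * Real.exp 4 * ((k : ℝ) ^ 2 * r ^ k) := by ring
  filter_upwards [Pool.Agent.W150.SM.bc hsum hbound] with ω hω
  filter_upwards [hω] with k hk
  simp only [hE, Set.mem_iInter] at hk
  push Not at hk
  obtain ⟨j, hj, hjk⟩ := hk
  rw [mem_range] at hj
  rw [Set.mem_compl_iff, not_not, Set.mem_iInter₂] at hjk
  refine ⟨2 ^ k + j * H k, H k, Nat.le_add_right _ _, ?_, hHge k, fun n hn => ?_⟩
  · have h9 : (j + 1) * H k ≤ 2 ^ k := (Nat.mul_le_mul_right _ hj).trans (Nat.div_mul_le_self _ _)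
    have h10 : (j + 1) * H k = j * H k + H k := by ring
    have h11 : 2 ^ (k + 1) = 2 ^ k + 2 ^ k := by rw [pow_succ]; ring
    omega
  · exact hjk n hn

theorem lower [IsProbabilityMeasure μ] (hM : IsModel μ K A) {κ : ℝ} (hκ : 0 < κ)
    (hK : ∀ᶠ n : ℕ in atTop, 2 * κ * Real.log n ≤ K n) :
    ∀ᵐ ω ∂μ, ((min 1 (κ / 8) : ℝ) : EReal) ≤ cramerLimsup {n | ω ∈ A n} := by
  have hm0 : 0 < min 1 (κ / 8) := lt_min one_pos (by positivity)
  have h1 : ∀ᵐ ω ∂μ, ∀ j : ℕ, (((1 - 1 / ((j : ℝ) + 2)) * min 1 (κ / 8) : ℝ) : EReal) ≤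
      cramerLimsup {n | ω ∈ A n} := by
    rw [ae_all_iff]
    intro j
    have hj : 0 < 1 / ((j : ℝ) + 2) := by positivity
    have hj1 : 1 / ((j : ℝ) + 2) ≤ 1 / 2 := one_div_le_one_div_of_le (by norm_num) (by
      have : (0 : ℝ) ≤ j := Nat.cast_nonneg j
      linarith)
    have hlt : (1 - 1 / ((j : ℝ) + 2)) * min 1 (κ / 8) < min 1 (κ / 8) := by nlinarith
    have hpos : 0 < (1 - 1 / ((j : ℝ) + 2)) * min 1 (κ / 8) := mul_pos (by linarith) hm0
    filter_upwards [lower_aux hM hpos (hlt.trans_le (min_le_left _ _)) (hlt.trans_le (min_le_right _ _)) hK,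
      upper hM hκ hK] with ω h2 h3
    exact Pool.Agent.W150.SM.limsup_ge h3.1 h2.frequently
  filter_upwards [h1] with ω hω
  have h5 : Tendsto (fun n : ℕ => (1 - 1 / ((n : ℝ) + 2)) * min 1 (κ / 8)) atTop
      (𝓝 ((1 - 0) * min 1 (κ / 8))) := by
    refine (tendsto_const_nhds.sub ?_).mul_const _
    have := (tendsto_add_atTop_iff_nat 1).2 (tendsto_one_div_add_atTop_nhds_zero_nat (𝕜 := ℝ))
    refine this.congr fun n => ?_
    push_cast
    ring
  rw [sub_zero, one_mul] at h5
  exact le_of_tendsto' ((continuous_coe_real_ereal.tendsto _).comp h5) hω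

end Pool.Agent.W151.KW
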