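import Mathlib
import Pool.Agent.W151.KW.LagV
import Pool.Agent.W151.KW.Bin
import Pool.Agent.W151.KW.Low2

/-! # Blocks that are empty with large probability (helper151) -/

set_option autoImplicit false

namespace Pool.Agent.W151.KW

open Finset

theorem pw_ge (B S : Finset ℕ) (q : ℕ → ℝ) (p0 p1 : ℝ) (h : ℕ) (hS : S ⊆ B) (hh : B.card = h)
    (hp0 : 0 < p0) (hp01 : p0 ≤ p1) (hp1 : p1 ≤ 1 / 16) (hq : ∀ i ∈ B, p0 ≤ q i ∧ q i ≤ p1)
    (hvar : h * (p1 - p0) ≤ 1) :
    p0 ^ S.card * (1 - p0) ^ (h - S.card) * Real.exp (-2) ≤ pw q B S := by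
  set d : ℝ := p1 - p0 with hd
  have hd0 : 0 ≤ d := by rw [hd]; linarith
  have hd1 : d ≤ 1 / 16 := by rw [hd]; linarith
  have h1 : (1 - p0) * Real.exp (-(2 * d)) ≤ 1 - p1 := by
    have hp2 : 0 < 1 - p0 := by linarith
    set x : ℝ := d / (1 - p0) with hx
    have hx0 : 0 ≤ x := by positivity
    have hx1 : x ≤ (16 / 15) * d := by
      rw [hx, div_le_iff₀ hp2]; nlinarith
    have h2 := exp_le_one_sub hx0 (by linarith)
    have h3 : Real.exp (-(2 * d)) ≤ Real.exp (-(x + 2 * x ^ 2)) := by
      apply Real.exp_le_exp.2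
      nlinarith
    calc (1 - p0) * Real.exp (-(2 * d)) ≤ (1 - p0) * (1 - x) := by
          apply mul_le_mul_of_nonneg_left (h3.trans h2) hp2.le
      _ = 1 - p1 := by rw [hx, hd]; field_simp; ring
  have hcard : (B \ S).card = h - S.card := by rw [Finset.card_sdiff_of_subset hS, hh]
  have h4 : (1 - p0) ^ (h - S.card) * Real.exp (-2) ≤ ∏ i ∈ B \ S, (1 - q i) := by
    calc (1 - p0) ^ (h - S.card) * Real.exp (-2) ≤
        (1 - p0) ^ (h - S.card) * Real.exp (-(2 * d)) ^ (h - S.card) := by
          refine mul_le_mul_of_nonneg_left ?_ (pow_nonneg (by linarith) _)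
          rw [← Real.exp_nat_mul]
          apply Real.exp_le_exp.2
          have h5 : ((h - S.card : ℕ) : ℝ) ≤ h := by exact_mod_cast Nat.sub_le _ _
          nlinarith
      _ = ((1 - p0) * Real.exp (-(2 * d))) ^ (h - S.card) := by rw [mul_pow]
      _ ≤ (1 - p1) ^ (h - S.card) :=
          pow_le_pow_left₀ (mul_nonneg (by linarith) (Real.exp_pos _).le) h1 _
      _ = ∏ _i ∈ B \ S, (1 - p1) := by rw [Finset.prod_const, hcard]
      _ ≤ _ := Finset.prod_le_prod (fun _ _ => by linarith) fun i hi => by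
          have := (hq i (mem_sdiff.1 hi).1).2
          linarith
  have h6 : p0 ^ S.card ≤ ∏ i ∈ S, q i := by
    calc p0 ^ S.card = ∏ _i ∈ S, p0 := by rw [Finset.prod_const]
      _ ≤ _ := Finset.prod_le_prod (fun _ _ => hp0.le) fun i hi => (hq i (hS hi)).1
  unfold pw
  rw [mul_assoc]
  refine mul_le_mul h6 h4 ?_ (Finset.prod_nonneg fun i hi => hp0.le.trans (hq i (hS hi)).1)
  have : (0 : ℝ) ≤ 1 - p0 := by linarith
  positivity

/-- blocks, with correlations prescribed up to the order `2 m + 1`, that are empty with large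
probability -/
theorem block2 (h m : ℕ) (B : Finset ℕ) (q : ℕ → ℝ) (p0 p1 M ε : ℝ) (hm : 1 ≤ m)
    (hh : B.card = h) (hp0 : 0 < p0) (hq : ∀ i ∈ B, p0 ≤ q i ∧ q i ≤ p1) (hp1 : p1 ≤ 1 / 16)
    (hp01 : p0 ≤ p1) (hvar : h * (p1 - p0) ≤ 1) (hM : M = h * p0) (hmM : (m : ℝ) ≤ M)
    (hε0 : 0 ≤ ε) (hε : ε ≤ Real.exp (-(m * (67 + Real.log (M / m))))) :
    ∃ ν : Finset ℕ → ℝ, (∀ S ⊆ B, 0 ≤ ν S) ∧
      (∀ T ⊆ B, T.card ≤ 2 * m + 1 → ∑ S ∈ B.powerset, (if T ⊆ S then ν S else 0) = ∏ i ∈ T, q i) ∧
      ν ∅ = pw q B ∅ + ε := by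
  have hm' : (1 : ℝ) ≤ m := by exact_mod_cast hm
  have hM1 : 1 ≤ M := hm'.trans hmM
  set s : ℝ := Real.sqrt (M / m) with hs
  have hMm : 1 ≤ M / m := by rw [le_div_iff₀ (by linarith)]; linarith
  have hs1 : 1 ≤ s := by rw [hs]; exact Real.one_le_sqrt.2 hMm
  have hs2 : s ^ 2 = M / m := Real.sq_sqrt (by linarith)
  have hs3 : m * s ^ 2 = M := by rw [hs2]; field_simp
  set g : ℕ := ⌈s⌉₊ with hg
  set a : ℕ := ⌈M⌉₊ with ha
  have ha1 : 1 ≤ a := Nat.one_le_ceil_iff.2 (by linarith)
  have hg1 : 1 ≤ g := Nat.one_le_ceil_iff.2 (by linarith)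
  have hage : M ≤ a := Nat.le_ceil _
  have hale : (a : ℝ) < M + 1 := Nat.ceil_lt_add_one (by linarith)
  have hgge : s ≤ g := Nat.le_ceil _
  have hgle : (g : ℝ) < s + 1 := Nat.ceil_lt_add_one (by linarith)
  have hg2 : (g : ℝ) ≤ 2 * s := by linarith
  have hmsM : (m : ℝ) * s ≤ M := by nlinarith
  have hms1 : 1 ≤ (m : ℝ) * s := by nlinarith
  have hgms : (g : ℝ) ≤ 2 * (m * s) := by nlinarith
  -- sizes of the nodes
  have hnd : ∀ j < g, ∀ i ≤ 2 * m, M ≤ (nd (a + j) g i : ℝ) ∧ (nd (a + j) g i : ℝ) ≤ M + 7 * (m * s) := by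
    intro j hj i hi
    have hi' : (i : ℝ) ≤ 2 * m := by exact_mod_cast hi
    have hj' : (j : ℝ) ≤ g := by exact_mod_cast hj.le
    unfold nd
    push_cast
    have h1 : 0 ≤ (g : ℝ) * i := by positivity
    have h2 : (g : ℝ) * i ≤ (2 * s) * (2 * m) := by gcongr
    have h3 : (0 : ℝ) ≤ j := Nat.cast_nonneg _
    constructor
    · linarith
    · nlinarith
  have hJ8 : ∀ j < g, ∀ i ≤ 2 * m, (nd (a + j) g i : ℝ) ≤ 8 * M :=
    fun j hj i hi => (hnd j hj i hi).2.trans (by linarith)
  have hh16 : 16 * M ≤ h := by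
    rw [hM]
    have : (0 : ℝ) ≤ h := Nat.cast_nonneg h
    nlinarith
  have hb : ∀ j < g, 2 * nd (a + j) g (2 * m) ≤ h := by
    intro j hj
    have h1 := hJ8 j hj (2 * m) le_rfl
    have h2 : 2 * (nd (a + j) g (2 * m) : ℝ) ≤ h := by linarith
    exact_mod_cast h2
  have hn1 : ∀ j < g, ∀ i, 1 ≤ nd (a + j) g i := by
    intro j _ i
    unfold nd
    omega
  have hb' : ∀ j < g, nd (a + j) g (2 * m) < h := by
    intro j hj
    have h1 := hb j hj
    have h2 := hn1 j hj (2 * m)
    omega
  set V : ℕ → Finset ℕ := fun j => vs (a + j) g (2 * m) h with hV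
  have hq01 : ∀ i ∈ B, 0 ≤ q i ∧ q i ≤ 1 := by
    intro i hi
    have := hq i hi
    constructor <;> linarith
  refine ⟨nuv q B V g ε, ?_, ?_, ?_⟩
  · refine nuv_nonneg q B V g hg1 ε hε0 hq01 ?_ ?_ ?_
    · intro j hj
      rw [hV, hh]
      exact lv_far hg1 (hb' j hj) (even_two_mul m)
    · intro t ht j hj j' hj' h1 h2
      rw [hV] at h1 h2
      simp only at h1 h2
      rw [mem_vs] at h1 h2
      rw [hh] at ht
      obtain ⟨i, _, h3⟩ := h1.resolve_left ht
      obtain ⟨i', _, h4⟩ := h2.resolve_left ht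
      rw [h3] at h4
      unfold nd at h4
      have h5 : j + g * i = j' + g * i' := by omega
      have h6 := congrArg (· % g) h5
      simp only [Nat.add_mul_mod_self_left] at h6
      rwa [Nat.mod_eq_of_lt hj, Nat.mod_eq_of_lt hj'] at h6
    · intro j hj S hS hSB hSV
      have hcard : S.card ≠ h := by
        intro h1
        exact hSB (Finset.eq_of_subset_of_card_le hS (by rw [hh, h1]))
      rw [hV] at hSV
      simp only at hSV
      rw [mem_vs] at hSV
      obtain ⟨i, hi, h3⟩ := hSV.resolve_left hcard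
      obtain ⟨e1, e2⟩ := hnd j hj i hi
      have e8 := hJ8 j hj i hi
      -- Lagrange coefficient
      have hL : |lv (V j) S.card| ≤ 2 * Real.exp (m * (7 + Real.log (M / m))) := by
        rw [hV, h3]
        refine (lv_node hg1 (hb j hj) (hn1 j hj _) hi).trans ?_
        refine mul_le_mul_of_nonneg_left ?_ (by norm_num)
        have h1 := abs_lc_le (a + j) g (2 * m) i hg1 hi (by omega)
        have h2 : 2 * Real.exp 1 * ((nd (a + j) g (2 * m) : ℕ) : ℝ) / (g * ((2 * m : ℕ) : ℝ)) ≤
            8 * Real.exp 1 * s := by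
          rw [div_le_iff₀ (by positivity)]
          push_cast
          have h3 := hJ8 j hj (2 * m) le_rfl
          have h4 : 8 * M ≤ 8 * s * ((g : ℝ) * m) := by
            calc 8 * M = 8 * s * (s * m) := by rw [← hs3]; ring
              _ ≤ 8 * s * ((g : ℝ) * m) := by gcongr
          have he := Real.exp_pos 1
          calc 2 * Real.exp 1 * (nd (a + j) g (2 * m) : ℝ) ≤ 2 * Real.exp 1 * (8 * s * ((g : ℝ) * m)) := by
                gcongr
                linarith
            _ = 8 * Real.exp 1 * s * (g * (2 * m)) := by ring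
        have h5 : 0 ≤ 2 * Real.exp 1 * ((nd (a + j) g (2 * m) : ℕ) : ℝ) / (g * ((2 * m : ℕ) : ℝ)) := by
          positivity
        calc |lc (a + j) g (2 * m) i| ≤ _ := h1
          _ ≤ (8 * Real.exp 1 * s) ^ (2 * m) := by gcongr
          _ = (64 * Real.exp 1 ^ 2 * (M / m)) ^ m := by
              rw [pow_mul]
              congr 1
              rw [← hs2]; ring
          _ ≤ Real.exp (m * (7 + Real.log (M / m))) := by
              have h6 : 64 * Real.exp 1 ^ 2 * (M / m) ≤ Real.exp (7 + Real.log (M / m)) := by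
                rw [Real.exp_add, Real.exp_log (by linarith)]
                refine mul_le_mul_of_nonneg_right ?_ (by linarith)
                have h7 : (64 : ℝ) ≤ Real.exp 1 ^ 5 := by
                  have : (2.7 : ℝ) ≤ Real.exp 1 := by linarith [Real.exp_one_gt_d9]
                  calc (64 : ℝ) ≤ 2.7 ^ 5 := by norm_num
                    _ ≤ _ := by gcongr
                calc 64 * Real.exp 1 ^ 2 ≤ Real.exp 1 ^ 5 * Real.exp 1 ^ 2 := by gcongr
                  _ = Real.exp 7 := by rw [← pow_add, ← Real.exp_nat_mul]; norm_num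
              calc _ ≤ (Real.exp (7 + Real.log (M / m))) ^ m := by gcongr
                _ = _ := by rw [← Real.exp_nat_mul]
      -- binomial weight
      have hS1 : 1 ≤ S.card := by rw [h3]; exact hn1 j hj i
      have hSh : S.card < h := lt_of_le_of_ne (by rw [← hh]; exact Finset.card_le_card hS) hcard
      have hW := bin_ge h S.card p0 hS1 hSh hp0 (hp01.trans hp1)
      have hW2 := pw_ge B S q p0 p1 h hS hh hp0 hp01 hp1 hq hvar
      have hW3 : Real.exp (-(4 + (1 / 2) * Real.log (8 * M) + (16 / 15) * (49 * m))) ≤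
          (B.card.choose S.card : ℝ) * pw q B S := by
        rw [hh]
        have hch : (0 : ℝ) ≤ h.choose S.card := Nat.cast_nonneg _
        calc Real.exp (-(4 + (1 / 2) * Real.log (8 * M) + (16 / 15) * (49 * m))) ≤
            Real.exp (-(2 + (1 / 2) * Real.log S.card +
              (16 / 15) * (((S.card : ℝ) - h * p0) ^ 2 / (h * p0)))) * Real.exp (-2) := by
              rw [← Real.exp_add]
              apply Real.exp_le_exp.2
              have h4 : Real.log S.card ≤ Real.log (8 * M) := by
                rw [h3]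
                exact Real.log_le_log (by linarith) e8
              have h5 : ((S.card : ℝ) - h * p0) ^ 2 / (h * p0) ≤ 49 * m := by
                rw [← hM, div_le_iff₀ (by linarith), h3]
                have h6 : ((nd (a + j) g i : ℝ) - M) ^ 2 ≤ (7 * (m * s)) ^ 2 := by
                  apply pow_le_pow_left₀ (by linarith)
                  linarith
                calc ((nd (a + j) g i : ℝ) - M) ^ 2 ≤ (7 * (m * s)) ^ 2 := h6
                  _ = 49 * m * (m * s ^ 2) := by ring
                  _ = 49 * m * M := by rw [hs3]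
              linarith
          _ ≤ ((h.choose S.card : ℝ) * p0 ^ S.card * (1 - p0) ^ (h - S.card)) * Real.exp (-2) :=
              mul_le_mul_of_nonneg_right hW (Real.exp_pos _).le
          _ = (h.choose S.card : ℝ) * (p0 ^ S.card * (1 - p0) ^ (h - S.card) * Real.exp (-2)) := by ring
          _ ≤ _ := mul_le_mul_of_nonneg_left hW2 hch
      refine le_trans ?_ hW3
      have hg0 : (0 : ℝ) < g := by exact_mod_cast hg1
      have hs0 : 0 < s := by linarith
      calc ε / g * |lv (V j) S.card| ≤
          Real.exp (-(m * (67 + Real.log (M / m)))) / s * (2 * Real.exp (m * (7 + Real.log (M / m)))) := by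
            gcongr
        _ = Real.exp (-(m * (67 + Real.log (M / m))) + m * (7 + Real.log (M / m)) - Real.log s +
              Real.log 2) := by
            rw [Real.exp_add, Real.exp_sub, Real.exp_add, Real.exp_log hs0, Real.exp_log (by norm_num)]
            ring
        _ ≤ _ := by
            apply Real.exp_le_exp.2
            have f1 : Real.log s = (1 / 2) * (Real.log M - Real.log m) := by
              rw [hs, Real.log_sqrt (by linarith), Real.log_div (by linarith) (by linarith)]
              ring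
            have f2 : Real.log (8 * M) = 3 * Real.log 2 + Real.log M := by
              rw [Real.log_mul (by norm_num) (by linarith), show (8 : ℝ) = 2 ^ 3 by norm_num, Real.log_pow]
              push_cast
              ring
            have f3 : Real.log m ≤ m - 1 := Real.log_le_sub_one_of_pos (by linarith)
            have f4 := Real.log_two_lt_d9
            rw [f1, f2]
            linarith
  · intro T hT hTc
    refine nuv_moment q B V g ε ?_ T hT ?_
    · intro j hj v hv
      rw [hV] at hv
      simp only at hv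
      rw [mem_vs] at hv
      rw [hh]
      rcases hv with h1 | ⟨i, hi, h1⟩
      · exact h1.le
      · rw [h1]
        exact (nd_mono hi).trans (hb' j hj).le
    · intro j hj
      rw [hV]
      simp only
      rw [card_vs hg1 (hb' j hj)]
      omega
  · refine nuv_empty q B V g hg1 ε ?_
    intro j hj h1
    rw [hV] at h1
    simp only at h1
    rw [mem_vs] at h1
    rcases h1 with h2 | ⟨i, _, h2⟩
    · have := hb' j hj
      omega
    · have := hn1 j hj i
      omega

end Pool.Agent.W151.KW
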