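import Mathlib
import Pool.Agent.W151.KW.Lag
import Pool.Agent.W151.KW.Low2

/-! # Numerical estimates for the blocks -/

set_option autoImplicit false

namespace Pool.Agent.W151.KW

open Finset

/-- lower bound for the binomial weights -/
theorem weight_ge (B S : Finset ℕ) (q : ℕ → ℝ) (p0 p1 : ℝ) (h j : ℕ) (hS : S ⊆ B) (hh : B.card = h)
    (hj : S.card = j) (hj1 : 1 ≤ j) (hjh : 2 * j ≤ h) (hp0 : 0 < p0) (hp1 : p1 ≤ 1 / 2)
    (hq : ∀ i ∈ B, p0 ≤ q i ∧ q i ≤ p1) :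
    Real.exp ((h : ℝ) * p0 - ((j : ℝ) - h * p0) ^ 2 / (h * p0) - h * (p1 + 2 * p1 ^ 2) -
      2 * (j : ℝ) ^ 2 / h - 1 - Real.log j) ≤ (h.choose j : ℝ) * pw q B S := by
  have hj0 : (0 : ℝ) < j := by exact_mod_cast hj1
  have hjh' : 2 * (j : ℝ) ≤ h := by exact_mod_cast hjh
  have hh0 : (0 : ℝ) < h := by linarith
  have hBne : B.Nonempty := by
    rw [← Finset.card_pos, hh]
    exact_mod_cast hh0
  have hp01 : p0 ≤ p1 := by
    obtain ⟨i, hi⟩ := hBne
    exact (hq i hi).1.trans (hq i hi).2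
  set M : ℝ := h * p0 with hM
  have hM0 : 0 < M := by positivity
  -- the binomial coefficient
  have hf : (0 : ℝ) < j.factorial := by exact_mod_cast j.factorial_pos
  have h1 : (((h + 1 - j : ℕ) : ℝ)) ^ j ≤ (j.factorial : ℝ) * (h.choose j : ℝ) := by
    have := Nat.pow_le_choose (α := ℝ) j h
    rw [div_le_iff₀ hf] at this
    linarith
  have h2 : (h : ℝ) - j ≤ ((h + 1 - j : ℕ) : ℝ) := by
    rw [Nat.cast_sub (by omega)]; push_cast; linarith
  have h3 : 0 < (h : ℝ) - j := by linarith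
  have h4 : ((h : ℝ) - j) ^ j / j.factorial ≤ (h.choose j : ℝ) := by
    rw [div_le_iff₀ hf]
    calc ((h : ℝ) - j) ^ j ≤ (((h + 1 - j : ℕ) : ℝ)) ^ j := by gcongr
      _ ≤ _ := by linarith
  -- the product weight
  have h5 : p0 ^ j * Real.exp (-(h * (p1 + 2 * p1 ^ 2))) ≤ pw q B S := by
    unfold pw
    refine mul_le_mul ?_ ?_ (Real.exp_pos _).le ?_
    · calc p0 ^ j = ∏ _i ∈ S, p0 := by rw [Finset.prod_const, hj]
        _ ≤ _ := Finset.prod_le_prod (fun _ _ => hp0.le) fun i hi => (hq i (hS hi)).1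
    · refine le_trans (Real.exp_le_exp.2 ?_) (le_prod_one_sub (B \ S) q p1 (fun i hi =>
        ⟨hp0.le.trans (hq i (mem_sdiff.1 hi).1).1, (hq i (mem_sdiff.1 hi).1).2⟩) hp1)
      have h6 : ((B \ S).card : ℝ) ≤ h := by
        rw [← hh]; exact_mod_cast Finset.card_le_card Finset.sdiff_subset
      have h7 : 0 ≤ p1 + 2 * p1 ^ 2 := by
        have : 0 ≤ p1 := hp0.le.trans hp01
        positivity
      nlinarith
    · exact Finset.prod_nonneg fun i hi => hp0.le.trans (hq i (hS hi)).1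
  have h8 : ((h : ℝ) - j) ^ j / j.factorial * (p0 ^ j * Real.exp (-(h * (p1 + 2 * p1 ^ 2)))) ≤
      (h.choose j : ℝ) * pw q B S := mul_le_mul h4 h5 (by positivity) (by positivity)
  refine le_trans ?_ h8
  have h9 : ((h : ℝ) - j) ^ j / j.factorial * (p0 ^ j * Real.exp (-(h * (p1 + 2 * p1 ^ 2)))) =
      Real.exp (j * Real.log ((h : ℝ) - j) - Real.log j.factorial + j * Real.log p0 -
        h * (p1 + 2 * p1 ^ 2)) := by
    rw [Real.exp_sub, Real.exp_add, Real.exp_sub, Real.exp_log hf, Real.exp_neg]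
    rw [← Real.log_pow, ← Real.log_pow, Real.exp_log (by positivity), Real.exp_log (by positivity)]
    field_simp
  rw [h9]
  apply Real.exp_le_exp.2
  have h10 := log_fact_le j hj1
  have h11 : Real.log h - 2 * (j : ℝ) / h ≤ Real.log ((h : ℝ) - j) := by
    have e : (h : ℝ) - j = h * (1 - j / h) := by field_simp
    have hx : (j : ℝ) / h ≤ 1 / 2 := by
      rw [div_le_div_iff₀ hh0 (by norm_num)]; linarith
    have hx0 : 0 ≤ (j : ℝ) / h := by positivity
    rw [e, Real.log_mul hh0.ne' (by linarith)]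
    have h12 := exp_le_one_sub hx0 hx
    rw [← Real.le_log_iff_exp_le (by linarith)] at h12
    have h13 : 2 * (j : ℝ) / h = 2 * ((j : ℝ) / h) := by ring
    rw [h13]
    nlinarith
  have h14 : Real.log M = Real.log h + Real.log p0 := by
    rw [hM, Real.log_mul hh0.ne' hp0.ne']
  have h15 : Real.log j - Real.log M ≤ (j : ℝ) / M - 1 := by
    rw [← Real.log_div hj0.ne' hM0.ne']
    exact Real.log_le_sub_one_of_pos (by positivity)
  have h16 : (j : ℝ) * (Real.log h - 2 * (j : ℝ) / h) ≤ j * Real.log ((h : ℝ) - j) :=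
    mul_le_mul_of_nonneg_left h11 hj0.le
  have h17 : (j : ℝ) * (Real.log j - Real.log M) ≤ j * ((j : ℝ) / M - 1) :=
    mul_le_mul_of_nonneg_left h15 hj0.le
  have h18 : ((j : ℝ) - M) ^ 2 / M = (j : ℝ) * ((j : ℝ) / M) - 2 * j + M := by
    field_simp
    ring
  have h19 : 2 * (j : ℝ) ^ 2 / h = j * (2 * (j : ℝ) / h) := by ring
  rw [h18, h19]
  rw [h14] at h17
  nlinarith

/-- the main numerical estimate -/
theorem est (k h m : ℕ) (B : Finset ℕ) (M : ℝ) (hk : 17 ≤ k) (hm : 1 ≤ m)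
    (hB : ∀ i ∈ B, 2 ^ k ≤ i ∧ i ≤ 2 ^ (k + 1)) (hh : B.card = h)
    (hM : M = h * (1 / (((k : ℝ) + 1) * Real.log 2))) (hmM : (m : ℝ) ≤ M) :
    1 ≤ ⌈M⌉₊ ∧ 1 ≤ ⌈Real.sqrt (M / m)⌉₊ ∧ ⌈M⌉₊ + ⌈Real.sqrt (M / m)⌉₊ * (2 * m) ≤ h ∧
    ∀ i ≤ 2 * m, ∀ S ⊆ B, S.card = nd ⌈M⌉₊ ⌈Real.sqrt (M / m)⌉₊ i →
      |lc ⌈M⌉₊ ⌈Real.sqrt (M / m)⌉₊ (2 * m) i| ≤
        ((h.choose (nd ⌈M⌉₊ ⌈Real.sqrt (M / m)⌉₊ i) : ℝ) * pw (fun i => 1 / Real.log i) B S) *
        Real.exp (m * (31 + Real.log (M / m)) + 125 * M / k + 1 + Real.log (6 * M)) := by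
  have hl2 := Real.log_pos (show (1 : ℝ) < 2 by norm_num)
  have hl2u := Real.log_two_lt_d9
  have hl2l := Real.log_two_gt_d9
  have hk' : (17 : ℝ) ≤ k := by exact_mod_cast hk
  have hm' : (1 : ℝ) ≤ m := by exact_mod_cast hm
  have hM1 : 1 ≤ M := hm'.trans hmM
  set p0 : ℝ := 1 / (((k : ℝ) + 1) * Real.log 2) with hp0
  set p1 : ℝ := 1 / ((k : ℝ) * Real.log 2) with hp1
  set s : ℝ := Real.sqrt (M / m) with hs
  have hMm : 1 ≤ M / m := by rw [le_div_iff₀ (by linarith)]; linarith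
  have hs1 : 1 ≤ s := by rw [hs]; exact Real.one_le_sqrt.2 hMm
  have hs2 : s ^ 2 = M / m := Real.sq_sqrt (by linarith)
  have hs3 : m * s ^ 2 = M := by rw [hs2]; field_simp
  set g : ℕ := ⌈s⌉₊ with hg
  set a : ℕ := ⌈M⌉₊ with ha
  have ha1 : 1 ≤ a := Nat.one_le_ceil_iff.2 (by linarith)
  have hg1 : 1 ≤ g := Nat.one_le_ceil_iff.2 (by linarith)
  have hage : M ≤ a := Nat.le_ceil _
  have hale : (a : ℝ) < M + 1 := Nat.ceil_lt_add_one (by linarith)
  have hgge : s ≤ g := Nat.le_ceil _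
  have hgle : (g : ℝ) < s + 1 := Nat.ceil_lt_add_one (by linarith)
  have hg2 : (g : ℝ) ≤ 2 * s := by linarith
  have hmsM : (m : ℝ) * s ≤ M := by nlinarith
  have hms1 : 1 ≤ (m : ℝ) * s := by nlinarith
  -- sizes of the nodes
  have hnd : ∀ i ≤ 2 * m, M ≤ (nd a g i : ℝ) ∧ (nd a g i : ℝ) ≤ M + 5 * (m * s) := by
    intro i hi
    have hi' : (i : ℝ) ≤ 2 * m := by exact_mod_cast hi
    unfold nd
    push_cast
    have h1 : 0 ≤ (g : ℝ) * i := by positivity
    have h2 : (g : ℝ) * i ≤ (2 * s) * (2 * m) := by gcongr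
    constructor
    · linarith
    · nlinarith
  have hp00 : 0 < p0 := by positivity
  have hp0k : p0 ≤ 3 / 2 / k := by
    rw [hp0, div_div, div_le_div_iff₀ (by positivity) (by positivity)]
    nlinarith
  have hp0s : p0 ≤ 1 / 12 := by
    rw [hp0]
    apply one_div_le_one_div_of_le (by norm_num)
    nlinarith
  have hh12 : 12 * M ≤ h := by
    rw [hM]
    have : (0 : ℝ) ≤ h := Nat.cast_nonneg h
    nlinarith
  have hJ6 : ∀ i ≤ 2 * m, (nd a g i : ℝ) ≤ 6 * M := fun i hi => (hnd i hi).2.trans (by linarith)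
  refine ⟨ha1, hg1, ?_, ?_⟩
  · have h1 := hJ6 (2 * m) le_rfl
    have h2 : (nd a g (2 * m) : ℝ) ≤ h := by linarith
    exact_mod_cast h2
  intro i hi S hS hSc
  obtain ⟨hn1, hn2⟩ := hnd i hi
  have hn6 := hJ6 i hi
  -- Lagrange coefficient
  have hL : |lc a g (2 * m) i| ≤ Real.exp (m * (6 + Real.log (M / m))) := by
    have h1 := abs_lc_le a g (2 * m) i hg1 hi (by omega)
    have h2 : 2 * Real.exp 1 * ((nd a g (2 * m) : ℕ) : ℝ) / (g * ((2 * m : ℕ) : ℝ)) ≤ 6 * Real.exp 1 * s := by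
      rw [div_le_iff₀ (by positivity)]
      push_cast
      have h3 := hJ6 (2 * m) le_rfl
      have h4 : 6 * M ≤ 6 * s * ((g : ℝ) * m) := by
        calc 6 * M = 6 * s * (s * m) := by rw [← hs3]; ring
          _ ≤ 6 * s * ((g : ℝ) * m) := by gcongr
      have he := Real.exp_pos 1
      calc 2 * Real.exp 1 * (nd a g (2 * m) : ℝ) ≤ 2 * Real.exp 1 * (6 * s * ((g : ℝ) * m)) := by
            gcongr
            linarith
        _ = 6 * Real.exp 1 * s * (g * (2 * m)) := by ring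
    have h5 : 0 ≤ 2 * Real.exp 1 * ((nd a g (2 * m) : ℕ) : ℝ) / (g * ((2 * m : ℕ) : ℝ)) := by positivity
    calc |lc a g (2 * m) i| ≤ _ := h1
      _ ≤ (6 * Real.exp 1 * s) ^ (2 * m) := by gcongr
      _ = (36 * Real.exp 1 ^ 2 * (M / m)) ^ m := by
          rw [pow_mul]
          congr 1
          rw [← hs2]; ring
      _ ≤ Real.exp (m * (6 + Real.log (M / m))) := by
          have h6 : 36 * Real.exp 1 ^ 2 * (M / m) ≤ Real.exp (6 + Real.log (M / m)) := by
            rw [Real.exp_add, Real.exp_log (by linarith)]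
            refine mul_le_mul_of_nonneg_right ?_ (by linarith)
            have h7 : (36 : ℝ) ≤ Real.exp 1 ^ 4 := by
              have : (2.7 : ℝ) ≤ Real.exp 1 := by linarith [Real.exp_one_gt_d9]
              calc (36 : ℝ) ≤ 2.7 ^ 4 := by norm_num
                _ ≤ _ := by gcongr
            calc 36 * Real.exp 1 ^ 2 ≤ Real.exp 1 ^ 4 * Real.exp 1 ^ 2 := by gcongr
              _ = Real.exp 6 := by rw [← pow_add, ← Real.exp_nat_mul]; norm_num
          calc _ ≤ (Real.exp (6 + Real.log (M / m))) ^ m := by gcongr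
            _ = _ := by rw [← Real.exp_nat_mul]
  -- the weights
  have hp1s : p1 ≤ 1 / 2 := by
    rw [hp1]
    apply one_div_le_one_div_of_le (by norm_num)
    nlinarith
  have hqi : ∀ i ∈ B, p0 ≤ 1 / Real.log i ∧ 1 / Real.log i ≤ p1 := by
    intro i hi
    obtain ⟨h1, h2⟩ := hB i hi
    have hpos : 0 < 2 ^ k := by positivity
    have h3 := log_le_of (by omega : 0 < i) h2
    have h4 := le_log_of h1
    push_cast at h3
    have h5 : 0 < (k : ℝ) * Real.log 2 := by positivity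
    exact ⟨one_div_le_one_div_of_le (by linarith) h3, one_div_le_one_div_of_le h5 h4⟩
  have hj1 : 1 ≤ nd a g i := by
    have : (1 : ℝ) ≤ nd a g i := hM1.trans hn1
    exact_mod_cast this
  have hjh : 2 * nd a g i ≤ h := by
    have : 2 * (nd a g i : ℝ) ≤ h := by linarith
    exact_mod_cast this
  have hW := weight_ge B S (fun i => 1 / Real.log i) p0 p1 h (nd a g i) hS hh hSc hj1 hjh hp00 hp1s hqi
  rw [← hM] at hW
  set j : ℝ := (nd a g i : ℝ) with hj
  have hexp : -(m * 25 + 125 * M / k + 1 + Real.log (6 * M)) ≤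
      M - (j - M) ^ 2 / M - h * (p1 + 2 * p1 ^ 2) - 2 * j ^ 2 / h - 1 - Real.log j := by
    have h1 : (j - M) ^ 2 / M ≤ 25 * m := by
      rw [div_le_iff₀ (by linarith)]
      have h2 : (j - M) ^ 2 ≤ (5 * (m * s)) ^ 2 := by
        apply pow_le_pow_left₀ (by linarith)
        linarith
      calc (j - M) ^ 2 ≤ (5 * (m * s)) ^ 2 := h2
        _ = 25 * m * (m * s ^ 2) := by ring
        _ = 25 * m * M := by rw [hs3]
    have h3 : h * p1 = M + M / k := by
      rw [hM, hp1, hp0]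
      field_simp
    have h4 : h * (2 * p1 ^ 2) ≤ 12 * M / k := by
      have h5 : p1 ≤ 2 * p0 := by
        rw [hp1, hp0, mul_one_div, div_le_div_iff₀ (by positivity) (by positivity)]
        nlinarith
      have h6 : 0 ≤ p1 := by positivity
      have hh0 : (0 : ℝ) ≤ h := Nat.cast_nonneg h
      calc h * (2 * p1 ^ 2) ≤ h * (2 * (2 * p0) ^ 2) := by gcongr
        _ = 8 * (h * p0) * p0 := by ring
        _ = 8 * M * p0 := by rw [hM]
        _ ≤ 8 * M * (3 / 2 / k) := by gcongr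
        _ = 12 * M / k := by ring
    have hh0 : (0 : ℝ) < h := by linarith
    have h7 : 2 * j ^ 2 / h ≤ 108 * M / k := by
      calc 2 * j ^ 2 / h ≤ 2 * (6 * M) ^ 2 / h := by gcongr
        _ = 72 * M * (M / h) := by ring
        _ = 72 * M * p0 := by
            congr 1
            rw [hM]; field_simp
        _ ≤ 72 * M * (3 / 2 / k) := by gcongr
        _ = 108 * M / k := by ring
    have h8 : Real.log j ≤ Real.log (6 * M) := Real.log_le_log (by linarith) hn6
    have h9 : 0 ≤ M / k := by positivity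
    have h10 : h * (p1 + 2 * p1 ^ 2) = h * p1 + h * (2 * p1 ^ 2) := by ring
    have h11 : 12 * M / k = 12 * (M / k) := by ring
    have h12 : 108 * M / k = 108 * (M / k) := by ring
    have h13 : 125 * M / k = 125 * (M / k) := by ring
    rw [h10, h3, h13]
    rw [h11] at h4
    rw [h12] at h7
    linarith
  have hW2 : Real.exp (-(m * 25 + 125 * M / k + 1 + Real.log (6 * M))) ≤
      (h.choose (nd a g i) : ℝ) * pw (fun i => 1 / Real.log i) B S :=
    (Real.exp_le_exp.2 hexp).trans hW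
  calc |lc a g (2 * m) i| ≤ Real.exp (m * (6 + Real.log (M / m))) := hL
    _ = Real.exp (-(m * 25 + 125 * M / k + 1 + Real.log (6 * M))) *
        Real.exp (m * (31 + Real.log (M / m)) + 125 * M / k + 1 + Real.log (6 * M)) := by
        rw [← Real.exp_add]; congr 1; ring
    _ ≤ _ := mul_le_mul_of_nonneg_right hW2 (Real.exp_pos _).le

/-- blocks with prescribed probability of being empty -/
theorem block (k h m : ℕ) (B : Finset ℕ) (M ε : ℝ) (hk : 17 ≤ k) (hm : 1 ≤ m)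
    (hB : ∀ i ∈ B, 2 ^ k ≤ i ∧ i ≤ 2 ^ (k + 1)) (hh : B.card = h)
    (hM : M = h * (1 / (((k : ℝ) + 1) * Real.log 2))) (hmM : (m : ℝ) ≤ M)
    (hε0 : 0 ≤ pw (fun i => 1 / Real.log i) B ∅ + ε)
    (hε : |ε| ≤ Real.exp (-(m * (31 + Real.log (M / m)) + 125 * M / k + 1 + Real.log (6 * M)))) :
    ∃ ν : Finset ℕ → ℝ, (∀ S ⊆ B, 0 ≤ ν S) ∧
      (∀ T ⊆ B, T.card ≤ 2 * m → ∑ S ∈ B.powerset, (if T ⊆ S then ν S else 0) =
        ∏ i ∈ T, (1 / Real.log i)) ∧
      ν ∅ = pw (fun i => 1 / Real.log i) B ∅ + ε := by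
  obtain ⟨ha, hg, hah, hest⟩ := est k h m B M hk hm hB hh hM hmM
  set q : ℕ → ℝ := fun i => 1 / Real.log i with hq
  set a := ⌈M⌉₊
  set g := ⌈Real.sqrt (M / m)⌉₊
  have hq01 : ∀ i ∈ B, 0 ≤ q i ∧ q i ≤ 1 := by
    intro i hi
    have h1 := (hB i hi).1
    have h2 : 3 ≤ 2 ^ k := by
      calc 3 ≤ 2 ^ 17 := by norm_num
        _ ≤ 2 ^ k := Nat.pow_le_pow_right (by norm_num) hk
    exact ⟨div_nonneg zero_le_one (Real.log_natCast_nonneg i), (inv_log_lt_one (by omega)).le⟩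
  refine ⟨nuw q B (2 * m) a g ε, ?_, ?_, nuw_empty q B (2 * m) a g ε ha⟩
  · refine nuw_nonneg q B (2 * m) a g ε ha hg (by rw [hh]; exact hah) hq01 hε0 ?_
    intro i hi S hS hSc
    have h1 := hest i hi S hS hSc
    have h2 : 0 ≤ (h.choose (nd a g i) : ℝ) * pw q B S :=
      mul_nonneg (Nat.cast_nonneg _) (pw_nonneg hS (fun i hi => (hq01 i hi).1) fun i hi => (hq01 i hi).2)
    rw [hh]
    calc |ε| * |lc a g (2 * m) i| ≤
        Real.exp (-(m * (31 + Real.log (M / m)) + 125 * M / k + 1 + Real.log (6 * M))) *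
          (((h.choose (nd a g i) : ℝ) * pw q B S) *
          Real.exp (m * (31 + Real.log (M / m)) + 125 * M / k + 1 + Real.log (6 * M))) :=
          mul_le_mul hε h1 (abs_nonneg _) (Real.exp_pos _).le
      _ = ((h.choose (nd a g i) : ℝ) * pw q B S) *
          (Real.exp (-(m * (31 + Real.log (M / m)) + 125 * M / k + 1 + Real.log (6 * M))) *
          Real.exp (m * (31 + Real.log (M / m)) + 125 * M / k + 1 + Real.log (6 * M))) := by ring
      _ = (h.choose (nd a g i) : ℝ) * pw q B S := by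
          rw [← Real.exp_add, neg_add_cancel, Real.exp_zero, mul_one]
  · intro T hT hTc
    exact nuw_moment q B (2 * m) a g ε hg (by rw [hh]; exact hah) T hT hTc

end Pool.Agent.W151.KW
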