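import Mathlib
import Pool.Agent.W151.KW.ES

/-! # Random sets with independent blocks -/

set_option autoImplicit false

namespace Pool.Agent.W151.KW

open Finset MeasureTheory

/-- finite sets of natural numbers, with the discrete sigma-algebra -/
structure FS where
  /-- the set -/
  set : Finset ℕ

instance : MeasurableSpace FS := ⊤

instance : DiscreteMeasurableSpace FS := ⟨fun _ => trivial⟩

/-- the law of a block -/
noncomputable def bm (B : Finset ℕ) (ν : Finset ℕ → ℝ) : Measure FS :=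
  ∑ S ∈ B.powerset, ENNReal.ofReal (ν S) • Measure.dirac (FS.mk S)

open Classical in
theorem bm_apply (B : Finset ℕ) (ν : Finset ℕ → ℝ) (hν : ∀ S ⊆ B, 0 ≤ ν S) (E : Set FS) :
    bm B ν E = ENNReal.ofReal (∑ S ∈ B.powerset, if FS.mk S ∈ E then ν S else 0) := by
  unfold bm
  rw [Measure.finset_sum_apply, ENNReal.ofReal_sum_of_nonneg]
  · refine Finset.sum_congr rfl fun S _ => ?_
    rw [Measure.smul_apply, Measure.dirac_apply' _ (MeasurableSet.of_discrete), smul_eq_mul]
    by_cases h : FS.mk S ∈ E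
    · rw [if_pos h, Set.indicator_of_mem h]
      simp
    · rw [if_neg h, Set.indicator_of_notMem h]
      simp
  · intro S hS
    split_ifs
    · exact hν S (mem_powerset.1 hS)
    · exact le_rfl

variable {ι : Type} [DecidableEq ι]

/-- a random set with independent blocks -/
theorem build (p : ℕ → ℝ) (hp : ∀ n, 0 ≤ p n) (β : ℕ → ι) (B : ι → Finset ℕ)
    (hB : ∀ z n, n ∈ B z ↔ β n = z) (κ : ι → ℕ) (ν : ι → Finset ℕ → ℝ)
    (hν0 : ∀ z, ∀ S ⊆ B z, 0 ≤ ν z S)
    (hν : ∀ z, ∀ T ⊆ B z, T.card ≤ κ z →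
      ∑ S ∈ (B z).powerset, (if T ⊆ S then ν z S else 0) = ∏ i ∈ T, p i) :
    ∃ μ : Measure (ι → FS), IsProbabilityMeasure μ ∧
      (∀ F : Finset ℕ, (∀ z, (F.filter (fun n => β n = z)).card ≤ κ z) →
        μ (⋂ n ∈ F, {ω | n ∈ (ω (β n)).set}) = ∏ n ∈ F, ENNReal.ofReal (p n)) ∧
      (∀ J : Finset ι, μ.real (⋂ z ∈ J, {ω | (ω z).set ≠ ∅}) = ∏ z ∈ J, (1 - ν z ∅)) ∧
      (∀ z, ∀ᵐ ω ∂μ, (ω z).set ⊆ B z) := by
  classical
  have hone : ∀ z, ∑ S ∈ (B z).powerset, ν z S = 1 := by
    intro z
    have := hν z ∅ (Finset.empty_subset _) (by simp)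
    simpa using this
  have hprob : ∀ z, IsProbabilityMeasure (bm (B z) (ν z)) := by
    intro z
    refine ⟨?_⟩
    rw [bm_apply _ _ (hν0 z)]
    simp only [Set.mem_univ, if_true]
    rw [hone z, ENNReal.ofReal_one]
  set μ : Measure (ι → FS) := Measure.infinitePi (fun z => bm (B z) (ν z)) with hμ
  refine ⟨μ, inferInstance, ?_, ?_, ?_⟩
  · intro F hF
    have e : (⋂ n ∈ F, {ω : ι → FS | n ∈ (ω (β n)).set}) =
        Set.pi (F.image β : Finset ι) (fun z => {S : FS | F.filter (fun n => β n = z) ⊆ S.set}) := by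
      ext ω
      simp only [Set.mem_iInter, Set.mem_setOf_eq, Set.mem_pi, Finset.mem_coe, Finset.mem_image]
      constructor
      · rintro h z ⟨n, _, rfl⟩ x hx
        rw [mem_filter] at hx
        have := h x hx.1
        rwa [hx.2] at this
      · intro h n hn
        exact h (β n) ⟨n, hn, rfl⟩ (mem_filter.2 ⟨hn, rfl⟩)
    rw [e, hμ, Measure.infinitePi_pi _ (fun i _ => MeasurableSet.of_discrete)]
    have h1 : ∀ z ∈ F.image β, (bm (B z) (ν z)) {S : FS | F.filter (fun n => β n = z) ⊆ S.set} =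
        ∏ n ∈ F.filter (fun n => β n = z), ENNReal.ofReal (p n) := by
      intro z _
      rw [bm_apply _ _ (hν0 z), ← ENNReal.ofReal_prod_of_nonneg fun n _ => hp n]
      congr 1
      have hsub : F.filter (fun n => β n = z) ⊆ B z := by
        intro n hn
        exact (hB z n).2 (mem_filter.1 hn).2
      rw [← hν z _ hsub (hF z)]
      refine Finset.sum_congr rfl fun S _ => ?_
      simp only [Set.mem_setOf_eq]
    rw [Finset.prod_congr rfl h1]
    exact Finset.prod_fiberwise_of_maps_to (fun n hn => Finset.mem_image_of_mem β hn) _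
  · intro J
    have e : (⋂ z ∈ J, {ω : ι → FS | (ω z).set ≠ ∅}) =
        Set.pi (J : Finset ι) (fun _ => {S : FS | S.set ≠ ∅}) := by
      ext ω
      simp
    rw [e, Measure.real, hμ, Measure.infinitePi_pi _ (fun i _ => MeasurableSet.of_discrete),
      ENNReal.toReal_prod]
    refine Finset.prod_congr rfl fun z _ => ?_
    rw [bm_apply _ _ (hν0 z), ENNReal.toReal_ofReal]
    · have h2 : ∑ S ∈ (B z).powerset, (ν z S - if S = ∅ then ν z S else 0) = 1 - ν z ∅ := by
        rw [Finset.sum_sub_distrib, hone z, Finset.sum_ite_eq' (B z).powerset ∅ (fun S => ν z S),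
          if_pos (Finset.empty_mem_powerset _)]
      rw [← h2]
      refine Finset.sum_congr rfl fun S _ => ?_
      by_cases h : S = ∅
      · rw [if_pos h, if_neg, sub_self]
        intro h3
        exact h3 h
      · rw [if_neg h, if_pos, sub_zero]
        exact h
    · refine Finset.sum_nonneg fun S hS => ?_
      split_ifs
      · exact hν0 z S (mem_powerset.1 hS)
      · exact le_rfl
  · intro z
    rw [ae_iff]
    have e : {ω : ι → FS | ¬ (ω z).set ⊆ B z} =
        Set.pi ({z} : Finset ι) (fun _ => {S : FS | ¬ S.set ⊆ B z}) := by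
      ext ω
      simp
    rw [e, hμ, Measure.infinitePi_pi _ (fun i _ => MeasurableSet.of_discrete), Finset.prod_singleton,
      bm_apply _ _ (hν0 z)]
    rw [ENNReal.ofReal_eq_zero]
    refine le_of_eq (Finset.sum_eq_zero fun S hS => ?_)
    rw [if_neg]
    intro h
    exact h (mem_powerset.1 hS)

end Pool.Agent.W151.KW
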