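import Mathlib
import Pool.Agent.W151.KW.Prod
import Pool.Agent.W151.KW.Est

/-! # Models with independent dyadic blocks -/

set_option autoImplicit false

namespace Pool.Agent.W151.KW

open Finset MeasureTheory

/-- the index of the block of `n` -/
def bi (g : ℕ → ℕ) (n : ℕ) : ℕ × ℕ := (Nat.log 2 n, n / 2 ^ g (Nat.log 2 n))

/-- the block of index `z` -/
def bl (g : ℕ → ℕ) (z : ℕ × ℕ) : Finset ℕ := (range (2 ^ (z.1 + 1))).filter (fun n => bi g n = z)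

theorem mem_bl (g : ℕ → ℕ) (z : ℕ × ℕ) (n : ℕ) : n ∈ bl g z ↔ bi g n = z := by
  unfold bl
  rw [mem_filter, mem_range]
  constructor
  · exact fun h => h.2
  · intro h
    refine ⟨?_, h⟩
    rw [← h]
    exact Nat.lt_pow_succ_log_self (by norm_num) n

/-- the admissible indices -/
def Good (g : ℕ → ℕ) (k0 : ℕ) (z : ℕ × ℕ) : Prop :=
  k0 ≤ z.1 ∧ 2 ^ (z.1 - g z.1) ≤ z.2 ∧ z.2 < 2 ^ (z.1 - g z.1 + 1)

theorem bl_good {g : ℕ → ℕ} {k b : ℕ} (hg : g k ≤ k) (h1 : 2 ^ (k - g k) ≤ b)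
    (h2 : b < 2 ^ (k - g k + 1)) : bl g (k, b) = Ico (b * 2 ^ g k) ((b + 1) * 2 ^ g k) ∧
      2 ^ k ≤ b * 2 ^ g k ∧ (b + 1) * 2 ^ g k ≤ 2 ^ (k + 1) := by
  have hp : 0 < 2 ^ g k := by positivity
  have e1 : 2 ^ (k - g k) * 2 ^ g k = 2 ^ k := by rw [← pow_add]; congr 1; omega
  have e2 : 2 ^ (k - g k + 1) * 2 ^ g k = 2 ^ (k + 1) := by rw [← pow_add]; congr 1; omega
  have h3 : 2 ^ k ≤ b * 2 ^ g k := by rw [← e1]; exact Nat.mul_le_mul_right _ h1
  have h4 : (b + 1) * 2 ^ g k ≤ 2 ^ (k + 1) := by rw [← e2]; exact Nat.mul_le_mul_right _ h2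
  refine ⟨?_, h3, h4⟩
  ext n
  rw [mem_bl, mem_Ico]
  unfold bi
  constructor
  · intro h
    rw [Prod.mk.injEq] at h
    obtain ⟨h5, h6⟩ := h
    rw [h5] at h6
    have h7 := Nat.div_mul_le_self n (2 ^ g k)
    rw [h6] at h7
    refine ⟨h7, ?_⟩
    have h8 : n / 2 ^ g k < b + 1 := by omega
    exact (Nat.div_lt_iff_lt_mul hp).1 h8
  · rintro ⟨h5, h6⟩
    have h7 : Nat.log 2 n = k := by
      apply Nat.log_eq_of_pow_le_of_lt_pow
      · exact h3.trans h5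
      · exact lt_of_lt_of_le h6 h4
    rw [h7]
    congr 1
    exact Nat.div_eq_of_lt_le h5 h6

/-- the probabilities -/
noncomputable def pr (n : ℕ) : ℝ := if 3 ≤ n then 1 / Real.log n else 0

theorem pr_nonneg (n : ℕ) : 0 ≤ pr n := by
  unfold pr
  split_ifs
  · exact div_nonneg zero_le_one (Real.log_natCast_nonneg n)
  · exact le_rfl

theorem pr_le_one (n : ℕ) : pr n ≤ 1 := by
  unfold pr
  split_ifs with h
  · exact (inv_log_lt_one h).le
  · exact zero_le_one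

/-- the events -/
def ev (g : ℕ → ℕ) (n : ℕ) : Set (ℕ × ℕ → FS) := {ω | n ∈ (ω (bi g n)).set}

theorem measurable_ev (g : ℕ → ℕ) (n : ℕ) : MeasurableSet (ev g n) := by
  have h1 : ev g n = (fun ω : ℕ × ℕ → FS => ω (bi g n)) ⁻¹' {S : FS | n ∈ S.set} := rfl
  rw [h1]
  exact (measurable_pi_apply _) MeasurableSet.of_discrete

/-- general block models -/
theorem model (K g : ℕ → ℕ) (kap : ℕ × ℕ → ℕ) (ν : ℕ × ℕ → Finset ℕ → ℝ)
    (hkap : ∀ z, 1 ≤ kap z)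
    (hK2 : ∀ n i, n ≤ i → K n ≤ kap (bi g i))
    (hν0 : ∀ z, ∀ S ⊆ bl g z, 0 ≤ ν z S)
    (hν : ∀ z, ∀ T ⊆ bl g z, T.card ≤ kap z →
      ∑ S ∈ (bl g z).powerset, (if T ⊆ S then ν z S else 0) = ∏ i ∈ T, pr i) :
    ∃ μ : Measure (ℕ × ℕ → FS), IsProbabilityMeasure μ ∧ IsModel μ K (ev g) ∧
      (∀ J : Finset (ℕ × ℕ), μ.real (⋂ z ∈ J, {ω | (ω z).set ≠ ∅}) = ∏ z ∈ J, (1 - ν z ∅)) ∧
      (∀ᵐ ω ∂μ, ∀ z, (ω z).set ⊆ bl g z) := by
  obtain ⟨μ, h1, h2, h3, h4⟩ := build pr pr_nonneg (bi g) (bl g) (mem_bl g) kap ν hν0 hν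
  have hp : ∀ n, μ (ev g n) = ENNReal.ofReal (pr n) := by
    intro n
    have h5 := h2 {n} (fun z => (Finset.card_filter_le _ _).trans (by rw [card_singleton]; exact hkap z))
    simpa [ev] using h5
  refine ⟨μ, h1, ⟨measurable_ev g, ?_, ?_⟩, h3, ae_all_iff.2 h4⟩
  · intro n hn
    rw [hp, pr, if_pos hn]
  · intro n F hF hc
    have h5 := h2 F ?_
    · rw [Finset.prod_congr rfl fun i _ => hp i]
      exact h5
    · intro z
      rcases (F.filter (fun n => bi g n = z)).eq_empty_or_nonempty with h6 | ⟨i, hi⟩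
      · rw [h6]; simp
      · rw [mem_filter] at hi
        calc _ ≤ F.card := Finset.card_filter_le _ _
          _ ≤ K n := hc
          _ ≤ kap (bi g i) := hK2 n i (hF i hi.1)
          _ = kap z := by rw [hi.2]

/-- the independent model -/
theorem indep_model (K : ℕ → ℕ) : ∃ μ : Measure (ℕ × ℕ → FS), IsProbabilityMeasure μ ∧
    IsModel μ K (ev (fun _ => 0)) := by
  classical
  set kap : ℕ × ℕ → ℕ := fun z => (range (2 ^ (z.1 + 1))).sup K + 1 with hkap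
  have hK2 : ∀ n i, n ≤ i → K n ≤ kap (bi (fun _ => 0) i) := by
    intro n i hni
    rw [hkap]
    have h1 : n ∈ range (2 ^ ((bi (fun _ => 0) i).1 + 1)) := by
      rw [mem_range]
      exact lt_of_le_of_lt hni (Nat.lt_pow_succ_log_self (by norm_num) i)
    exact (Finset.le_sup (f := K) h1).trans (Nat.le_succ _)
  obtain ⟨μ, h1, h2, -, -⟩ := model K (fun _ => 0) kap
    (fun z => pw pr (bl (fun _ => 0) z)) (fun z => Nat.le_add_left _ _) hK2
    (fun z S hS => pw_nonneg hS (fun i _ => pr_nonneg i) fun i _ => pr_le_one i)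
    (fun z T hT _ => sum_pw pr _ T hT)
  exact ⟨μ, h1, h2⟩

/-- expected number of elements of a block -/
noncomputable def Mk (g : ℕ → ℕ) (k : ℕ) : ℝ := ((2 ^ g k : ℕ) : ℝ) * (1 / (((k : ℝ) + 1) * Real.log 2))

theorem Mk_pos (g : ℕ → ℕ) (k : ℕ) : 0 < Mk g k := by
  have := Real.log_pos (show (1 : ℝ) < 2 by norm_num)
  unfold Mk
  positivity

theorem pw_empty_le {g : ℕ → ℕ} {k b : ℕ} (hk : 2 ≤ k) (hg : g k ≤ k) (h1 : 2 ^ (k - g k) ≤ b)
    (h2 : b < 2 ^ (k - g k + 1)) :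
    0 ≤ pw (fun i => 1 / Real.log i) (bl g (k, b)) ∅ ∧
    pw (fun i => 1 / Real.log i) (bl g (k, b)) ∅ ≤ Real.exp (-(Mk g k)) := by
  obtain ⟨h3, h4, h5⟩ := bl_good hg h1 h2
  have h44 : 4 ≤ 2 ^ k := by
    calc 4 = 2 ^ 2 := by norm_num
      _ ≤ 2 ^ k := Nat.pow_le_pow_right (by norm_num) hk
  have hmem : ∀ i ∈ bl g (k, b), 3 ≤ i ∧ i ≤ 2 ^ (k + 1) := by
    intro i hi
    rw [h3, mem_Ico] at hi
    omega
  refine ⟨pw_nonneg (empty_subset _) (fun i hi => div_nonneg zero_le_one (Real.log_natCast_nonneg i))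
    (fun i hi => (inv_log_lt_one (hmem i hi).1).le), ?_⟩
  unfold pw
  rw [Finset.prod_empty, one_mul, Finset.sdiff_empty]
  refine (prod_one_sub_le _ _ fun i hi => (inv_log_lt_one (hmem i hi).1).le).trans ?_
  apply Real.exp_le_exp.2
  apply neg_le_neg
  have h6 : ∀ i ∈ bl g (k, b), 1 / (((k : ℝ) + 1) * Real.log 2) ≤ 1 / Real.log i := by
    intro i hi
    have h7 := log_le_of (by have := (hmem i hi).1; omega : 0 < i) (hmem i hi).2
    push_cast at h7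
    have h8 : 0 < Real.log i := by
      have := one_lt_log_three
      have h9 : (3 : ℝ) ≤ i := by exact_mod_cast (hmem i hi).1
      have := Real.log_le_log (by norm_num) h9
      linarith
    exact one_div_le_one_div_of_le h8 h7
  have h7 : (bl g (k, b)).card = 2 ^ g k := by
    rw [h3, Nat.card_Ico, Nat.add_mul, one_mul, Nat.add_sub_cancel_left]
  calc Mk g k = ∑ _i ∈ bl g (k, b), 1 / (((k : ℝ) + 1) * Real.log 2) := by
        rw [Finset.sum_const, h7, nsmul_eq_mul]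
        rfl
    _ ≤ _ := Finset.sum_le_sum h6

/-- the exponent of the main estimate -/
noncomputable def ex (k m : ℕ) (M : ℝ) : ℝ :=
  m * (31 + Real.log (M / m)) + 125 * M / k + 1 + Real.log (6 * M)

/-- block models with prescribed probabilities of empty blocks -/
theorem exists_model (K g m : ℕ → ℕ) (ε : ℕ × ℕ → ℝ) (k0 : ℕ) (h17 : 17 ≤ k0)
    (hg : ∀ k, k0 ≤ k → g k ≤ k) (hm : ∀ k, k0 ≤ k → 1 ≤ m k)
    (hK : ∀ k, k0 ≤ k → ∀ n, n < 2 ^ (k + 1) → K n ≤ 2 * m k)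
    (hmM : ∀ k, k0 ≤ k → (m k : ℝ) ≤ Mk g k)
    (hε0 : ∀ z, Good g k0 z → 0 ≤ pw (fun i => 1 / Real.log i) (bl g z) ∅ + ε z)
    (hε : ∀ z, Good g k0 z → |ε z| ≤ Real.exp (-(ex z.1 (m z.1) (Mk g z.1)))) :
    ∃ μ : Measure (ℕ × ℕ → FS), IsProbabilityMeasure μ ∧ IsModel μ K (ev g) ∧
      (∀ J : Finset (ℕ × ℕ), (∀ z ∈ J, Good g k0 z) → μ.real (⋂ z ∈ J, {ω | (ω z).set ≠ ∅}) =
        ∏ z ∈ J, (1 - (pw (fun i => 1 / Real.log i) (bl g z) ∅ + ε z))) ∧
      (∀ᵐ ω ∂μ, ∀ z, (ω z).set ⊆ bl g z) := by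
  classical
  have key : ∀ z, ∃ ν : Finset ℕ → ℝ, (∀ S ⊆ bl g z, 0 ≤ ν S) ∧
      (∀ T ⊆ bl g z, (k0 ≤ z.1 → T.card ≤ 2 * m z.1) →
        ∑ S ∈ (bl g z).powerset, (if T ⊆ S then ν S else 0) = ∏ i ∈ T, pr i) ∧
      (Good g k0 z → ν ∅ = pw (fun i => 1 / Real.log i) (bl g z) ∅ + ε z) := by
    intro z
    by_cases hz : Good g k0 z
    · obtain ⟨k, b⟩ := z
      obtain ⟨hk, hb1, hb2⟩ := id hz
      simp only at hk hb1 hb2
      obtain ⟨h3, h4, h5⟩ := bl_good (hg k hk) hb1 hb2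
      have hmem : ∀ i ∈ bl g (k, b), 2 ^ k ≤ i ∧ i ≤ 2 ^ (k + 1) := by
        intro i hi
        rw [h3, mem_Ico] at hi
        omega
      have hcard : (bl g (k, b)).card = 2 ^ g k := by
        rw [h3, Nat.card_Ico, Nat.add_mul, one_mul, Nat.add_sub_cancel_left]
      have h17' : 3 ≤ 2 ^ k := by
        calc 3 ≤ 2 ^ 17 := by norm_num
          _ ≤ 2 ^ k := Nat.pow_le_pow_right (by norm_num) (h17.trans hk)
      obtain ⟨ν, n1, n2, n3⟩ := block k (2 ^ g k) (m k) (bl g (k, b)) (Mk g k) (ε (k, b))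
        (h17.trans hk) (hm k hk) hmem hcard rfl (hmM k hk) (hε0 _ hz) (hε _ hz)
      refine ⟨ν, n1, ?_, fun _ => n3⟩
      intro T hT hTc
      rw [n2 T hT (hTc hk)]
      refine Finset.prod_congr rfl fun i hi => ?_
      rw [pr, if_pos]
      have := (hmem i (hT hi)).1
      omega
    · exact ⟨pw pr (bl g z), fun S hS => pw_nonneg hS (fun i _ => pr_nonneg i) fun i _ => pr_le_one i,
        fun T hT _ => sum_pw pr _ T hT, fun h => absurd h hz⟩
  choose ν n1 n2 n3 using key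
  set kap : ℕ × ℕ → ℕ := fun z =>
    if k0 ≤ z.1 then 2 * m z.1 else (range (2 ^ (z.1 + 1))).sup K + 1 with hkap
  have hK2 : ∀ n i, n ≤ i → K n ≤ kap (bi g i) := by
    intro n i hni
    have h0 : n < 2 ^ ((bi g i).1 + 1) :=
      lt_of_le_of_lt hni (Nat.lt_pow_succ_log_self (by norm_num) i)
    rw [hkap]
    simp only
    split_ifs with h
    · exact hK _ h n h0
    · exact (Finset.le_sup (f := K) (mem_range.2 h0)).trans (Nat.le_succ _)
  have hk1 : ∀ z, 1 ≤ kap z := by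
    intro z
    rw [hkap]
    simp only
    split_ifs with h
    · have := hm _ h
      omega
    · exact Nat.le_add_left _ _
  have hk2 : ∀ z, ∀ T ⊆ bl g z, T.card ≤ kap z →
      ∑ S ∈ (bl g z).powerset, (if T ⊆ S then ν z S else 0) = ∏ i ∈ T, pr i := by
    intro z T hT hTc
    refine n2 z T hT fun h => ?_
    rw [hkap] at hTc
    simp only at hTc
    rwa [if_pos h] at hTc
  obtain ⟨μ, h1, h2, h3, h4⟩ := model K g kap ν hk1 hK2 n1 hk2
  refine ⟨μ, h1, h2, ?_, h4⟩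
  intro J hJ
  rw [h3 J]
  exact Finset.prod_congr rfl fun z hz => by rw [n3 z (hJ z hz)]

end Pool.Agent.W151.KW
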