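import Mathlib
import Pool.Agent.W151.KW.Mod
import Pool.Agent.W151.KW.Blk
import Pool.Agent.W151.KW.Det
import Pool.Agent.W150.SM.Prob

/-! # Block models whose blocks may be long (helper151) -/

set_option autoImplicit false

namespace Pool.Agent.W151.KW

open Finset MeasureTheory Filter

theorem measurable_ne (J : Finset (ℕ × ℕ)) :
    MeasurableSet (⋂ z ∈ J, {ω : ℕ × ℕ → FS | (ω z).set ≠ ∅}) := by
  refine Finset.measurableSet_biInter _ fun z _ => ?_
  have h1 : {ω : ℕ × ℕ → FS | (ω z).set ≠ ∅} = (fun ω : ℕ × ℕ → FS => ω z) ⁻¹' {S : FS | S.set ≠ ∅} := rfl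
  rw [h1]
  exact (measurable_pi_apply _) MeasurableSet.of_discrete

/-- block models with prescribed probabilities of empty blocks -/
theorem exists_model2 (K g m : ℕ → ℕ) (e : ℕ → ℝ) (k0 : ℕ) (h24 : 24 ≤ k0)
    (hg : ∀ k, k0 ≤ k → 2 * g k ≤ k) (hm : ∀ k, k0 ≤ k → 1 ≤ m k)
    (hK : ∀ k, k0 ≤ k → ∀ n, n < 2 ^ (k + 1) → K n ≤ 2 * m k + 1)
    (hmM : ∀ k, k0 ≤ k → (m k : ℝ) ≤ Mk g k) (he0 : ∀ k, 0 ≤ e k)
    (he : ∀ k, k0 ≤ k → e k ≤ Real.exp (-(m k * (67 + Real.log (2 * Mk g k / m k))))) :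
    ∃ μ : Measure (ℕ × ℕ → FS), IsProbabilityMeasure μ ∧ IsModel μ K (ev g) ∧
      (∀ J : Finset (ℕ × ℕ), (∀ z ∈ J, Good g k0 z) → μ.real (⋂ z ∈ J, {ω | (ω z).set ≠ ∅}) =
        ∏ z ∈ J, (1 - (pw (fun i => 1 / Real.log i) (bl g z) ∅ + e z.1))) ∧
      (∀ᵐ ω ∂μ, ∀ z, (ω z).set ⊆ bl g z) := by
  classical
  have hl2 := Real.log_pos (show (1 : ℝ) < 2 by norm_num)
  have hl2u := Real.log_two_lt_d9
  have hl2l := Real.log_two_gt_d9
  have key : ∀ z, ∃ ν : Finset ℕ → ℝ, (∀ S ⊆ bl g z, 0 ≤ ν S) ∧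
      (∀ T ⊆ bl g z, (k0 ≤ z.1 → T.card ≤ 2 * m z.1 + 1) →
        ∑ S ∈ (bl g z).powerset, (if T ⊆ S then ν S else 0) = ∏ i ∈ T, pr i) ∧
      (Good g k0 z → ν ∅ = pw (fun i => 1 / Real.log i) (bl g z) ∅ + e z.1) := by
    intro z
    by_cases hz : Good g k0 z
    · obtain ⟨k, b⟩ := z
      obtain ⟨hk, hb1, hb2⟩ := id hz
      simp only at hk hb1 hb2
      have hgk := hg k hk
      obtain ⟨h3, h4, h5⟩ := bl_good (by omega : g k ≤ k) hb1 hb2
      have hk24 : 24 ≤ k := h24.trans hk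
      have hk' : (24 : ℝ) ≤ k := by exact_mod_cast hk24
      have hcard : (bl g (k, b)).card = 2 ^ g k := by
        rw [h3, Nat.card_Ico, Nat.add_mul, one_mul, Nat.add_sub_cancel_left]
      have h17' : 3 ≤ 2 ^ k := by
        calc 3 ≤ 2 ^ 24 := by norm_num
          _ ≤ 2 ^ k := Nat.pow_le_pow_right (by norm_num) hk24
      have hgp : 0 < 2 ^ g k := by positivity
      have hb0 : 0 < b := lt_of_lt_of_le (by positivity) hb1
      have hbg : 2 ^ g k ≤ b := by
        refine le_trans (Nat.pow_le_pow_right (by norm_num) ?_) hb1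
        omega
      set L : ℕ := b * 2 ^ g k with hL
      set U : ℕ := (b + 1) * 2 ^ g k with hU
      have hLU : L ≤ U := Nat.mul_le_mul_right _ (Nat.le_succ b)
      have hL0 : 0 < L := by omega
      have hlL := le_log_of h4
      have hlU := log_le_of (by omega : 0 < U) h5
      push_cast at hlU
      have hLr : (0 : ℝ) < L := by exact_mod_cast hL0
      have hLUr : (L : ℝ) ≤ U := by exact_mod_cast hLU
      have hlLU : Real.log L ≤ Real.log U := Real.log_le_log hLr hLUr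
      have hL16 : 16 ≤ Real.log L := by nlinarith
      have hq : ∀ i ∈ bl g (k, b), 1 / Real.log U ≤ 1 / Real.log i ∧ 1 / Real.log i ≤ 1 / Real.log L := by
        intro i hi
        rw [h3, mem_Ico] at hi
        have h6 : (L : ℝ) ≤ i := by exact_mod_cast hi.1
        have h7 : (i : ℝ) ≤ U := by exact_mod_cast hi.2.le
        have h8 := Real.log_le_log hLr h6
        have h9 := Real.log_le_log (by linarith) h7
        exact ⟨one_div_le_one_div_of_le (by linarith) h9, one_div_le_one_div_of_le (by linarith) h8⟩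
      have hdiff : Real.log U - Real.log L ≤ 1 / b := by
        have hbr : (0 : ℝ) < b := by exact_mod_cast hb0
        have h6 : (U : ℝ) / L = 1 + 1 / b := by
          rw [hU, hL]
          push_cast
          field_simp
        rw [← Real.log_div (by linarith) hLr.ne', h6]
        have := Real.log_le_sub_one_of_pos (show (0 : ℝ) < 1 + 1 / b by positivity)
        linarith
      have hvar : ((2 ^ g k : ℕ) : ℝ) * (1 / Real.log L - 1 / Real.log U) ≤ 1 := by
        have hbr : (0 : ℝ) < b := by exact_mod_cast hb0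
        have h6 : 1 / Real.log L - 1 / Real.log U ≤ 1 / b := by
          have h7 : 1 / Real.log L - 1 / Real.log U = (Real.log U - Real.log L) / (Real.log L * Real.log U) := by
            have : Real.log L ≠ 0 := by linarith
            have : Real.log U ≠ 0 := by linarith
            field_simp
          rw [h7, div_le_iff₀ (by nlinarith)]
          have h8 : 1 / (b : ℝ) * 1 ≤ 1 / (b : ℝ) * (Real.log L * Real.log U) := by
            apply mul_le_mul_of_nonneg_left _ (by positivity)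
            nlinarith
          linarith
        calc ((2 ^ g k : ℕ) : ℝ) * (1 / Real.log L - 1 / Real.log U) ≤ (b : ℝ) * (1 / b) := by
              apply mul_le_mul (by exact_mod_cast hbg) h6 _ hbr.le
              have := one_div_le_one_div_of_le (by linarith : 0 < Real.log L) hlLU
              linarith
          _ = 1 := by field_simp
      have hMlow : Mk g k ≤ ((2 ^ g k : ℕ) : ℝ) * (1 / Real.log U) := by
        unfold Mk
        apply mul_le_mul_of_nonneg_left _ (Nat.cast_nonneg _)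
        exact one_div_le_one_div_of_le (by linarith) hlU
      have hMup : ((2 ^ g k : ℕ) : ℝ) * (1 / Real.log U) ≤ 2 * Mk g k := by
        unfold Mk
        rw [mul_comm 2, mul_assoc]
        apply mul_le_mul_of_nonneg_left _ (Nat.cast_nonneg _)
        rw [one_div_mul_eq_div, div_le_div_iff₀ (by linarith) (by positivity)]
        nlinarith
      have hmk := hmM k hk
      have hm1 : (1 : ℝ) ≤ m k := by exact_mod_cast hm k hk
      obtain ⟨ν, n1, n2, n3⟩ := block2 (2 ^ g k) (m k) (bl g (k, b)) (fun i => 1 / Real.log i)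
        (1 / Real.log U) (1 / Real.log L) (((2 ^ g k : ℕ) : ℝ) * (1 / Real.log U)) (e k)
        (hm k hk) hcard (one_div_pos.2 (by linarith)) hq
        (one_div_le_one_div_of_le (by norm_num) hL16) (one_div_le_one_div_of_le (by linarith) hlLU)
        hvar rfl (hmk.trans hMlow) (he0 k) (by
          refine (he k hk).trans (Real.exp_le_exp.2 ?_)
          have h6 : Real.log (((2 ^ g k : ℕ) : ℝ) * (1 / Real.log U) / m k) ≤
              Real.log (2 * Mk g k / m k) := by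
            apply Real.log_le_log
            · have : 0 < ((2 ^ g k : ℕ) : ℝ) * (1 / Real.log U) := by linarith
              positivity
            · gcongr
          have h7 : (m k : ℝ) * (67 + Real.log (((2 ^ g k : ℕ) : ℝ) * (1 / Real.log U) / m k)) ≤
              (m k : ℝ) * (67 + Real.log (2 * Mk g k / m k)) := by gcongr
          linarith)
      refine ⟨ν, n1, ?_, fun _ => n3⟩
      intro T hT hTc
      rw [n2 T hT (hTc hk)]
      refine Finset.prod_congr rfl fun i hi => ?_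
      rw [pr, if_pos]
      have := hT hi
      rw [h3, mem_Ico] at this
      omega
    · exact ⟨pw pr (bl g z), fun S hS => pw_nonneg hS (fun i _ => pr_nonneg i) fun i _ => pr_le_one i,
        fun T hT _ => sum_pw pr _ T hT, fun h => absurd h hz⟩
  choose ν n1 n2 n3 using key
  set kap : ℕ × ℕ → ℕ := fun z =>
    if k0 ≤ z.1 then 2 * m z.1 + 1 else (range (2 ^ (z.1 + 1))).sup K + 1 with hkap
  have hK2 : ∀ n i, n ≤ i → K n ≤ kap (bi g i) := by
    intro n i hni
    have h0 : n < 2 ^ ((bi g i).1 + 1) :=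
      lt_of_le_of_lt hni (Nat.lt_pow_succ_log_self (by norm_num) i)
    rw [hkap]
    simp only
    split_ifs with h
    · exact hK _ h n h0
    · exact (Finset.le_sup (f := K) (mem_range.2 h0)).trans (Nat.le_succ _)
  have hk1 : ∀ z, 1 ≤ kap z := by
    intro z
    rw [hkap]
    simp only
    split_ifs with h <;> exact Nat.le_add_left _ _
  have hk2 : ∀ z, ∀ T ⊆ bl g z, T.card ≤ kap z →
      ∑ S ∈ (bl g z).powerset, (if T ⊆ S then ν z S else 0) = ∏ i ∈ T, pr i := by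
    intro z T hT hTc
    refine n2 z T hT fun h => ?_
    rw [hkap] at hTc
    simp only at hTc
    rwa [if_pos h] at hTc
  obtain ⟨μ, h1, h2, h3, h4⟩ := model K g kap ν hk1 hK2 n1 hk2
  refine ⟨μ, h1, h2, ?_, h4⟩
  intro J hJ
  rw [h3 J]
  exact Finset.prod_congr rfl fun z hz => by rw [n3 z (hJ z hz)]

/-- models with long empty blocks -/
theorem sup_model2 (K g m : ℕ → ℕ) (k0 : ℕ) (h24 : 24 ≤ k0)
    (hg : ∀ k, k0 ≤ k → 2 * g k ≤ k) (hm : ∀ k, k0 ≤ k → 1 ≤ m k)
    (hK : ∀ k, k0 ≤ k → ∀ n, n < 2 ^ (k + 1) → K n ≤ 2 * m k + 1)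
    (hmM : ∀ k, k0 ≤ k → (m k : ℝ) ≤ Mk g k)
    (hs : ∀ k, k0 ≤ k → 2 * Real.log k ≤
      ((2 ^ (k - g k) : ℕ) : ℝ) * Real.exp (-(m k * (67 + Real.log (2 * Mk g k / m k))))) :
    ∃ μ : Measure (ℕ × ℕ → FS), IsProbabilityMeasure μ ∧ IsModel μ K (ev g) ∧
      ∀ᵐ ω ∂μ, ∀ᶠ k : ℕ in atTop, ∃ a H : ℕ, 2 ^ k ≤ a ∧ a ≤ 2 ^ (k + 1) ∧
        H + 1 = 2 ^ g k ∧ ∀ n ∈ Ioc a (a + H), ω ∉ ev g n := by
  classical
  set e : ℕ → ℝ := fun k => Real.exp (-(m k * (67 + Real.log (2 * Mk g k / m k)))) with he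
  have hpw : ∀ z, Good g k0 z → 0 ≤ pw (fun i => 1 / Real.log i) (bl g z) ∅ := by
    rintro ⟨k, b⟩ ⟨h1, h2, h3⟩
    simp only at h1 h2 h3
    have h4 := hg k h1
    exact (pw_empty_le (by omega : 2 ≤ k) (by omega : g k ≤ k) h2 h3).1
  obtain ⟨μ, hμ, hM, hJ, hsub⟩ := exists_model2 K g m e k0 h24 hg hm hK hmM
    (fun k => (Real.exp_pos _).le) (fun k _ => le_rfl)
  refine ⟨μ, hμ, hM, ?_⟩
  have hsum2 : Summable (fun k : ℕ => 1 / (k : ℝ) ^ 2) := Real.summable_one_div_nat_pow.2 (by norm_num)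
  have hexp2 : ∀ k, k0 ≤ k → Real.exp (-(2 * Real.log k)) = 1 / (k : ℝ) ^ 2 := by
    intro k hk
    have h1 : (0 : ℝ) < k := by exact_mod_cast (by omega : 0 < k)
    rw [show (2 : ℝ) * Real.log k = Real.log ((k : ℝ) ^ 2) by rw [Real.log_pow]; norm_num,
      Real.exp_neg, Real.exp_log (by positivity), one_div]
  have hemp : ∀ᵐ ω ∂μ, ∀ᶠ k : ℕ in atTop, ω ∉ (⋂ z ∈ (Ico (2 ^ (k - g k)) (2 ^ (k - g k + 1))).image
      (fun b => (k, b)), {ω : ℕ × ℕ → FS | (ω z).set ≠ ∅}) := by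
    refine Pool.Agent.W150.SM.bc hsum2 ?_
    refine eventually_atTop.2 ⟨k0, fun k hk => ?_⟩
    set J := (Ico (2 ^ (k - g k)) (2 ^ (k - g k + 1))).image (fun b => ((k, b) : ℕ × ℕ)) with hJd
    have hgood : ∀ z ∈ J, Good g k0 z ∧ z.1 = k := by
      intro z hz
      rw [hJd, Finset.mem_image] at hz
      obtain ⟨b, hb, rfl⟩ := hz
      rw [mem_Ico] at hb
      exact ⟨⟨hk, hb.1, hb.2⟩, rfl⟩
    rw [hJ J fun z hz => (hgood z hz).1]
    have hc1 : J.card = 2 ^ (k - g k) := by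
      rw [hJd, Finset.card_image_of_injective _ (fun a b h => (Prod.mk.inj h).2), Nat.card_Ico, pow_succ]
      omega
    calc ∏ z ∈ J, (1 - (pw (fun i => 1 / Real.log i) (bl g z) ∅ + e z.1)) ≤
        ∏ z ∈ J, Real.exp (-(e k)) := by
          refine Finset.prod_le_prod (fun z hz => ?_) fun z hz => ?_
          · have h1 := hJ {z} (by simpa using (hgood z hz).1)
            rw [Finset.prod_singleton] at h1
            rw [← h1]
            exact measureReal_nonneg
          · have h1 := hpw z (hgood z hz).1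
            have h3 := Real.add_one_le_exp (-(e k))
            rw [(hgood z hz).2]
            linarith
      _ = Real.exp (-(((2 ^ (k - g k) : ℕ) : ℝ) * e k)) := by
          rw [Finset.prod_const, hc1, ← Real.exp_nat_mul]
          congr 1
          ring
      _ ≤ Real.exp (-(2 * Real.log k)) := by
          apply Real.exp_le_exp.2
          apply neg_le_neg
          exact hs k hk
      _ = _ := hexp2 k hk
  filter_upwards [hemp, hsub] with ω h2 h3
  filter_upwards [h2, eventually_ge_atTop k0] with k hk hk0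
  rw [Set.mem_iInter₂] at hk
  push Not at hk
  obtain ⟨z, hz, hz2⟩ := hk
  rw [Finset.mem_image] at hz
  obtain ⟨b, hb, rfl⟩ := hz
  rw [mem_Ico] at hb
  have hgk := hg k hk0
  obtain ⟨h4, h5, h6⟩ := bl_good (by omega : g k ≤ k) hb.1 hb.2
  have hp : 0 < 2 ^ g k := by positivity
  refine ⟨b * 2 ^ g k, 2 ^ g k - 1, h5, ?_, by omega, ?_⟩
  · have : b * 2 ^ g k ≤ (b + 1) * 2 ^ g k := Nat.mul_le_mul_right _ (Nat.le_succ b)
    omega
  · intro n hn hn2
    have h7 : n ∈ bl g (k, b) := by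
      rw [h4, mem_Ico]
      rw [mem_Ioc] at hn
      rw [Nat.add_mul, one_mul]
      omega
    have h8 := (mem_bl g _ n).1 h7
    change n ∈ (ω (bi g n)).set at hn2
    rw [h8] at hn2
    have hz3 : (ω (k, b)).set = ∅ := by
      by_contra h
      exact hz2 (Finset.nonempty_iff_ne_empty.2 h)
    rw [hz3] at hn2
    exact absurd hn2 (Finset.notMem_empty n)

/-- a set that meets all blocks has short gaps -/
theorem gap_of_blocks {S : Set ℕ} (g : ℕ → ℕ) (k0 : ℕ) (hg : ∀ k, k0 ≤ k → g k ≤ k)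
    (hget : ∀ k b, k0 ≤ k → 2 ^ (k - g k) ≤ b → b < 2 ^ (k - g k + 1) →
      ∃ n ∈ S, b * 2 ^ g k ≤ n ∧ n < (b + 1) * 2 ^ g k) :
    ∀ k, k0 ≤ k → ∀ a : ℕ, 2 ^ k ≤ a → a < 2 ^ (k + 1) →
        ∃ n ∈ Ioc a (a + (2 * 2 ^ g k + 2 ^ g (k + 1))), n ∈ S := by
  intro k hk a ha1 ha2
  have hgk := hg k hk
  have hgk1 := hg (k + 1) (by omega)
  have hp : 0 < 2 ^ g k := by positivity
  have e1 : 2 ^ (k - g k) * 2 ^ g k = 2 ^ k := by rw [← pow_add]; congr 1; omega
  have e2 : 2 ^ (k - g k + 1) * 2 ^ g k = 2 ^ (k + 1) := by rw [← pow_add]; congr 1; omega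
  have e3 : 2 ^ (k + 1 - g (k + 1)) * 2 ^ g (k + 1) = 2 ^ (k + 1) := by
    rw [← pow_add]; congr 1; omega
  set b := a / 2 ^ g k with hb
  have hb1 : b * 2 ^ g k ≤ a := Nat.div_mul_le_self a _
  have hb2 : a < (b + 1) * 2 ^ g k := (Nat.div_lt_iff_lt_mul hp).1 (Nat.lt_succ_self b)
  have hb3 : 2 ^ (k - g k) ≤ b := by
    rw [hb, Nat.le_div_iff_mul_le hp, e1]; exact ha1
  have hb4 : b < 2 ^ (k - g k + 1) := by
    rw [hb, Nat.div_lt_iff_lt_mul hp, e2]; exact ha2
  rcases Nat.lt_or_ge (b + 1) (2 ^ (k - g k + 1)) with h3 | h3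
  · obtain ⟨n, hn1, hn2, hn3⟩ := hget k (b + 1) hk (by omega) h3
    refine ⟨n, ?_, hn1⟩
    rw [mem_Ioc]
    have e4 : (b + 1 + 1) * 2 ^ g k = b * 2 ^ g k + 2 * 2 ^ g k := by ring
    have hp2 : 0 < 2 ^ g (k + 1) := by positivity
    omega
  · have h4 : b + 1 = 2 ^ (k - g k + 1) := by omega
    obtain ⟨n, hn1, hn2, hn3⟩ := hget (k + 1) (2 ^ (k + 1 - g (k + 1))) (by omega) le_rfl
      (Nat.pow_lt_pow_right (by norm_num) (Nat.lt_succ_self _))
    refine ⟨n, ?_, hn1⟩
    rw [mem_Ioc]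
    rw [h4, e2] at hb2
    rw [Nat.add_mul, one_mul, e3] at hn3
    rw [e3] at hn2
    have h5 : 2 ^ (k + 1) = b * 2 ^ g k + 2 ^ g k := by rw [← e2, ← h4]; ring
    omega

/-- every model meets all blocks of suitable lengths -/
theorem upper_blocks {Ω : Type*} [MeasurableSpace Ω] {μ : Measure Ω} [IsProbabilityMeasure μ]
    {K : ℕ → ℕ} {A : ℕ → Set Ω} (hM : IsModel μ K A) (g m n0 : ℕ → ℕ) (k0 : ℕ) (h2 : 2 ≤ k0)
    (hg : ∀ k, k0 ≤ k → g k ≤ k) (hm : ∀ k, k0 ≤ k → 1 ≤ m k)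
    (hn0 : ∀ k, k0 ≤ k → n0 k ≤ 2 ^ k ∧ 2 * m k ≤ K (n0 k))
    (hmg : ∀ k, k0 ≤ k → 2 * m k ≤ 2 ^ g k) (b : ℕ → ℝ) (hb : Summable b)
    (hbk : ∀ k, k0 ≤ k → ((2 ^ (k - g k) : ℕ) : ℝ) *
      Real.exp (1 + Real.log (m k) - m k * (1 + Real.log (Mk g k / 2) - Real.log (m k))) ≤ b k) :
    ∀ᵐ ω ∂μ, ∀ᶠ k : ℕ in atTop, ∀ a : ℕ, 2 ^ k ≤ a → a < 2 ^ (k + 1) →
        ∃ n ∈ Ioc a (a + (2 * 2 ^ g k + 2 ^ g (k + 1))), ω ∈ A n := by
  classical
  have hl2 := Real.log_pos (show (1 : ℝ) < 2 by norm_num)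
  have h1 : ∀ k, k0 ≤ k → ∀ j ∈ Ico (2 ^ (k - g k)) (2 ^ (k - g k + 1)),
      μ.real (⋂ i ∈ bl g (k, j), (A i)ᶜ) ≤
      Real.exp (1 + Real.log (m k) - m k * (1 + Real.log (Mk g k / 2) - Real.log (m k))) := by
    intro k hk j hj
    rw [mem_Ico] at hj
    obtain ⟨h3, h4, h5⟩ := bl_good (hg k hk) hj.1 hj.2
    have hk2 : 2 ≤ k := h2.trans hk
    have h44 : 4 ≤ 2 ^ k := by
      calc 4 = 2 ^ 2 := by norm_num
        _ ≤ 2 ^ k := Nat.pow_le_pow_right (by norm_num) hk2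
    have hmem : ∀ i ∈ bl g (k, j), 2 ^ k ≤ i ∧ i ≤ 2 ^ (k + 1) := by
      intro i hi
      rw [h3, mem_Ico] at hi
      omega
    have hcard : (bl g (k, j)).card = 2 ^ g k := by
      rw [h3, Nat.card_Ico, Nat.add_mul, one_mul, Nat.add_sub_cancel_left]
    obtain ⟨hn1, hn2⟩ := hn0 k hk
    have hmg' := hmg k hk
    have hm1 := hm k hk
    have hM0 := Mk_pos g k
    refine emp_le hM.measurable (bl g (k, j)) (fun i => 1 / Real.log i) (m k)
      (1 / (((k : ℝ) + 1) * Real.log 2)) (Mk g k / 2) hm1 (by rw [hcard]; omega) (by positivity)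
      ?_ ?_ (by positivity) ?_ ?_
    · intro i hi
      have h6 := log_le_of (by have := (hmem i hi).1; omega : 0 < i) (hmem i hi).2
      push_cast at h6
      have h7 : 0 < Real.log i := by
        have := one_lt_log_three
        have h9 : (3 : ℝ) ≤ i := by
          have := (hmem i hi).1
          exact_mod_cast (by omega : 3 ≤ i)
        have := Real.log_le_log (by norm_num) h9
        linarith
      exact one_div_le_one_div_of_le h7 h6
    · intro i hi
      exact inv_log_lt_one (by have := (hmem i hi).1; omega)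
    · rw [hcard]
      unfold Mk
      rw [← div_mul_eq_mul_div]
      refine mul_le_mul_of_nonneg_right ?_ (by positivity)
      have h6 : 2 * (m k : ℝ) ≤ ((2 ^ g k : ℕ) : ℝ) := by exact_mod_cast hmg'
      linarith
    · intro S hS hSc
      have h6 : ∀ i ∈ S, n0 k ≤ i := fun i hi => hn1.trans (hmem i (hS hi)).1
      have h7 := hM.indep (n0 k) S h6 (hSc.trans hn2)
      rw [Measure.real, h7, ENNReal.toReal_prod]
      refine Finset.prod_congr rfl fun i hi => ?_
      exact hM.real_prob (by have := (hmem i (hS hi)).1; omega)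
  have h3 : ∀ᵐ ω ∂μ, ∀ᶠ k : ℕ in atTop, ω ∉ ⋃ j ∈ Ico (2 ^ (k - g k)) (2 ^ (k - g k + 1)),
      ⋂ i ∈ bl g (k, j), (A i)ᶜ := by
    refine Pool.Agent.W150.SM.bc hb ?_
    refine eventually_atTop.2 ⟨k0, fun k hk => ?_⟩
    refine (measureReal_biUnion_finset_le _ _).trans ?_
    refine le_trans ?_ (hbk k hk)
    refine (Finset.sum_le_sum fun j hj => h1 k hk j hj).trans ?_
    rw [Finset.sum_const, Nat.card_Ico, nsmul_eq_mul]
    have : 2 ^ (k - g k + 1) - 2 ^ (k - g k) = 2 ^ (k - g k) := by rw [pow_succ]; omega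
    rw [this]
  filter_upwards [h3] with ω hω
  obtain ⟨N, hN⟩ := eventually_atTop.1 hω
  refine eventually_atTop.2 ⟨max N k0, gap_of_blocks g (max N k0)
    (fun k hk => hg k ((le_max_right _ _).trans hk)) ?_⟩
  intro k j hk hj1 hj2
  have h4 := hN k ((le_max_left _ _).trans hk)
  have hk0 : k0 ≤ k := (le_max_right _ _).trans hk
  simp only [Set.mem_iUnion, Set.mem_iInter, Set.mem_compl_iff, not_exists, not_forall, not_not] at h4
  obtain ⟨i, hi, hi2⟩ := h4 j (mem_Ico.2 ⟨hj1, hj2⟩)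
  rw [(bl_good (hg k hk0) hj1 hj2).1, mem_Ico] at hi
  exact ⟨i, hi2, hi.1, hi.2⟩

end Pool.Agent.W151.KW
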