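import Mathlib
import Pool.Agent.W151.KW.Mod
import Pool.Agent.W151.KW.Det
import Pool.Agent.W150.SM.Prob

/-! # Models with large and with small gaps -/

set_option autoImplicit false

namespace Pool.Agent.W151.KW

open Finset MeasureTheory Filter

theorem le_ex {k m : ℕ} {M : ℝ} (hm : 1 ≤ m) (hM : (m : ℝ) ≤ M) : 32 ≤ ex k m M := by
  unfold ex
  have hm' : (1 : ℝ) ≤ m := by exact_mod_cast hm
  have h1 : 0 ≤ Real.log (M / m) := Real.log_nonneg (by rw [le_div_iff₀ (by linarith)]; linarith)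
  have h2 : 0 ≤ Real.log (6 * M) := Real.log_nonneg (by linarith)
  have h3 : 0 ≤ 125 * M / k := by
    have : 0 ≤ M := by linarith
    positivity
  nlinarith [mul_nonneg (by linarith : (0 : ℝ) ≤ m) h1]

/-- models with large gaps -/
theorem sup_model (K g m : ℕ → ℕ) (k0 : ℕ) (h17 : 17 ≤ k0)
    (hg : ∀ k, k0 ≤ k → g k ≤ k) (hm : ∀ k, k0 ≤ k → 1 ≤ m k)
    (hK : ∀ k, k0 ≤ k → ∀ n, n < 2 ^ (k + 1) → K n ≤ 2 * m k)
    (hmM : ∀ k, k0 ≤ k → (m k : ℝ) ≤ Mk g k)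
    (hc : ∀ k, k0 ≤ k → ex k (m k) (Mk g k) + 3 * Real.log k ≤ k * Real.log 2)
    (hs : ∀ k, k0 ≤ k → ((2 ^ g k : ℕ) : ℝ) * (2 * Real.log k) ≤ (k : ℝ) ^ 3)
    (hM2 : ∀ k, k0 ≤ k → 2 * Real.log k ≤ Mk g k) :
    ∃ μ : Measure (ℕ × ℕ → FS), IsProbabilityMeasure μ ∧ IsModel μ K (ev g) ∧
      ∀ᵐ ω ∂μ, {n | ω ∈ ev g n}.Infinite ∧ ∀ᶠ k : ℕ in atTop, ∃ a H : ℕ, 2 ^ k ≤ a ∧ a ≤ 2 ^ (k + 1) ∧
        H + 1 = 2 ^ g k ∧ ∀ n ∈ Ioc a (a + H), ω ∉ ev g n := by
  classical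
  have hl2 := Real.log_pos (show (1 : ℝ) < 2 by norm_num)
  have hkpos : ∀ k, k0 ≤ k → (0 : ℝ) < k := fun k hk => by exact_mod_cast (by omega : 0 < k)
  set ε : ℕ × ℕ → ℝ := fun z => (z.1 : ℝ) ^ 3 * (1 / 2 : ℝ) ^ z.1 with hε
  have hε0 : ∀ z, 0 ≤ ε z := fun z => by positivity
  have hεe : ∀ k, k0 ≤ k → (k : ℝ) ^ 3 * (1 / 2 : ℝ) ^ k = Real.exp (3 * Real.log k - k * Real.log 2) := by
    intro k hk
    have h1 := hkpos k hk
    rw [Real.exp_sub, show (3 : ℝ) * Real.log k = Real.log ((k : ℝ) ^ 3) by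
      rw [Real.log_pow]; norm_num, Real.exp_log (by positivity),
      show (k : ℝ) * Real.log 2 = Real.log ((2 : ℝ) ^ k) by rw [Real.log_pow],
      Real.exp_log (by positivity), one_div, inv_pow, div_eq_mul_inv]
  have hpw : ∀ z, Good g k0 z → 0 ≤ pw (fun i => 1 / Real.log i) (bl g z) ∅ ∧
      pw (fun i => 1 / Real.log i) (bl g z) ∅ ≤ Real.exp (-(Mk g z.1)) := by
    rintro ⟨k, b⟩ ⟨h1, h2, h3⟩
    exact pw_empty_le (by simp only at h1; omega) (hg k h1) h2 h3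
  obtain ⟨μ, hμ, hM, hJ, hsub⟩ := exists_model K g m ε k0 h17 hg hm hK hmM
    (fun z hz => add_nonneg (hpw z hz).1 (hε0 z)) (by
      rintro ⟨k, b⟩ ⟨h1, -, -⟩
      simp only at h1
      rw [abs_of_nonneg (hε0 _), hε]
      simp only
      rw [hεe k h1]
      apply Real.exp_le_exp.2
      have := hc k h1
      linarith)
  refine ⟨μ, hμ, hM, ?_⟩
  have hsum2 : Summable (fun k : ℕ => 1 / (k : ℝ) ^ 2) := Real.summable_one_div_nat_pow.2 (by norm_num)
  have hsum3 : Summable (fun k : ℕ => (k : ℝ) ^ 3 * (1 / 2 : ℝ) ^ k) :=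
    summable_pow_mul_geometric_of_norm_lt_one 3 (by
      rw [Real.norm_eq_abs, abs_of_pos (by norm_num)]; norm_num)
  have hexp2 : ∀ k, k0 ≤ k → Real.exp (-(2 * Real.log k)) = 1 / (k : ℝ) ^ 2 := by
    intro k hk
    have h1 := hkpos k hk
    rw [show (2 : ℝ) * Real.log k = Real.log ((k : ℝ) ^ 2) by rw [Real.log_pow]; norm_num,
      Real.exp_neg, Real.exp_log (by positivity), one_div]
  -- the set is infinite
  have hinf : ∀ᵐ ω ∂μ, ∀ᶠ k : ℕ in atTop, ω ∉ {ω : ℕ × ℕ → FS | (ω (k, 2 ^ (k - g k))).set = ∅} := by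
    refine Pool.Agent.W150.SM.bc (hsum2.add hsum3) ?_
    refine eventually_atTop.2 ⟨k0, fun k hk => ?_⟩
    have hgood : Good g k0 (k, 2 ^ (k - g k)) :=
      ⟨hk, le_rfl, Nat.pow_lt_pow_right (by norm_num) (Nat.lt_succ_self _)⟩
    have h1 := hJ {(k, 2 ^ (k - g k))} (by simpa using hgood)
    rw [Finset.prod_singleton] at h1
    have e : {ω : ℕ × ℕ → FS | (ω (k, 2 ^ (k - g k))).set = ∅} =
        (⋂ z ∈ ({(k, 2 ^ (k - g k))} : Finset (ℕ × ℕ)), {ω : ℕ × ℕ → FS | (ω z).set ≠ ∅})ᶜ := by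
      ext ω
      simp
    have hmeas : MeasurableSet (⋂ z ∈ ({(k, 2 ^ (k - g k))} : Finset (ℕ × ℕ)),
        {ω : ℕ × ℕ → FS | (ω z).set ≠ ∅}) := by
      refine Finset.measurableSet_biInter _ fun z _ => ?_
      have h1 : {ω : ℕ × ℕ → FS | (ω z).set ≠ ∅} = (fun ω : ℕ × ℕ → FS => ω z) ⁻¹' {S : FS | S.set ≠ ∅} := rfl
      rw [h1]
      exact (measurable_pi_apply _) MeasurableSet.of_discrete
    rw [e, probReal_compl_eq_one_sub hmeas, h1]
    have h2 := (hpw _ hgood).2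
    have h3 := hM2 k hk
    have h4 : Real.exp (-(Mk g k)) ≤ 1 / (k : ℝ) ^ 2 := by
      rw [← hexp2 k hk]
      exact Real.exp_le_exp.2 (by linarith)
    have h5 : ε (k, 2 ^ (k - g k)) = (k : ℝ) ^ 3 * (1 / 2 : ℝ) ^ k := rfl
    rw [h5]
    simp only at h2
    linarith
  -- empty blocks
  have hemp : ∀ᵐ ω ∂μ, ∀ᶠ k : ℕ in atTop, ω ∉ (⋂ z ∈ (Ico (2 ^ (k - g k)) (2 ^ (k - g k + 1))).image
      (fun b => (k, b)), {ω : ℕ × ℕ → FS | (ω z).set ≠ ∅}) := by
    refine Pool.Agent.W150.SM.bc hsum2 ?_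
    refine eventually_atTop.2 ⟨k0, fun k hk => ?_⟩
    set J := (Ico (2 ^ (k - g k)) (2 ^ (k - g k + 1))).image (fun b => ((k, b) : ℕ × ℕ)) with hJd
    have hgood : ∀ z ∈ J, Good g k0 z ∧ z.1 = k := by
      intro z hz
      rw [hJd, Finset.mem_image] at hz
      obtain ⟨b, hb, rfl⟩ := hz
      rw [mem_Ico] at hb
      exact ⟨⟨hk, hb.1, hb.2⟩, rfl⟩
    rw [hJ J fun z hz => (hgood z hz).1]
    have hc1 : J.card = 2 ^ (k - g k) := by
      rw [hJd, Finset.card_image_of_injective _ (fun a b h => (Prod.mk.inj h).2), Nat.card_Ico, pow_succ]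
      omega
    calc ∏ z ∈ J, (1 - (pw (fun i => 1 / Real.log i) (bl g z) ∅ + ε z)) ≤
        ∏ z ∈ J, Real.exp (-((k : ℝ) ^ 3 * (1 / 2 : ℝ) ^ k)) := by
          refine Finset.prod_le_prod (fun z hz => ?_) fun z hz => ?_
          · have h1 := hJ {z} (by simpa using (hgood z hz).1)
            rw [Finset.prod_singleton] at h1
            rw [← h1]
            exact measureReal_nonneg
          · have h1 := (hpw z (hgood z hz).1).1
            have h2 : ε z = (k : ℝ) ^ 3 * (1 / 2 : ℝ) ^ k := by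
              rw [hε]; simp only; rw [(hgood z hz).2]
            have h3 := Real.add_one_le_exp (-((k : ℝ) ^ 3 * (1 / 2 : ℝ) ^ k))
            rw [h2]
            linarith
      _ = Real.exp (-((k : ℝ) ^ 3 / ((2 ^ g k : ℕ) : ℝ))) := by
          rw [Finset.prod_const, hc1, ← Real.exp_nat_mul]
          congr 1
          have h1 : ((2 ^ (k - g k) : ℕ) : ℝ) * ((2 ^ g k : ℕ) : ℝ) = 2 ^ k := by
            have : 2 ^ (k - g k) * 2 ^ g k = 2 ^ k := by
              rw [← pow_add]; congr 1; have := hg k hk; omega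
            exact_mod_cast this
          have h2 : ((2 ^ g k : ℕ) : ℝ) ≠ 0 := by positivity
          have h3 : (1 / 2 : ℝ) ^ k = 1 / 2 ^ k := by rw [one_div_pow]
          rw [h3, ← h1]
          field_simp
      _ ≤ Real.exp (-(2 * Real.log k)) := by
          apply Real.exp_le_exp.2
          apply neg_le_neg
          rw [le_div_iff₀ (by positivity)]
          have := hs k hk
          linarith
      _ = _ := hexp2 k hk
  filter_upwards [hinf, hemp, hsub] with ω h1 h2 h3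
  constructor
  · obtain ⟨N, hN⟩ := eventually_atTop.1 h1
    rw [Set.infinite_iff_exists_gt]
    intro a
    set k := max (max N k0) a with hk
    have hk0 : k0 ≤ k := (le_max_right _ _).trans (le_max_left _ _)
    have h4 := hN k ((le_max_left _ _).trans (le_max_left _ _))
    obtain ⟨n, hn⟩ := Finset.nonempty_iff_ne_empty.2 h4
    have h5 := h3 _ hn
    have h6 := (mem_bl g _ n).1 h5
    refine ⟨n, ?_, ?_⟩
    · change n ∈ (ω (bi g n)).set
      rw [h6]; exact hn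
    · obtain ⟨h7, h8, -⟩ := bl_good (hg k hk0) le_rfl (Nat.pow_lt_pow_right (by norm_num) (Nat.lt_succ_self _))
      rw [h7, mem_Ico] at h5
      have h9 : k < 2 ^ k := Nat.lt_two_pow_self
      have h10 : a ≤ k := le_max_right _ _
      omega
  · filter_upwards [h2, eventually_ge_atTop k0] with k hk hk0
    rw [Set.mem_iInter₂] at hk
    push Not at hk
    obtain ⟨z, hz, hz2⟩ := hk
    rw [Finset.mem_image] at hz
    obtain ⟨b, hb, rfl⟩ := hz
    rw [mem_Ico] at hb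
    obtain ⟨h4, h5, h6⟩ := bl_good (hg k hk0) hb.1 hb.2
    have hp : 0 < 2 ^ g k := by positivity
    refine ⟨b * 2 ^ g k, 2 ^ g k - 1, h5, ?_, by omega, ?_⟩
    · have : b * 2 ^ g k ≤ (b + 1) * 2 ^ g k := Nat.mul_le_mul_right _ (Nat.le_succ b)
      omega
    · intro n hn hn2
      have h7 : n ∈ bl g (k, b) := by
        rw [h4, mem_Ico]
        rw [mem_Ioc] at hn
        rw [Nat.add_mul, one_mul]
        omega
      have h8 := (mem_bl g _ n).1 h7
      change n ∈ (ω (bi g n)).set at hn2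
      rw [h8] at hn2
      have hz3 : (ω (k, b)).set = ∅ := by
        by_contra h
        exact hz2 (Finset.nonempty_iff_ne_empty.2 h)
      rw [hz3] at hn2
      exact absurd hn2 (Finset.notMem_empty n)

/-- models with small gaps -/
theorem inf_model (K g m : ℕ → ℕ) (k0 : ℕ) (h17 : 17 ≤ k0)
    (hg : ∀ k, k0 ≤ k → g k ≤ k) (hm : ∀ k, k0 ≤ k → 1 ≤ m k)
    (hK : ∀ k, k0 ≤ k → ∀ n, n < 2 ^ (k + 1) → K n ≤ 2 * m k)
    (hmM : ∀ k, k0 ≤ k → (m k : ℝ) ≤ Mk g k)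
    (hc : ∀ k, k0 ≤ k → ex k (m k) (Mk g k) ≤ Mk g k) :
    ∃ μ : Measure (ℕ × ℕ → FS), IsProbabilityMeasure μ ∧ IsModel μ K (ev g) ∧
      ∀ᵐ ω ∂μ, ∀ᶠ k : ℕ in atTop, ∀ a : ℕ, 2 ^ k ≤ a → a < 2 ^ (k + 1) →
        ∃ n ∈ Ioc a (a + (2 * 2 ^ g k + 2 ^ g (k + 1))), ω ∈ ev g n := by
  classical
  set ε : ℕ × ℕ → ℝ := fun z => -(pw (fun i => 1 / Real.log i) (bl g z) ∅) with hε
  have hpw : ∀ z, Good g k0 z → 0 ≤ pw (fun i => 1 / Real.log i) (bl g z) ∅ ∧
      pw (fun i => 1 / Real.log i) (bl g z) ∅ ≤ Real.exp (-(Mk g z.1)) := by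
    rintro ⟨k, b⟩ ⟨h1, h2, h3⟩
    exact pw_empty_le (by simp only at h1; omega) (hg k h1) h2 h3
  obtain ⟨μ, hμ, hM, hJ, hsub⟩ := exists_model K g m ε k0 h17 hg hm hK hmM
    (fun z _ => by rw [hε]; simp only; linarith) (by
      intro z hz
      rw [hε]
      simp only
      rw [abs_neg, abs_of_nonneg (hpw z hz).1]
      refine (hpw z hz).2.trans (Real.exp_le_exp.2 ?_)
      have := hc z.1 hz.1
      linarith)
  refine ⟨μ, hμ, hM, ?_⟩
  have hne : ∀ᵐ ω ∂μ, ∀ z, Good g k0 z → (ω z).set ≠ ∅ := by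
    rw [ae_all_iff]
    intro z
    by_cases hz : Good g k0 z
    · have h1 := hJ {z} (by simpa using hz)
      rw [Finset.prod_singleton] at h1
      have h2 : μ.real (⋂ z' ∈ ({z} : Finset (ℕ × ℕ)), {ω : ℕ × ℕ → FS | (ω z').set ≠ ∅}) = 1 := by
        rw [h1, hε]; simp
      have hmeas : MeasurableSet (⋂ z' ∈ ({z} : Finset (ℕ × ℕ)),
          {ω : ℕ × ℕ → FS | (ω z').set ≠ ∅}) := by
        refine Finset.measurableSet_biInter _ fun z _ => ?_
        have h1 : {ω : ℕ × ℕ → FS | (ω z).set ≠ ∅} = (fun ω : ℕ × ℕ → FS => ω z) ⁻¹' {S : FS | S.set ≠ ∅} := rfl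
        rw [h1]
        exact (measurable_pi_apply _) MeasurableSet.of_discrete
      have h3 := probReal_compl_eq_one_sub (μ := μ) hmeas
      rw [h2, sub_self, measureReal_eq_zero_iff] at h3
      have h4 := (measure_eq_zero_iff_ae_notMem).1 h3
      filter_upwards [h4] with ω hω _
      simp only [Finset.mem_singleton, Set.iInter_iInter_eq_left, Set.mem_compl_iff, Set.mem_setOf_eq,
        not_not] at hω
      exact hω
    · exact Eventually.of_forall fun ω h => absurd h hz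
  filter_upwards [hne, hsub] with ω h1 h2
  have hget : ∀ k b, k0 ≤ k → 2 ^ (k - g k) ≤ b → b < 2 ^ (k - g k + 1) →
      ∃ n, ω ∈ ev g n ∧ b * 2 ^ g k ≤ n ∧ n < (b + 1) * 2 ^ g k := by
    intro k b hk hb1 hb2
    obtain ⟨n, hn⟩ := Finset.nonempty_iff_ne_empty.2 (h1 (k, b) ⟨hk, hb1, hb2⟩)
    have h5 := h2 _ hn
    have h6 := (mem_bl g _ n).1 h5
    rw [(bl_good (hg k hk) hb1 hb2).1, mem_Ico] at h5
    refine ⟨n, ?_, h5.1, h5.2⟩
    change n ∈ (ω (bi g n)).set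
    rw [h6]; exact hn
  refine eventually_atTop.2 ⟨k0, fun k hk a ha1 ha2 => ?_⟩
  have hgk := hg k hk
  have hgk1 := hg (k + 1) (by omega)
  have hp : 0 < 2 ^ g k := by positivity
  have e1 : 2 ^ (k - g k) * 2 ^ g k = 2 ^ k := by rw [← pow_add]; congr 1; omega
  have e2 : 2 ^ (k - g k + 1) * 2 ^ g k = 2 ^ (k + 1) := by rw [← pow_add]; congr 1; omega
  have e3 : 2 ^ (k + 1 - g (k + 1)) * 2 ^ g (k + 1) = 2 ^ (k + 1) := by
    rw [← pow_add]; congr 1; omega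
  set b := a / 2 ^ g k with hb
  have hb1 : b * 2 ^ g k ≤ a := Nat.div_mul_le_self a _
  have hb2 : a < (b + 1) * 2 ^ g k := (Nat.div_lt_iff_lt_mul hp).1 (Nat.lt_succ_self b)
  have hb3 : 2 ^ (k - g k) ≤ b := by
    rw [hb, Nat.le_div_iff_mul_le hp, e1]; exact ha1
  have hb4 : b < 2 ^ (k - g k + 1) := by
    rw [hb, Nat.div_lt_iff_lt_mul hp, e2]; exact ha2
  rcases Nat.lt_or_ge (b + 1) (2 ^ (k - g k + 1)) with h3 | h3
  · obtain ⟨n, hn1, hn2, hn3⟩ := hget k (b + 1) hk (by omega) h3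
    refine ⟨n, ?_, hn1⟩
    rw [mem_Ioc]
    have e4 : (b + 1 + 1) * 2 ^ g k = b * 2 ^ g k + 2 * 2 ^ g k := by ring
    have hp2 : 0 < 2 ^ g (k + 1) := by positivity
    omega
  · have h4 : b + 1 = 2 ^ (k - g k + 1) := by omega
    obtain ⟨n, hn1, hn2, hn3⟩ := hget (k + 1) (2 ^ (k + 1 - g (k + 1))) (by omega) le_rfl
      (Nat.pow_lt_pow_right (by norm_num) (Nat.lt_succ_self _))
    refine ⟨n, ?_, hn1⟩
    rw [mem_Ioc]
    rw [h4, e2] at hb2
    rw [Nat.add_mul, one_mul, e3] at hn3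
    rw [e3] at hn2
    have h5 : 2 ^ (k + 1) = b * 2 ^ g k + 2 ^ g k := by rw [← e2, ← h4]; ring
    omega

end Pool.Agent.W151.KW
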