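import Mathlib
import Pool.Agent.W151.KW.SupInf
import Pool.Agent.W150.SM.Det

/-! # Choice of the parameters -/

set_option autoImplicit false

namespace Pool.Agent.W151.KW

open Finset MeasureTheory Filter Topology
open Pool.Agent.H318R2.Cr

theorem ev_log {ε : ℝ} (hε : 0 < ε) : ∀ᶠ k : ℕ in atTop, Real.log k ≤ ε * k := by
  have h1 := (Real.isLittleO_log_id_atTop.comp_tendsto tendsto_natCast_atTop_atTop).bound hε
  filter_upwards [h1] with k hk
  simp only [Function.comp, id, Real.norm_eq_abs, Nat.abs_cast] at hk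
  exact (le_abs_self _).trans hk

theorem ev_nat (c : ℝ) : ∀ᶠ k : ℕ in atTop, c ≤ (k : ℝ) :=
  tendsto_natCast_atTop_atTop.eventually_ge_atTop c

theorem ev_pow (C : ℝ) : ∀ᶠ k : ℕ in atTop, C * (k : ℝ) ^ 2 ≤ 2 ^ k := by
  have h1 := tendsto_pow_const_div_const_pow_of_one_lt 2 (show (1 : ℝ) < 2 by norm_num)
  have h2 : 0 < 1 / (|C| + 1) := by positivity
  filter_upwards [h1.eventually_lt_const h2] with k hk
  rw [div_lt_div_iff₀ (by positivity) (by positivity)] at hk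
  have h3 : C * (k : ℝ) ^ 2 ≤ (|C| + 1) * (k : ℝ) ^ 2 := by
    refine mul_le_mul_of_nonneg_right ?_ (by positivity)
    linarith [le_abs_self C]
  linarith

/-- diagonal argument -/
theorem diag (P : ℕ → ℕ → Prop) (h : ∀ T, ∀ᶠ k in atTop, P T k) :
    ∃ t : ℕ → ℕ, Tendsto t atTop atTop ∧ ∀ᶠ k in atTop, P (t k) k := by
  classical
  have h1 : ∀ T, ∃ N, ∀ k, N ≤ k → P T k := fun T => eventually_atTop.1 (h T)
  choose N hN using h1
  set N' : ℕ → ℕ := fun T => T + ∑ i ∈ range (T + 1), N i with hN'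
  have hN1 : ∀ T, N T ≤ N' T := by
    intro T
    have := Finset.single_le_sum (f := N) (fun i _ => Nat.zero_le _) (mem_range.2 (Nat.lt_add_one T))
    rw [hN']
    simp only
    omega
  refine ⟨fun k => Nat.findGreatest (fun T => N' T ≤ k) k, ?_, ?_⟩
  · rw [tendsto_atTop]
    intro T
    refine eventually_atTop.2 ⟨N' T, fun k hk => ?_⟩
    refine Nat.le_findGreatest ?_ hk
    have : T ≤ N' T := Nat.le_add_right _ _
    omega
  · refine eventually_atTop.2 ⟨N' 0, fun k hk => ?_⟩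
    have h2 := Nat.findGreatest_spec (P := fun T => N' T ≤ k) (Nat.zero_le k) hk
    exact hN _ k ((hN1 _).trans h2)

theorem K_le {κ : ℝ} (hκ : 0 < κ) (k n : ℕ) (hn : n < 2 ^ (k + 1)) :
    ⌈2 * κ * Real.log n⌉₊ ≤ 2 * ⌈κ * (((k : ℝ) + 1) * Real.log 2)⌉₊ := by
  have hl2 := Real.log_pos (show (1 : ℝ) < 2 by norm_num)
  rw [Nat.ceil_le]
  push_cast
  have h1 : Real.log n ≤ ((k : ℝ) + 1) * Real.log 2 := by
    rcases Nat.eq_zero_or_pos n with h | h
    · subst h; simp; positivity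
    · have := log_le_of h hn.le
      push_cast at this
      exact this
  have h2 := Nat.le_ceil (κ * (((k : ℝ) + 1) * Real.log 2))
  nlinarith

/-- models with large gaps, of level `2 κ log n` -/
theorem sup_small {κ : ℝ} (h0 : 0 < κ) (h1 : κ ≤ 1 / 41) :
    ∃ (μ : Measure (ℕ × ℕ → FS)) (A : ℕ → Set (ℕ × ℕ → FS)), IsProbabilityMeasure μ ∧
      IsModel μ (fun n => ⌈2 * κ * Real.log n⌉₊) A ∧
      ∀ᵐ ω ∂μ, ((κ * Real.exp (1 / κ - 40) / 3 : ℝ) : EReal) ≤ cramerLimsup {n | ω ∈ A n} := by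
  have hl2 := Real.log_pos (show (1 : ℝ) < 2 by norm_num)
  have hl2u := Real.log_two_lt_d9
  have hl2l := Real.log_two_gt_d9
  set R : ℝ := Real.exp (1 / κ - 40) with hR
  have hκinv : 41 ≤ 1 / κ := by
    rw [le_div_iff₀ h0]; linarith
  have hR2 : 2 ≤ R := by
    have := Real.add_one_le_exp (1 / κ - 40)
    linarith
  set m : ℕ → ℕ := fun k => ⌈κ * (((k : ℝ) + 1) * Real.log 2)⌉₊ with hm
  set X : ℕ → ℕ := fun k => ⌊(m k : ℝ) * R * (((k : ℝ) + 1) * Real.log 2)⌋₊ with hX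
  set g : ℕ → ℕ := fun k => Nat.log 2 (X k) with hg
  have hm1 : ∀ k, 1 ≤ m k := fun k => Nat.one_le_ceil_iff.2 (by positivity)
  have hmge : ∀ k : ℕ, κ * (((k : ℝ) + 1) * Real.log 2) ≤ m k := fun k => Nat.le_ceil _
  have hmle : ∀ k : ℕ, (m k : ℝ) < κ * (((k : ℝ) + 1) * Real.log 2) + 1 :=
    fun k => Nat.ceil_lt_add_one (by positivity)
  have hgle : ∀ k : ℕ, 1 ≤ k → ((2 ^ g k : ℕ) : ℝ) ≤ (m k : ℝ) * R * (((k : ℝ) + 1) * Real.log 2) ∧
      (m k : ℝ) * R * (((k : ℝ) + 1) * Real.log 2) < 2 * ((2 ^ g k : ℕ) : ℝ) := by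
    intro k hk
    have hk' : (1 : ℝ) ≤ k := by exact_mod_cast hk
    have hm1' : (1 : ℝ) ≤ m k := by exact_mod_cast hm1 k
    have hx1 : 1 ≤ (m k : ℝ) * R * (((k : ℝ) + 1) * Real.log 2) := by
      have h2 : 2 ≤ (m k : ℝ) * R := by nlinarith
      have h3 : 1 ≤ ((k : ℝ) + 1) * Real.log 2 := by nlinarith
      nlinarith
    have hX0 : X k ≠ 0 := by
      have : 1 ≤ X k := (Nat.one_le_floor_iff _).2 hx1
      omega
    have h2 : 2 ^ g k ≤ X k := Nat.pow_log_le_self 2 hX0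
    have h3 : X k < 2 ^ (g k + 1) := Nat.lt_pow_succ_log_self (by norm_num) _
    have h4 : (X k : ℝ) ≤ _ := Nat.floor_le (by linarith)
    have h5 := Nat.lt_floor_add_one ((m k : ℝ) * R * (((k : ℝ) + 1) * Real.log 2))
    constructor
    · have : ((2 ^ g k : ℕ) : ℝ) ≤ X k := by exact_mod_cast h2
      linarith
    · have h6 : (X k : ℝ) + 1 ≤ 2 * ((2 ^ g k : ℕ) : ℝ) := by
        rw [pow_succ] at h3
        exact_mod_cast (by omega : X k + 1 ≤ 2 * 2 ^ g k)
      linarith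
  have hMl : ∀ k : ℕ, 1 ≤ k → Mk g k ≤ m k * R ∧ m k ≤ Mk g k := by
    intro k hk
    have hL : 0 < ((k : ℝ) + 1) * Real.log 2 := by positivity
    obtain ⟨h2, h3⟩ := hgle k hk
    have hm1' : (1 : ℝ) ≤ m k := by exact_mod_cast hm1 k
    unfold Mk
    rw [mul_one_div]
    constructor
    · rw [div_le_iff₀ hL]; linarith
    · rw [le_div_iff₀ hL]
      nlinarith [mul_nonneg (mul_nonneg (by linarith : (0 : ℝ) ≤ (m k : ℝ)) (by linarith : 0 ≤ R - 2)) hL.le]
  obtain ⟨k0, hk0⟩ := eventually_atTop.1 ((((ev_log (ε := κ / 4) (by positivity)).and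
    (ev_log (ε := 1 / (4 * R)) (by positivity))).and (ev_nat ((5 + 2 / κ + 125 * R) / κ))).and
    ((ev_pow (2 * R)).and (ev_nat (8 / κ))))
  set k1 := max k0 17 with hk1
  have hcond : ∀ k, k1 ≤ k → 17 ≤ k ∧ (17 : ℝ) ≤ k ∧ Real.log k ≤ κ / 4 * k ∧ Real.log k ≤ 1 / (4 * R) * k ∧
      5 + 2 / κ + 125 * R ≤ κ * k ∧ 2 * R * (k : ℝ) ^ 2 ≤ 2 ^ k ∧ 8 ≤ κ * k := by
    intro k hk
    have h17 : 17 ≤ k := (le_max_right _ _).trans hk
    obtain ⟨⟨⟨a1, a2⟩, a3⟩, a4, a5⟩ := hk0 k ((le_max_left _ _).trans hk)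
    rw [div_le_iff₀ h0] at a3 a5
    exact ⟨h17, by exact_mod_cast h17, a1, a2, by linarith, a4, by linarith⟩
  have hmk : ∀ k, k1 ≤ k → (m k : ℝ) ≤ k := by
    intro k hk
    obtain ⟨-, h17, -⟩ := hcond k hk
    have h2 := hmle k
    have h3 : κ * (((k : ℝ) + 1) * Real.log 2) ≤ 1 / 41 * (((k : ℝ) + 1) * Real.log 2) := by gcongr
    nlinarith
  have hh2 : ∀ k, k1 ≤ k → ((2 ^ g k : ℕ) : ℝ) ≤ 2 * R * (k : ℝ) ^ 2 := by
    intro k hk
    obtain ⟨h17, h17', -⟩ := hcond k hk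
    have h2 := hmk k hk
    have h3 : ((k : ℝ) + 1) * Real.log 2 ≤ 2 * k := by nlinarith
    calc _ ≤ (m k : ℝ) * R * (((k : ℝ) + 1) * Real.log 2) := (hgle k (by omega)).1
      _ ≤ (k : ℝ) * R * (2 * k) := by gcongr
      _ = _ := by ring
  have c1 : ∀ k, k1 ≤ k → g k ≤ k := by
    intro k hk
    obtain ⟨h17, h17', -, -, -, h5, -⟩ := hcond k hk
    have h2 := (hh2 k hk).trans h5
    have h3 : 2 ^ g k ≤ 2 ^ k := by exact_mod_cast h2
    exact (Nat.pow_le_pow_iff_right (by norm_num)).1 h3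
  have c2 : ∀ k, k1 ≤ k → (m k : ℝ) ≤ Mk g k := by
    intro k hk
    exact (hMl k (by have := (hcond k hk).1; omega)).2
  have c3 : ∀ k, k1 ≤ k → ex k (m k) (Mk g k) + 3 * Real.log k ≤ k * Real.log 2 := by
    intro k hk
    obtain ⟨h17, h17', h3, h4, h5, h6, h7⟩ := hcond k hk
    obtain ⟨hM1, hM2⟩ := hMl k (by omega)
    have hm1' : (1 : ℝ) ≤ m k := by exact_mod_cast hm1 k
    have hM0 := Mk_pos g k
    have hmk' := hmk k hk
    have hlR : Real.log R = 1 / κ - 40 := by rw [hR, Real.log_exp]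
    have e1 : Real.log (Mk g k / m k) ≤ 1 / κ - 40 := by
      rw [← hlR]
      apply Real.log_le_log (by positivity)
      rw [div_le_iff₀ (by linarith)]
      linarith
    have e2 : (m k : ℝ) * (31 + Real.log (Mk g k / m k)) ≤
        (κ * (((k : ℝ) + 1) * Real.log 2) + 1) * (1 / κ - 9) := by
      calc (m k : ℝ) * (31 + Real.log (Mk g k / m k)) ≤ (m k : ℝ) * (1 / κ - 9) := by
            apply mul_le_mul_of_nonneg_left _ (by linarith)
            linarith
        _ ≤ _ := by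
            apply mul_le_mul_of_nonneg_right (hmle k).le
            linarith
    have e3 : 125 * Mk g k / k ≤ 125 * R := by
      rw [div_le_iff₀ (by linarith)]
      nlinarith
    have e4 : Real.log (6 * Mk g k) ≤ 2 + Real.log k + (1 / κ - 40) := by
      rw [← hlR]
      have h8 : 6 * Mk g k ≤ 6 * k * R := by nlinarith
      have h9 : Real.log (6 * k * R) = Real.log 6 + Real.log k + Real.log R := by
        rw [Real.log_mul (by positivity) (by positivity), Real.log_mul (by norm_num) (by positivity)]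
      have h10 : Real.log 6 ≤ 2 := by
        rw [Real.log_le_iff_le_exp (by norm_num)]
        have h11 : (2.7 : ℝ) ≤ Real.exp 1 := by linarith [Real.exp_one_gt_d9]
        calc (6 : ℝ) ≤ 2.7 ^ 2 := by norm_num
          _ ≤ Real.exp 1 ^ 2 := by gcongr
          _ = Real.exp 2 := by rw [← Real.exp_nat_mul]; norm_num
      have := Real.log_le_log (by positivity) h8
      linarith
    have e5 : (κ * (((k : ℝ) + 1) * Real.log 2) + 1) * (1 / κ - 9) =
        ((k : ℝ) + 1) * Real.log 2 - 9 * (κ * (((k : ℝ) + 1) * Real.log 2)) + 1 / κ - 9 := by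
      field_simp
      ring
    have e6 : 2 / κ = 2 * (1 / κ) := by ring
    rw [e5] at e2
    rw [e6] at h5
    unfold ex
    have e7 : 2 * (κ * k) ≤ 9 * (κ * (((k : ℝ) + 1) * Real.log 2)) := by
      have e8 : κ * k * 0.69 ≤ κ * (((k : ℝ) + 1) * Real.log 2) := by
        rw [mul_assoc]
        apply mul_le_mul_of_nonneg_left _ h0.le
        nlinarith
      have : 0 ≤ κ * k := by positivity
      linarith
    linarith
  have c4 : ∀ k, k1 ≤ k → ((2 ^ g k : ℕ) : ℝ) * (2 * Real.log k) ≤ (k : ℝ) ^ 3 := by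
    intro k hk
    obtain ⟨h17, h17', -, h4, -⟩ := hcond k hk
    have h2 := hh2 k hk
    have h3 : 0 ≤ Real.log k := Real.log_nonneg (by linarith)
    calc ((2 ^ g k : ℕ) : ℝ) * (2 * Real.log k) ≤ 2 * R * (k : ℝ) ^ 2 * (2 * (1 / (4 * R) * k)) := by
          gcongr
      _ = (k : ℝ) ^ 3 := by field_simp; norm_num
  have c5 : ∀ k, k1 ≤ k → 2 * Real.log k ≤ Mk g k := by
    intro k hk
    obtain ⟨h17, h17', h3, -⟩ := hcond k hk
    obtain ⟨hM1, hM2⟩ := hMl k (by omega)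
    have h4 := hmge k
    have h5 : κ * (k * (1 / 2)) ≤ κ * (((k : ℝ) + 1) * Real.log 2) := by
      apply mul_le_mul_of_nonneg_left _ h0.le
      nlinarith
    linarith
  obtain ⟨μ, hμ, hM, hω⟩ := sup_model (fun n => ⌈2 * κ * Real.log n⌉₊) g m k1 (le_max_right _ _) c1
    (fun k _ => hm1 k) (fun k _ n hn => K_le h0 k n hn) c2 c3 c4 c5
  refine ⟨μ, ev g, hμ, hM, ?_⟩
  filter_upwards [hω] with ω hω
  refine Pool.Agent.W150.SM.limsup_ge hω.1 (Eventually.frequently ?_)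
  filter_upwards [hω.2, eventually_ge_atTop k1] with k hk hkk
  obtain ⟨a, H, b1, b2, b3, b4⟩ := hk
  refine ⟨a, H, b1, b2, ?_, b4⟩
  obtain ⟨h17, h17', -, -, -, -, h8⟩ := hcond k hkk
  have h2 := (hgle k (by omega)).2
  have h3 := hmge k
  have h4 : (H : ℝ) + 1 = ((2 ^ g k : ℕ) : ℝ) := by exact_mod_cast b3
  set L : ℝ := ((k : ℝ) + 1) * Real.log 2 with hL
  have hL1 : 1 ≤ L := by nlinarith
  have hL2 : 5 ≤ κ * L := by nlinarith
  have h5 : κ * L * R * L ≤ (m k : ℝ) * R * L := by gcongr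
  have h6 : 10 ≤ κ * L * R * L := by
    calc (10 : ℝ) = 5 * 2 * 1 := by norm_num
      _ ≤ κ * L * R * L := by gcongr
  have h7 : κ * R / 3 * L ^ 2 = κ * L * R * L / 3 := by ring
  rw [h7]
  linarith

end Pool.Agent.W151.KW
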