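import Mathlib
import Pool.Agent.W151.KW.Mod2
import Pool.Agent.W151.KW.Par

/-! # Models with prescribed correlations of bounded order (helper151) -/

set_option autoImplicit false

namespace Pool.Agent.W151.KW

open Finset MeasureTheory Filter Topology

/-- from dyadic scales to real intervals -/
theorem real_of_blocks {S : Set ℕ} {β γ C : ℝ} (hβ : 0 ≤ β) (hβγ : β < γ) (hγ : γ ≤ 3 / 4) (hC : 0 < C)
    (H : ℕ → ℕ) (hH : ∀ k, (H k : ℝ) ≤ C * ((2 : ℝ) ^ k) ^ β)
    (ha : ∀ᶠ k : ℕ in atTop, ∀ a : ℕ, 2 ^ k ≤ a → a < 2 ^ (k + 1) → ∃ n ∈ Ioc a (a + H k), n ∈ S) :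
    ∀ᶠ x : ℝ in atTop, ∃ n ∈ S, x - x ^ γ < n ∧ (n : ℝ) < x := by
  obtain ⟨k₀, hk₀⟩ := eventually_atTop.1 ha
  have h1 : ∀ᶠ x : ℝ in atTop, C + 2 ≤ x ^ (γ - β) :=
    (tendsto_rpow_atTop (by linarith)).eventually_ge_atTop _
  filter_upwards [h1, eventually_ge_atTop ((2 : ℝ) ^ (k₀ + 2)), eventually_ge_atTop (16 : ℝ)] with x h2 h3 h4
  have hx0 : 0 < x := by linarith
  have hx1 : 1 ≤ x := by linarith
  have h5 : x ^ γ ≤ x / 2 := by
    have h6 : x ^ γ ≤ x ^ (3 / 4 : ℝ) := Real.rpow_le_rpow_of_exponent_le hx1 hγ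
    have h7 : x ^ (3 / 4 : ℝ) * x ^ (1 / 4 : ℝ) = x := by
      rw [← Real.rpow_add hx0]; norm_num
    have h8 : 2 ≤ x ^ (1 / 4 : ℝ) := by
      have : (16 : ℝ) ^ (1 / 4 : ℝ) ≤ x ^ (1 / 4 : ℝ) := Real.rpow_le_rpow (by norm_num) h4 (by norm_num)
      have h9 : (16 : ℝ) ^ (1 / 4 : ℝ) = 2 := by
        rw [show (16 : ℝ) = 2 ^ (4 : ℝ) by norm_num, ← Real.rpow_mul (by norm_num)]
        norm_num
      linarith
    have h10 : 0 ≤ x ^ (3 / 4 : ℝ) := by positivity
    nlinarith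
  have hbase : 0 ≤ x - x ^ γ := by linarith
  set a : ℕ := ⌊x - x ^ γ⌋₊ + 1 with ha'
  have ha1 : x - x ^ γ < a := by
    rw [ha']; push_cast; exact Nat.lt_floor_add_one _
  have ha2 : (a : ℝ) ≤ x - x ^ γ + 1 := by
    rw [ha']; push_cast
    have := Nat.floor_le hbase
    linarith
  have hxγ1 : 1 ≤ x ^ γ := Real.one_le_rpow hx1 (by linarith)
  have hax : (a : ℝ) ≤ x := by linarith
  have ha0 : a ≠ 0 := by omega
  set k := Nat.log 2 a with hk
  have hk1 : 2 ^ k ≤ a := Nat.pow_log_le_self 2 ha0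
  have hk2 : a < 2 ^ (k + 1) := Nat.lt_pow_succ_log_self (by norm_num) a
  have hk3 : k₀ ≤ k := by
    rw [hk, Nat.le_log_iff_pow_le (by norm_num) ha0]
    have h6 : (2 : ℝ) ^ k₀ ≤ a := by
      rw [pow_add] at h3
      have : (0 : ℝ) < 2 ^ k₀ := by positivity
      nlinarith
    exact_mod_cast h6
  obtain ⟨n, hn1, hn2⟩ := hk₀ k hk3 a hk1 hk2
  rw [mem_Ioc] at hn1
  refine ⟨n, hn2, ?_, ?_⟩
  · have : (a : ℝ) < n := by exact_mod_cast hn1.1
    linarith
  · have h6 : (n : ℝ) ≤ a + H k := by exact_mod_cast hn1.2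
    have h7 : (H k : ℝ) ≤ C * x ^ β := by
      refine (hH k).trans ?_
      refine mul_le_mul_of_nonneg_left ?_ hC.le
      refine Real.rpow_le_rpow (by positivity) ?_ hβ
      have : ((2 ^ k : ℕ) : ℝ) ≤ a := by exact_mod_cast hk1
      push_cast at this
      linarith
    have h8 : x ^ γ = x ^ β * x ^ (γ - β) := by rw [← Real.rpow_add hx0]; congr 1; ring
    have h9 : 1 ≤ x ^ β := Real.one_le_rpow hx1 hβ
    have h10 : x ^ β * (C + 2) ≤ x ^ γ := by rw [h8]; gcongr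
    nlinarith

/-- long empty intervals, in real form -/
theorem real_of_empty {S : Set ℕ} {γ : ℝ}
    (h : ∃ᶠ k : ℕ in atTop, ∃ a H : ℕ, 2 ^ k ≤ a ∧ a ≤ 2 ^ (k + 1) ∧ H + 1 ≤ 2 ^ (k + 1) ∧
      ((2 : ℝ) ^ (k + 2)) ^ γ ≤ (H : ℝ) + 1 ∧ ∀ n ∈ Ioc a (a + H), n ∉ S) (hγ : 0 ≤ γ) :
    ∃ᶠ x : ℝ in atTop, ∀ n ∈ S, ¬ (x - x ^ γ < n ∧ (n : ℝ) < x) := by
  rw [frequently_atTop]
  intro X
  obtain ⟨N, hN⟩ := exists_nat_ge X
  obtain ⟨k, hk, a, H, h1, h2, h3, h4, h5⟩ := (frequently_atTop.1 h) N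
  refine ⟨((a + H + 1 : ℕ) : ℝ), ?_, ?_⟩
  · have h6 : k < 2 ^ k := Nat.lt_two_pow_self
    have h7 : (N : ℝ) ≤ ((a + H + 1 : ℕ) : ℝ) := by exact_mod_cast (by omega : N ≤ a + H + 1)
    linarith
  · rintro n hn ⟨h6, h7⟩
    have h8 : n ≤ a + H := by
      have : n < a + H + 1 := by exact_mod_cast h7
      omega
    have h9 : (((a + H + 1 : ℕ) : ℝ)) ^ γ ≤ (H : ℝ) + 1 := by
      refine le_trans ?_ h4
      refine Real.rpow_le_rpow (Nat.cast_nonneg _) ?_ hγ
      have : a + H + 1 ≤ 2 ^ (k + 2) := by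
        have e : 2 ^ (k + 2) = 2 ^ (k + 1) + 2 ^ (k + 1) := by ring
        omega
      exact_mod_cast this
    have h10 : (a : ℝ) < n := by
      push_cast at h6 h9
      linarith
    have h11 : a < n := by exact_mod_cast h10
    exact h5 n (mem_Ioc.2 ⟨h11, h8⟩) hn

variable {Ω : Type*} [MeasurableSpace Ω] {μ : Measure Ω} {K : ℕ → ℕ} {A : ℕ → Set Ω}

theorem upper_fix_aux [IsProbabilityMeasure μ] (hM : IsModel μ K A) {m n0 : ℕ} (hm : 1 ≤ m)
    (hK : 2 * m ≤ K n0) {δ : ℝ} (hδ : 0 < δ) (hδ1 : δ ≤ 1 / 8) :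
    ∀ᵐ ω ∂μ, {n | ω ∈ A n}.Infinite ∧ ∀ᶠ x : ℝ in atTop, ∃ n, ω ∈ A n ∧
      x - x ^ (1 / ((m : ℝ) + 1) + 2 * δ) < n ∧ (n : ℝ) < x := by
  have hl2 := Real.log_pos (show (1 : ℝ) < 2 by norm_num)
  have hl2u := Real.log_two_lt_d9
  have hl2l := Real.log_two_gt_d9
  have hm' : (1 : ℝ) ≤ m := by exact_mod_cast hm
  set θ : ℝ := 1 / ((m : ℝ) + 1) with hθ
  have hθ0 : 0 < θ := by positivity
  have hθ1 : θ ≤ 1 / 2 := by
    rw [hθ]
    exact one_div_le_one_div_of_le (by norm_num) (by linarith)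
  have hθm : θ * (m + 1) = 1 := by rw [hθ]; field_simp
  set g : ℕ → ℕ := fun k => ⌈(θ + δ) * k⌉₊ with hg
  have hgge : ∀ k : ℕ, (θ + δ) * k ≤ g k := fun k => Nat.le_ceil _
  have hglt : ∀ k : ℕ, (g k : ℝ) < (θ + δ) * k + 1 := fun k => Nat.ceil_lt_add_one (by positivity)
  set c1 : ℝ := 1 + Real.log m + m * (1 + Real.log m) with hc1
  have hlm : 0 ≤ Real.log m := Real.log_nonneg hm'
  obtain ⟨k0, hk0⟩ := eventually_atTop.1 (((ev_nat ((n0 : ℝ) + 24)).and
    (ev_nat ((2 * m) / θ))).and ((ev_nat (2 * c1 / (δ * Real.log 2))).and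
    (ev_log (ε := δ * Real.log 2 / 4) (by positivity))))
  obtain ⟨k1, hk1⟩ := eventually_atTop.1 (ev_log (ε := δ * Real.log 2 / (4 * (m : ℝ))) (by positivity))
  have hcond : ∀ k, max k0 k1 ≤ k → n0 + 24 ≤ k ∧ (24 : ℝ) ≤ k ∧ 2 * (m : ℝ) ≤ θ * k ∧
      2 * c1 ≤ δ * Real.log 2 * k ∧ Real.log k ≤ δ * Real.log 2 / 4 * k ∧
      m * Real.log k ≤ δ * Real.log 2 / 4 * k := by
    intro k hk
    obtain ⟨⟨a1, a2⟩, a3, a4⟩ := hk0 k ((le_max_left _ _).trans hk)
    have a5 := hk1 k ((le_max_right _ _).trans hk)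
    rw [div_le_iff₀ hθ0] at a2
    rw [div_le_iff₀ (by positivity)] at a3
    have a6 : (0 : ℝ) ≤ n0 := Nat.cast_nonneg _
    refine ⟨by exact_mod_cast a1, by linarith, by linarith, by linarith, a4, ?_⟩
    calc m * Real.log k ≤ m * (δ * Real.log 2 / (4 * (m : ℝ)) * k) := by gcongr
      _ = δ * Real.log 2 / 4 * k := by field_simp
  have hgk : ∀ k, max k0 k1 ≤ k → g k ≤ k := by
    intro k hk
    obtain ⟨-, h24, -⟩ := hcond k hk
    have h1 := hglt k
    have h2 : (θ + δ) * k ≤ (5 / 8) * k := by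
      apply mul_le_mul_of_nonneg_right _ (by linarith)
      linarith
    have h3 : (g k : ℝ) ≤ k := by linarith
    exact_mod_cast h3
  have hsum2 : Summable (fun k : ℕ => 1 / (k : ℝ) ^ 2) := Real.summable_one_div_nat_pow.2 (by norm_num)
  have hmain := upper_blocks hM g (fun _ => m) (fun _ => n0) (max (max k0 k1) 2) (le_max_right _ _)
    (fun k hk => hgk k ((le_max_left _ _).trans hk)) (fun _ _ => hm)
    (fun k hk => by
      refine ⟨?_, hK⟩
      have h1 := (hcond k ((le_max_left _ _).trans hk)).1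
      have h2 : k < 2 ^ k := Nat.lt_two_pow_self
      omega)
    (fun k hk => by
      obtain ⟨-, h24, h1, -⟩ := hcond k ((le_max_left _ _).trans hk)
      have h2 := hgge k
      have h3 : 2 * (m : ℝ) ≤ g k := by nlinarith
      have h4 : 2 * m ≤ g k := by exact_mod_cast h3
      have h5 : g k < 2 ^ g k := Nat.lt_two_pow_self
      omega)
    (fun k => 1 / (k : ℝ) ^ 2) hsum2 (by
      intro k hk
      have hk' : max k0 k1 ≤ k := (le_max_left _ _).trans hk
      obtain ⟨-, h24, h1, h2, h3, h4⟩ := hcond k hk'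
      have hgk' := hgk k hk'
      have hk00 : (0 : ℝ) < k := by linarith
      have hM0 := Mk_pos g k
      have e1 : (1 : ℝ) / (k : ℝ) ^ 2 = Real.exp (-(2 * Real.log k)) := by
        rw [show (2 : ℝ) * Real.log k = Real.log ((k : ℝ) ^ 2) by rw [Real.log_pow]; norm_num,
          Real.exp_neg, Real.exp_log (by positivity), one_div]
      have e2 : ((2 ^ (k - g k) : ℕ) : ℝ) = Real.exp (((k : ℝ) - g k) * Real.log 2) := by
        push_cast
        rw [← Real.rpow_natCast, Real.rpow_def_of_pos (by norm_num), Nat.cast_sub hgk', mul_comm]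
      have e3 : (g k : ℝ) * Real.log 2 - Real.log k - 2 * Real.log 2 ≤ Real.log (Mk g k / 2) := by
        have h5 : ((2 ^ g k : ℕ) : ℝ) * (1 / (2 * k)) ≤ Mk g k := by
          unfold Mk
          apply mul_le_mul_of_nonneg_left _ (Nat.cast_nonneg _)
          apply one_div_le_one_div_of_le (by positivity)
          nlinarith
        have h6 : Real.log (((2 ^ g k : ℕ) : ℝ) * (1 / (2 * k)) / 2) ≤ Real.log (Mk g k / 2) := by
          apply Real.log_le_log (by positivity)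
          linarith
        have h7 : Real.log (((2 ^ g k : ℕ) : ℝ) * (1 / (2 * k)) / 2) =
            (g k : ℝ) * Real.log 2 - Real.log k - 2 * Real.log 2 := by
          rw [Real.log_div (by positivity) (by norm_num), Real.log_mul (by positivity) (by positivity),
            Real.log_div (by norm_num) (by positivity), Real.log_mul (by norm_num) (by positivity),
            Real.log_one]
          push_cast
          rw [Real.log_pow]
          ring
        linarith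
      rw [e1, e2, ← Real.exp_add]
      apply Real.exp_le_exp.2
      have e4 := hgge k
      have e5 : (m : ℝ) * ((g k : ℝ) * Real.log 2 - Real.log k - 2 * Real.log 2) ≤
          m * Real.log (Mk g k / 2) := by gcongr
      have e6 : (1 + δ * (m + 1)) * (k * Real.log 2) ≤ ((m : ℝ) + 1) * (g k * Real.log 2) := by
        have e7 : ((m : ℝ) + 1) * ((θ + δ) * k) ≤ ((m : ℝ) + 1) * g k := by gcongr
        have e8 : ((m : ℝ) + 1) * ((θ + δ) * k) = (1 + δ * (m + 1)) * k := by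
          calc ((m : ℝ) + 1) * ((θ + δ) * k) = (θ * (m + 1) + δ * (m + 1)) * k := by ring
            _ = _ := by rw [hθm]
        rw [e8] at e7
        nlinarith
      have e9 : δ * 1 * (k * Real.log 2) ≤ δ * (m + 1) * (k * Real.log 2) := by
        gcongr
        linarith
      have e10 : δ * (k * Real.log 2) * m ≤ δ * (m + 1) * (k * Real.log 2) := by
        have : 0 ≤ δ * (k * Real.log 2) := by positivity
        nlinarith
      rw [hc1] at h2
      have e11 : (m : ℝ) * (2 * Real.log 2) ≤ m * 2 := by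
        apply mul_le_mul_of_nonneg_left _ (by linarith)
        linarith
      have e12 : (m : ℝ) ≤ m * (1 + Real.log m) := by nlinarith
      nlinarith)
  filter_upwards [hmain] with ω hω
  refine ⟨infinite_of _ hω, ?_⟩
  have hC : (0 : ℝ) < 2 ^ (4 : ℝ) := by positivity
  refine real_of_blocks (S := {n | ω ∈ A n}) (β := θ + δ) (γ := θ + 2 * δ) (C := 2 ^ (4 : ℝ)) (by positivity)
    (by linarith) (by linarith) hC _ ?_ hω
  intro k
  have h1 : g k ≤ g (k + 1) := Nat.ceil_mono (by push_cast; nlinarith)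
  have h2 : 2 * 2 ^ g k + 2 ^ g (k + 1) ≤ 2 ^ (g (k + 1) + 2) := by
    have h3 : 2 ^ g k ≤ 2 ^ g (k + 1) := Nat.pow_le_pow_right (by norm_num) h1
    rw [pow_add]
    omega
  have h3 : ((2 * 2 ^ g k + 2 ^ g (k + 1) : ℕ) : ℝ) ≤ (2 : ℝ) ^ ((g (k + 1) : ℝ) + 2) := by
    calc ((2 * 2 ^ g k + 2 ^ g (k + 1) : ℕ) : ℝ) ≤ ((2 ^ (g (k + 1) + 2) : ℕ) : ℝ) := by exact_mod_cast h2
      _ = (2 : ℝ) ^ ((g (k + 1) : ℝ) + 2) := by
          push_cast
          rw [← Real.rpow_natCast]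
          push_cast
          rfl
  refine h3.trans ?_
  rw [← Real.rpow_natCast, ← Real.rpow_mul (by norm_num), ← Real.rpow_add (by norm_num)]
  apply Real.rpow_le_rpow_of_exponent_le (by norm_num)
  have h4 := hglt (k + 1)
  push_cast at h4
  have h5 : (θ + δ) * 1 ≤ 1 := by linarith
  linarith

/-- every model with correlations prescribed up to the order `2 m` -/
theorem upper_fix [IsProbabilityMeasure μ] (hM : IsModel μ K A) {m n0 : ℕ} (hm : 1 ≤ m)
    (hK : 2 * m ≤ K n0) :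
    ∀ᵐ ω ∂μ, {n | ω ∈ A n}.Infinite ∧ ∀ γ : ℝ, 1 / ((m : ℝ) + 1) < γ → ∀ᶠ x : ℝ in atTop,
      ∃ n, ω ∈ A n ∧ x - x ^ γ < n ∧ (n : ℝ) < x := by
  have h1 : ∀ᵐ ω ∂μ, ∀ j : ℕ, {n | ω ∈ A n}.Infinite ∧ ∀ᶠ x : ℝ in atTop, ∃ n, ω ∈ A n ∧
      x - x ^ (1 / ((m : ℝ) + 1) + 2 * (1 / ((j : ℝ) + 8))) < n ∧ (n : ℝ) < x := by
    rw [ae_all_iff]
    intro j
    exact upper_fix_aux hM hm hK (by positivity)
      (one_div_le_one_div_of_le (by norm_num) (by linarith [(Nat.cast_nonneg j : (0 : ℝ) ≤ j)]))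
  filter_upwards [h1] with ω hω
  refine ⟨(hω 0).1, ?_⟩
  intro γ hγ
  obtain ⟨j, hj⟩ := exists_nat_ge (2 / (γ - 1 / ((m : ℝ) + 1)))
  have hd : 0 < γ - 1 / ((m : ℝ) + 1) := by linarith
  rw [div_le_iff₀ hd] at hj
  have h2 : 1 / ((m : ℝ) + 1) + 2 * (1 / ((j : ℝ) + 8)) ≤ γ := by
    have h3 : (0 : ℝ) < (j : ℝ) + 8 := by positivity
    have h4 : 2 * (1 / ((j : ℝ) + 8)) ≤ γ - 1 / ((m : ℝ) + 1) := by
      rw [mul_one_div, div_le_iff₀ h3]
      nlinarith
    linarith
  filter_upwards [(hω j).2, eventually_ge_atTop (1 : ℝ)] with x hx hx1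
  obtain ⟨n, hn1, hn2, hn3⟩ := hx
  refine ⟨n, hn1, ?_, hn3⟩
  have := Real.rpow_le_rpow_of_exponent_le hx1 h2
  linarith

theorem IsModel.mono {K' : ℕ → ℕ} (hM : IsModel μ K' A) (h : ∀ n, K n ≤ K' n) : IsModel μ K A :=
  ⟨hM.measurable, hM.prob, fun n F hF hc => hM.indep n F hF (hc.trans (h n))⟩

/-- a model with correlations prescribed up to the order `2 m + 1` -/
theorem lower_fix {m : ℕ} (hm : 1 ≤ m) :
    ∃ (μ : Measure (ℕ × ℕ → FS)) (A : ℕ → Set (ℕ × ℕ → FS)), IsProbabilityMeasure μ ∧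
      IsModel μ (fun _ => 2 * m + 1) A ∧ ∀ᵐ ω ∂μ, ∀ γ : ℝ, 0 ≤ γ → γ < 1 / ((m : ℝ) + 1) →
      ∃ᶠ x : ℝ in atTop, ∀ n, ω ∈ A n → ¬ (x - x ^ γ < n ∧ (n : ℝ) < x) := by
  have hl2 := Real.log_pos (show (1 : ℝ) < 2 by norm_num)
  have hl2u := Real.log_two_lt_d9
  have hl2l := Real.log_two_gt_d9
  have hm' : (1 : ℝ) ≤ m := by exact_mod_cast hm
  set g : ℕ → ℕ := fun k => k / (m + 1) with hg
  have hgle : ∀ k, (m + 1) * g k ≤ k := fun k => Nat.mul_div_le k (m + 1)
  have hglt : ∀ k, k < (m + 1) * (g k + 1) := by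
    intro k
    have := Nat.lt_mul_div_succ k (by omega : 0 < m + 1)
    exact this
  have h2g : ∀ k, 2 * g k ≤ k := by
    intro k
    have h1 := hgle k
    have h2 : 2 * g k ≤ (m + 1) * g k := Nat.mul_le_mul_right _ (by omega)
    omega
  -- the condition on `M`
  have hMev : ∀ᶠ k : ℕ in atTop, (m : ℝ) ≤ Mk g k := by
    have h1 : Tendsto g atTop atTop := by
      rw [hg]
      exact Nat.tendsto_div_const_atTop (by omega)
    filter_upwards [h1.eventually (ev_pow (2 * m * ((m : ℝ) + 1))), h1.eventually_ge_atTop 1] with k hk hk1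
    unfold Mk
    rw [mul_one_div, le_div_iff₀ (by positivity)]
    have h2 : (k : ℝ) + 1 ≤ (m + 1) * (g k + 1) := by
      exact_mod_cast hglt k
    have h3 : (1 : ℝ) ≤ g k := by exact_mod_cast hk1
    push_cast
    calc (m : ℝ) * (((k : ℝ) + 1) * Real.log 2) ≤ m * ((((m : ℝ) + 1) * (g k + 1)) * 1) := by
          gcongr
          linarith
      _ ≤ m * ((((m : ℝ) + 1) * (2 * (g k : ℝ) ^ 2)) * 1) := by
          gcongr
          nlinarith
      _ = 2 * m * ((m : ℝ) + 1) * (g k : ℝ) ^ 2 := by ring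
      _ ≤ _ := hk
  obtain ⟨k0, hk0⟩ := eventually_atTop.1 (hMev.and ((ev_log (ε := Real.exp (-69) / 2) (by positivity)).and
    (ev_nat (Real.exp 69))))
  obtain ⟨μ, hμ, hM, hω⟩ := sup_model2 (fun _ => 2 * m + 1) g (fun _ => m) (max k0 24) (le_max_right _ _)
    (fun k _ => h2g k) (fun _ _ => hm) (fun _ _ _ _ => le_rfl)
    (fun k hk => (hk0 k ((le_max_left _ _).trans hk)).1) (by
      intro k hk
      obtain ⟨-, h1, h2⟩ := hk0 k ((le_max_left _ _).trans hk)
      have hk24 : (24 : ℝ) ≤ k := by exact_mod_cast (le_max_right _ _).trans hk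
      have hk00 : (0 : ℝ) < k := by linarith
      have hM0 := Mk_pos g k
      have hgk : g k ≤ k := by have := h2g k; omega
      have e2 : ((2 ^ (k - g k) : ℕ) : ℝ) = Real.exp (((k : ℝ) - g k) * Real.log 2) := by
        push_cast
        rw [← Real.rpow_natCast, Real.rpow_def_of_pos (by norm_num), Nat.cast_sub hgk, mul_comm]
      have e3 : Real.log (2 * Mk g k / m) ≤ (g k : ℝ) * Real.log 2 - Real.log k + 2 := by
        have h5 : Mk g k ≤ ((2 ^ g k : ℕ) : ℝ) * (1 / (k * Real.log 2)) := by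
          unfold Mk
          apply mul_le_mul_of_nonneg_left _ (Nat.cast_nonneg _)
          apply one_div_le_one_div_of_le (by positivity)
          nlinarith
        have h6 : 2 * Mk g k / m ≤ ((2 ^ g k : ℕ) : ℝ) / k * 3 := by
          rw [div_le_iff₀ (by linarith)]
          have h7 : 2 * Mk g k ≤ ((2 ^ g k : ℕ) : ℝ) / k * 3 := by
            calc 2 * Mk g k ≤ 2 * (((2 ^ g k : ℕ) : ℝ) * (1 / (k * Real.log 2))) := by gcongr
              _ = ((2 ^ g k : ℕ) : ℝ) / k * (2 / Real.log 2) := by field_simp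
              _ ≤ _ := by
                  apply mul_le_mul_of_nonneg_left _ (by positivity)
                  rw [div_le_iff₀ hl2]
                  linarith
          have h8 : 0 ≤ ((2 ^ g k : ℕ) : ℝ) / k * 3 := by positivity
          nlinarith
        have h9 := Real.log_le_log (by positivity) h6
        have h10 : Real.log (((2 ^ g k : ℕ) : ℝ) / k * 3) = (g k : ℝ) * Real.log 2 - Real.log k + Real.log 3 := by
          rw [Real.log_mul (by positivity) (by norm_num), Real.log_div (by positivity) hk00.ne']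
          push_cast
          rw [Real.log_pow]
        have h11 : Real.log 3 ≤ 2 := by
          have := Real.log_le_sub_one_of_pos (show (0 : ℝ) < 3 by norm_num)
          linarith
        linarith
      rw [e2, ← Real.exp_add]
      have e4 : (m : ℝ) * (67 + Real.log (2 * Mk g k / m)) ≤
          m * (67 + ((g k : ℝ) * Real.log 2 - Real.log k + 2)) := by gcongr
      have e5 : ((m : ℝ) + 1) * (g k * Real.log 2) ≤ k * Real.log 2 := by
        have : ((m : ℝ) + 1) * g k ≤ k := by exact_mod_cast hgle k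
        nlinarith
      have e6 : 69 ≤ Real.log k := by
        rw [Real.le_log_iff_exp_le hk00]
        exact h2
      have e7 : Real.log k - 69 ≤ m * (Real.log k - 69) := by nlinarith
      calc 2 * Real.log k ≤ 2 * (Real.exp (-69) / 2 * k) := by gcongr
        _ = Real.exp (Real.log k - 69) := by
            rw [Real.exp_sub, Real.exp_log hk00, Real.exp_neg]
            field_simp
        _ ≤ _ := by
            apply Real.exp_le_exp.2
            linarith)
  refine ⟨μ, ev g, hμ, hM, ?_⟩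
  filter_upwards [hω] with ω hω γ hγ0 hγ
  refine real_of_empty (S := {n | ω ∈ ev g n}) (Eventually.frequently ?_) hγ0
  have hd : 0 < 1 / ((m : ℝ) + 1) - γ := by linarith
  filter_upwards [hω, ev_nat (4 / (1 / ((m : ℝ) + 1) - γ))] with k hk hk2
  obtain ⟨a, H, b1, b2, b3, b4⟩ := hk
  rw [div_le_iff₀ hd] at hk2
  refine ⟨a, H, b1, b2, ?_, ?_, b4⟩
  · rw [b3]
    exact Nat.pow_le_pow_right (by norm_num) (by have := h2g k; omega)
  · have h4 : (H : ℝ) + 1 = (2 : ℝ) ^ (g k : ℝ) := by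
      rw [Real.rpow_natCast]
      exact_mod_cast b3
    rw [h4, ← Real.rpow_natCast, ← Real.rpow_mul (by norm_num)]
    apply Real.rpow_le_rpow_of_exponent_le (by norm_num)
    push_cast
    have h5 : (k : ℝ) / (m + 1) - 1 ≤ g k := by
      have h6 : (k : ℝ) + 1 ≤ (m + 1) * (g k + 1) := by exact_mod_cast hglt k
      rw [sub_le_iff_le_add, div_le_iff₀ (by linarith)]
      nlinarith
    have h6 : (k : ℝ) / (m + 1) = 1 / ((m : ℝ) + 1) * k := by ring
    have h7 : γ ≤ 1 := by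
      have : 1 / ((m : ℝ) + 1) ≤ 1 := by
        rw [div_le_one (by linarith)]; linarith
      linarith
    nlinarith

end Pool.Agent.W151.KW
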