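import Mathlib

/-! # The order of growth of the gaps of a set (helper151) -/

set_option autoImplicit false

namespace Pool.Agent.W151.KW

open Finset Filter Topology

/-- The order of the gaps of a set `S = {q₀ < q₁ < ...}` of natural numbers relative to `φ`:
`limsup log (q_{k+1} - q_k) / φ (q_k)`.  For `φ = log` it is the infimum of the exponents `θ` with
`q_{k+1} - q_k ≤ q_k ^ θ` for all large `k`; for `φ = log log` it is the infimum of the exponents `A`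
with `q_{k+1} - q_k ≤ (log q_k) ^ A` for all large `k`. -/
noncomputable def gapOrder (φ : ℕ → ℝ) (S : Set ℕ) : EReal :=
  Filter.limsup (fun k : ℕ => ((Real.log ((Nat.nth (· ∈ S) (k + 1) : ℝ) - Nat.nth (· ∈ S) k) /
    φ (Nat.nth (· ∈ S) k) : ℝ) : EReal)) Filter.atTop

theorem infinite_of' {S : Set ℕ} (H : ℕ → ℕ)
    (ha : ∀ᶠ k : ℕ in atTop, ∀ a : ℕ, 2 ^ k ≤ a → a < 2 ^ (k + 1) → ∃ n ∈ Ioc a (a + H k), n ∈ S) :
    S.Infinite := by
  obtain ⟨k₀, hk₀⟩ := eventually_atTop.1 ha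
  rw [Set.infinite_iff_exists_gt]
  intro N
  obtain ⟨n, hn1, hn2⟩ := hk₀ (max k₀ N) (le_max_left _ _) (2 ^ (max k₀ N)) le_rfl
    (Nat.pow_lt_pow_right (by norm_num) (Nat.lt_succ_self _))
  refine ⟨n, hn2, ?_⟩
  rw [mem_Ioc] at hn1
  have h1 : max k₀ N < 2 ^ (max k₀ N) := Nat.lt_two_pow_self
  have h2 : N ≤ max k₀ N := le_max_right _ _
  omega

/-- short gaps bound the order -/
theorem gapOrder_le {S : Set ℕ} {φ : ℕ → ℝ} {θ : ℝ} (H : ℕ → ℕ)
    (h1 : ∀ᶠ k : ℕ in atTop, ∀ q : ℕ, 2 ^ k ≤ q → q < 2 ^ (k + 1) →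
      0 < φ q ∧ Real.log (H k) ≤ θ * φ q)
    (ha : ∀ᶠ k : ℕ in atTop, ∀ a : ℕ, 2 ^ k ≤ a → a < 2 ^ (k + 1) → ∃ n ∈ Ioc a (a + H k), n ∈ S) :
    gapOrder φ S ≤ (θ : EReal) := by
  classical
  have hS : S.Infinite := infinite_of' H ha
  unfold gapOrder
  have hinf : (Set.ofPred (fun n : ℕ => n ∈ S)).Infinite := hS
  obtain ⟨k₀, hk₀⟩ := eventually_atTop.1 (h1.and ha)
  apply Filter.limsup_le_of_le
  · exact Filter.isCobounded_le_of_bot
  · refine eventually_atTop.2 ⟨2 ^ (k₀ + 1), fun i hi => ?_⟩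
    have h10 : i ≤ Nat.nth (· ∈ S) i := (Nat.nth_strictMono hinf).le_apply
    have h11 : Nat.nth (· ∈ S) i < Nat.nth (· ∈ S) (i + 1) := Nat.nth_strictMono hinf (Nat.lt_succ_self i)
    set q := Nat.nth (· ∈ S) i with hq
    set q' := Nat.nth (· ∈ S) (i + 1) with hq'
    have hq2 : 2 ^ (k₀ + 1) ≤ q := hi.trans h10
    have hq0 : q ≠ 0 := by
      have : 0 < 2 ^ (k₀ + 1) := by positivity
      omega
    set k := Nat.log 2 q with hk
    have hkk : k₀ + 1 ≤ k := (Nat.le_log_iff_pow_le (by norm_num) hq0).2 hq2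
    have hk1 : 2 ^ k ≤ q := Nat.pow_log_le_self 2 hq0
    have hk2 : q < 2 ^ (k + 1) := Nat.lt_pow_succ_log_self (by norm_num) q
    obtain ⟨c1, c3⟩ := hk₀ k (by omega)
    have key : ∀ s ∈ S, q < s → q' ≤ s := by
      intro s hs hqs
      by_contra hcon
      have := Nat.le_nth_of_lt_nth_succ (p := fun n => n ∈ S) (k := i) (a := s) (by omega) hs
      omega
    obtain ⟨s, hs1, hs2⟩ := c3 q hk1 hk2
    rw [mem_Ioc] at hs1
    have h3 := key s hs2 hs1.1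
    have h4 : (q' : ℝ) - q ≤ H k := by
      have : (q' : ℝ) ≤ q + H k := by exact_mod_cast (by omega : q' ≤ q + H k)
      linarith
    have h5 : (0 : ℝ) < (q' : ℝ) - q := by
      have : (q : ℝ) < q' := by exact_mod_cast h11
      linarith
    obtain ⟨h6, h7⟩ := c1 q hk1 hk2
    rw [EReal.coe_le_coe_iff, div_le_iff₀ h6]
    exact (Real.log_le_log h5 h4).trans h7

/-- long gaps bound the order from below -/
theorem le_gapOrder {S : Set ℕ} (hS : S.Infinite) {φ : ℕ → ℝ} {θ : ℝ} (N₀ : ℕ)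
    (hφ : ∀ q, N₀ ≤ q → 0 < φ q)
    (h : ∃ᶠ k : ℕ in atTop, ∃ a H : ℕ, 2 ^ k ≤ a ∧ a ≤ 2 ^ (k + 1) ∧ 1 ≤ H ∧
      (∀ q : ℕ, N₀ ≤ q → q ≤ 2 ^ (k + 1) → θ * φ q ≤ Real.log H) ∧ ∀ n ∈ Ioc a (a + H), n ∉ S) :
    (θ : EReal) ≤ gapOrder φ S := by
  classical
  unfold gapOrder
  refine Filter.le_limsup_of_frequently_le ?_ (by isBoundedDefault)
  · rw [frequently_atTop]
    intro N
    have hinf : (Set.ofPred (fun n : ℕ => n ∈ S)).Infinite := hS
    obtain ⟨k, hk, a, H, h1, h2, h0, h3, h4⟩ := (frequently_atTop.1 h) (Nat.nth (· ∈ S) (N + N₀ + 3))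
    have h5 : Nat.nth (· ∈ S) (N + N₀ + 3) < a + 1 := by
      have : k < 2 ^ k := Nat.lt_two_pow_self
      omega
    have h6 : N + N₀ + 3 < Nat.count (· ∈ S) (a + 1) := (Nat.lt_nth_iff_count_lt hinf).2 h5
    obtain ⟨i, hi⟩ : ∃ i, Nat.count (· ∈ S) (a + 1) = i + 1 := ⟨Nat.count (· ∈ S) (a + 1) - 1, by omega⟩
    refine ⟨i, by omega, ?_⟩
    have h7 : Nat.nth (· ∈ S) i < a + 1 := Nat.nth_lt_of_lt_count (by omega)
    have h8 : a + 1 ≤ Nat.nth (· ∈ S) (i + 1) := by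
      have := Nat.le_nth_count hinf (a + 1)
      rwa [hi] at this
    have h9 : a + H < Nat.nth (· ∈ S) (i + 1) := by
      by_contra hcon
      exact h4 _ (mem_Ioc.2 ⟨by omega, by omega⟩) (Nat.nth_mem_of_infinite hinf (i + 1))
    have h10 : i ≤ Nat.nth (· ∈ S) i := (Nat.nth_strictMono hinf).le_apply
    set q := Nat.nth (· ∈ S) i with hq
    set q' := Nat.nth (· ∈ S) (i + 1) with hq'
    have hHq : (H : ℝ) ≤ (q' : ℝ) - q := by
      have : (a : ℝ) + H < q' := by exact_mod_cast h9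
      have h12 : (q : ℝ) ≤ a := by exact_mod_cast (by omega : q ≤ a)
      linarith
    have hH0 : (0 : ℝ) < H := by exact_mod_cast h0
    rw [EReal.coe_le_coe_iff, le_div_iff₀ (hφ q (by omega))]
    exact (h3 q (by omega) (by omega)).trans (Real.log_le_log hH0 hHq)

end Pool.Agent.W151.KW
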