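import Mathlib
import Pool.Agent.W151.KW.Fix
import Pool.Agent.W151.KW.Gap

/-! # Models with prescribed correlations of order `log n / log log n` (helper151) -/

set_option autoImplicit false

namespace Pool.Agent.W151.KW

open Finset MeasureTheory Filter Topology

theorem ev_loglog {ε : ℝ} (hε : 0 < ε) : ∀ᶠ k : ℕ in atTop, Real.log (Real.log k) ≤ ε * Real.log k := by
  have h1 := (Real.isLittleO_log_id_atTop.comp_tendsto
    (Real.tendsto_log_atTop.comp tendsto_natCast_atTop_atTop)).bound hε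
  filter_upwards [h1, eventually_ge_atTop 1] with k hk hk1
  simp only [Function.comp, id, Real.norm_eq_abs] at hk
  have h2 : 0 ≤ Real.log k := Real.log_natCast_nonneg k
  rw [abs_of_nonneg h2] at hk
  exact (le_abs_self _).trans hk

theorem ev_loge (c : ℝ) : ∀ᶠ k : ℕ in atTop, c ≤ Real.log k :=
  (Real.tendsto_log_atTop.comp tendsto_natCast_atTop_atTop).eventually_ge_atTop c

/-- `log (k log 2)` -/
theorem logL {k : ℕ} (hk : 1 ≤ k) : Real.log ((k : ℝ) * Real.log 2) ≤ Real.log k ∧
    Real.log k - 1 / 2 ≤ Real.log ((k : ℝ) * Real.log 2) := by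
  have hl2 := Real.log_pos (show (1 : ℝ) < 2 by norm_num)
  have hl2u := Real.log_two_lt_d9
  have hl2l := Real.log_two_gt_d9
  have hk' : (1 : ℝ) ≤ k := by exact_mod_cast hk
  constructor
  · apply Real.log_le_log (by positivity)
    nlinarith
  · rw [Real.log_mul (by positivity) hl2.ne']
    have h1 : -(1 / 2) ≤ Real.log (Real.log 2) := by
      have h2 := Real.one_sub_inv_le_log_of_pos hl2
      have h3 : (Real.log 2)⁻¹ ≤ 3 / 2 := by
        rw [inv_le_comm₀ hl2 (by norm_num)]
        norm_num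
        linarith
      linarith
    linarith

variable {Ω : Type*} [MeasurableSpace Ω] {μ : Measure Ω} {K : ℕ → ℕ} {A : ℕ → Set Ω}

theorem upper_pol_aux [IsProbabilityMeasure μ] (hM : IsModel μ K A) {κ : ℝ} (hκ : 0 < κ)
    (hK : ∀ᶠ n : ℕ in atTop, 2 * κ * (Real.log n / Real.log (Real.log n)) ≤ K n) {δ : ℝ} (hδ : 0 < δ) :
    ∀ᵐ ω ∂μ, {n | ω ∈ A n}.Infinite ∧
      gapOrder (fun q => Real.log (Real.log q)) {n | ω ∈ A n} ≤ ((2 + 1 / κ + 2 * δ : ℝ) : EReal) := by
  have hl2 := Real.log_pos (show (1 : ℝ) < 2 by norm_num)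
  have hl2u := Real.log_two_lt_d9
  have hl2l := Real.log_two_gt_d9
  set B : ℝ := 2 + 1 / κ + δ with hB
  have hκi : 0 < 1 / κ := by positivity
  have hB2 : 2 < B := by rw [hB]; linarith
  set m : ℕ → ℕ := fun k => ⌊κ * ((k : ℝ) * Real.log 2 / Real.log ((k : ℝ) * Real.log 2))⌋₊ with hm
  set g : ℕ → ℕ := fun k => ⌈B * Real.log k / Real.log 2⌉₊ with hg
  have hgge : ∀ k : ℕ, B * Real.log k ≤ g k * Real.log 2 := by
    intro k
    have := Nat.le_ceil (B * Real.log k / Real.log 2)
    rwa [div_le_iff₀ hl2] at this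
  have hglt : ∀ k : ℕ, (g k : ℝ) * Real.log 2 ≤ B * Real.log k + Real.log 2 := by
    intro k
    have h1 : 0 ≤ Real.log k := Real.log_natCast_nonneg k
    have := (Nat.ceil_lt_add_one (show 0 ≤ B * Real.log k / Real.log 2 by positivity)).le
    have h2 : (g k : ℝ) * Real.log 2 ≤ (B * Real.log k / Real.log 2 + 1) * Real.log 2 :=
      mul_le_mul_of_nonneg_right this hl2.le
    have h3 : (B * Real.log k / Real.log 2 + 1) * Real.log 2 = B * Real.log k + Real.log 2 := by
      field_simp
    linarith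
  have hpow : Tendsto (fun k : ℕ => 2 ^ k) atTop atTop := tendsto_pow_atTop_atTop_of_one_lt (by norm_num)
  obtain ⟨k0, hk0⟩ := eventually_atTop.1 ((((hpow.eventually hK).and (ev_loge (3 * κ + 2))).and
    ((ev_log (ε := κ * Real.log 2) (by positivity)).and
    (ev_log (ε := Real.log 2 / (2 * B)) (by positivity)))).and
    (ev_log (ε := κ * δ * Real.log 2 / (B + 2)) (by positivity)))
  have hcond : ∀ k, max k0 24 ≤ k → 24 ≤ k ∧ (24 : ℝ) ≤ k ∧
      2 * κ * ((k : ℝ) * Real.log 2 / Real.log ((k : ℝ) * Real.log 2)) ≤ K (2 ^ k) ∧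
      3 * κ + 2 ≤ Real.log k ∧ Real.log k ≤ κ * Real.log 2 * k ∧ Real.log k ≤ Real.log 2 / (2 * B) * k ∧
      (B + 2) * Real.log k ≤ κ * δ * (k * Real.log 2) := by
    intro k hk
    have h24 : 24 ≤ k := (le_max_right _ _).trans hk
    obtain ⟨⟨⟨a1, a2⟩, a3, a4⟩, a5⟩ := hk0 k ((le_max_left _ _).trans hk)
    push_cast at a1
    rw [Real.log_pow] at a1
    refine ⟨h24, by exact_mod_cast h24, a1, a2, a3, a4, ?_⟩
    calc (B + 2) * Real.log k ≤ (B + 2) * (κ * δ * Real.log 2 / (B + 2) * k) := by gcongr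
      _ = κ * δ * (k * Real.log 2) := by field_simp
  have hmle : ∀ k, max k0 24 ≤ k → 1 ≤ m k ∧
      (m k : ℝ) ≤ κ * ((k : ℝ) * Real.log 2 / Real.log ((k : ℝ) * Real.log 2)) ∧
      κ * ((k : ℝ) * Real.log 2 / Real.log ((k : ℝ) * Real.log 2)) - 1 ≤ m k ∧ (m k : ℝ) ≤ k := by
    intro k hk
    obtain ⟨h24, h24', -, h1, h2, -⟩ := hcond k hk
    obtain ⟨h3, h4⟩ := logL (by omega : 1 ≤ k)
    have h5 : 1 ≤ Real.log ((k : ℝ) * Real.log 2) := by linarith
    have h6 : 1 ≤ κ * ((k : ℝ) * Real.log 2 / Real.log ((k : ℝ) * Real.log 2)) := by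
      rw [← mul_div_assoc, le_div_iff₀ (by linarith)]
      linarith
    have h7 := Nat.floor_le (show 0 ≤ κ * ((k : ℝ) * Real.log 2 / Real.log ((k : ℝ) * Real.log 2)) by linarith)
    have h8 := Nat.lt_floor_add_one (κ * ((k : ℝ) * Real.log 2 / Real.log ((k : ℝ) * Real.log 2)))
    have h9 : κ * ((k : ℝ) * Real.log 2 / Real.log ((k : ℝ) * Real.log 2)) ≤ k := by
      rw [← mul_div_assoc, div_le_iff₀ (by linarith)]
      have : (k : ℝ) * Real.log 2 ≤ k * 1 := by gcongr; linarith
      have h10 : κ ≤ Real.log ((k : ℝ) * Real.log 2) := by linarith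
      have h11 : (k : ℝ) * κ ≤ k * Real.log ((k : ℝ) * Real.log 2) := by gcongr
      nlinarith
    exact ⟨(Nat.one_le_floor_iff _).2 h6, h7, by linarith, h7.trans h9⟩
  have hgk : ∀ k, max k0 24 ≤ k → g k ≤ k := by
    intro k hk
    obtain ⟨h24, h24', -, -, -, h1, -⟩ := hcond k hk
    have h2 := hglt k
    have h3 : B * Real.log k ≤ B * (Real.log 2 / (2 * B) * k) := by gcongr
    have h4 : B * (Real.log 2 / (2 * B) * k) = Real.log 2 * k / 2 := by
      have : B ≠ 0 := by linarith
      field_simp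
    have h5 : (g k : ℝ) * Real.log 2 ≤ k * Real.log 2 := by nlinarith
    have h6 : (g k : ℝ) ≤ k := le_of_mul_le_mul_right h5 hl2
    exact_mod_cast h6
  have h2g : ∀ k, max k0 24 ≤ k → (k : ℝ) ^ 2 ≤ ((2 ^ g k : ℕ) : ℝ) := by
    intro k hk
    obtain ⟨h24, h24', -⟩ := hcond k hk
    have h1 := hgge k
    have hk00 : (0 : ℝ) < k := by linarith
    have h2 : 0 ≤ Real.log k := Real.log_natCast_nonneg k
    rw [← Real.log_le_log_iff (by positivity) (by positivity), Real.log_pow]
    push_cast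
    rw [Real.log_pow]
    nlinarith
  have hsum2 : Summable (fun k : ℕ => 1 / (k : ℝ) ^ 2) := Real.summable_one_div_nat_pow.2 (by norm_num)
  have hmain := upper_blocks hM g m (fun k => 2 ^ k) (max k0 24) (by omega)
    hgk (fun k hk => (hmle k hk).1)
    (fun k hk => by
      refine ⟨le_rfl, ?_⟩
      obtain ⟨-, -, h1, -⟩ := hcond k hk
      have h2 := (hmle k hk).2.1
      have h3 : 2 * (m k : ℝ) ≤ K (2 ^ k) := by linarith
      exact_mod_cast h3)
    (fun k hk => by
      obtain ⟨h24, h24', -⟩ := hcond k hk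
      have h1 := (hmle k hk).2.2.2
      have h2 := h2g k hk
      have h3 : 2 * (m k : ℝ) ≤ ((2 ^ g k : ℕ) : ℝ) := by nlinarith
      exact_mod_cast h3)
    (fun k => 1 / (k : ℝ) ^ 2) hsum2 (by
      intro k hk
      obtain ⟨h24, h24', -, h1, -, -, h2⟩ := hcond k hk
      obtain ⟨m1, m2, m3, m4⟩ := hmle k hk
      obtain ⟨l1, l2⟩ := logL (by omega : 1 ≤ k)
      have hgk' := hgk k hk
      have hk00 : (0 : ℝ) < k := by linarith
      have hM0 := Mk_pos g k
      have hm1 : (1 : ℝ) ≤ m k := by exact_mod_cast m1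
      set L : ℝ := (k : ℝ) * Real.log 2 with hL
      have hL0 : 0 < L := by positivity
      have hlL1 : 1 ≤ Real.log L := by linarith
      have e1 : (1 : ℝ) / (k : ℝ) ^ 2 = Real.exp (-(2 * Real.log k)) := by
        rw [show (2 : ℝ) * Real.log k = Real.log ((k : ℝ) ^ 2) by rw [Real.log_pow]; norm_num,
          Real.exp_neg, Real.exp_log (by positivity), one_div]
      have e2 : ((2 ^ (k - g k) : ℕ) : ℝ) = Real.exp (((k : ℝ) - g k) * Real.log 2) := by
        push_cast
        rw [← Real.rpow_natCast, Real.rpow_def_of_pos (by norm_num), Nat.cast_sub hgk', mul_comm]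
      have e3 : (g k : ℝ) * Real.log 2 - Real.log k - 2 * Real.log 2 ≤ Real.log (Mk g k / 2) := by
        have h5 : ((2 ^ g k : ℕ) : ℝ) * (1 / (2 * k)) ≤ Mk g k := by
          unfold Mk
          apply mul_le_mul_of_nonneg_left _ (Nat.cast_nonneg _)
          apply one_div_le_one_div_of_le (by positivity)
          nlinarith
        have h6 : Real.log (((2 ^ g k : ℕ) : ℝ) * (1 / (2 * k)) / 2) ≤ Real.log (Mk g k / 2) := by
          apply Real.log_le_log (by positivity)
          linarith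
        have h7 : Real.log (((2 ^ g k : ℕ) : ℝ) * (1 / (2 * k)) / 2) =
            (g k : ℝ) * Real.log 2 - Real.log k - 2 * Real.log 2 := by
          rw [Real.log_div (by positivity) (by norm_num), Real.log_mul (by positivity) (by positivity),
            Real.log_div (by norm_num) (by positivity), Real.log_mul (by norm_num) (by positivity),
            Real.log_one]
          push_cast
          rw [Real.log_pow]
          ring
        linarith
      rw [e1, e2, ← Real.exp_add]
      apply Real.exp_le_exp.2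
      have e4 := hgge k
      -- upper bound for `log m`
      have e5 : Real.log (m k) ≤ Real.log κ + Real.log L - Real.log (Real.log L) := by
        have h5 := Real.log_le_log (by linarith) m2
        rw [Real.log_mul hκ.ne' (by positivity), Real.log_div hL0.ne' (by linarith)] at h5
        linarith
      have e6 : Real.log κ + 1 ≤ Real.log (Real.log L) := by
        have h5 : κ * Real.exp 1 ≤ Real.log L := by
          have := Real.exp_one_lt_d9
          nlinarith
        have h6 := Real.log_le_log (by positivity) h5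
        rw [Real.log_mul hκ.ne' (Real.exp_pos _).ne', Real.log_exp] at h6
        exact h6
      have e7 : (B - 2) * Real.log k ≤ 1 + Real.log (Mk g k / 2) - Real.log (m k) := by
        nlinarith
      have e8 : (κ * (L / Real.log L) - 1) * ((B - 2) * Real.log k) ≤
          m k * (1 + Real.log (Mk g k / 2) - Real.log (m k)) := by
        have h5 : 0 ≤ (B - 2) * Real.log k := mul_nonneg (by linarith) (by linarith)
        calc (κ * (L / Real.log L) - 1) * ((B - 2) * Real.log k) ≤ m k * ((B - 2) * Real.log k) := by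
              gcongr
          _ ≤ _ := by gcongr
      have e9 : (1 + κ * δ) * L ≤ κ * (L / Real.log L) * ((B - 2) * Real.log k) := by
        have h5 : κ * (B - 2) = 1 + κ * δ := by
          rw [hB]
          field_simp
          ring
        have h6 : κ * (L / Real.log L) * ((B - 2) * Real.log k) =
            (1 + κ * δ) * L * (Real.log k / Real.log L) := by
          rw [← h5]; ring
        rw [h6]
        have h7 : 1 ≤ Real.log k / Real.log L := by
          rw [le_div_iff₀ (by linarith)]; linarith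
        have h8 : 0 ≤ (1 + κ * δ) * L := by positivity
        nlinarith
      have e10 : Real.log (m k) ≤ Real.log k := Real.log_le_log (by linarith) m4
      have e11 : ((k : ℝ) - g k) * Real.log 2 ≤ L := by
        have : 0 ≤ (g k : ℝ) * Real.log 2 := by positivity
        rw [hL]
        linarith
      nlinarith)
  filter_upwards [hmain] with ω hω
  refine ⟨infinite_of _ hω, ?_⟩
  refine gapOrder_le _ ?_ hω
  filter_upwards [ev_loge (3 * (B + δ + 3) / δ + 2), eventually_ge_atTop 24] with k hk hk24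
  intro q hq1 hq2
  have hk' : (24 : ℝ) ≤ k := by exact_mod_cast hk24
  obtain ⟨l1, l2⟩ := logL (by omega : 1 ≤ k)
  have h0 : 0 ≤ 3 * (B + δ + 3) / δ := by positivity
  have h1 : (k : ℝ) * Real.log 2 ≤ Real.log q := le_log_of hq1
  have h2 : Real.log ((k : ℝ) * Real.log 2) ≤ Real.log (Real.log q) :=
    Real.log_le_log (by positivity) h1
  refine ⟨by linarith, ?_⟩
  have h3 : g k ≤ g (k + 1) := by
    apply Nat.ceil_mono
    have : Real.log k ≤ Real.log ((k + 1 : ℕ) : ℝ) :=
      Real.log_le_log (by linarith) (by push_cast; linarith)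
    gcongr
  have h4 : 2 * 2 ^ g k + 2 ^ g (k + 1) ≤ 2 ^ (g (k + 1) + 2) := by
    have h3 : 2 ^ g k ≤ 2 ^ g (k + 1) := Nat.pow_le_pow_right (by norm_num) h3
    rw [pow_add]
    omega
  have h5 : Real.log ((2 * 2 ^ g k + 2 ^ g (k + 1) : ℕ) : ℝ) ≤ ((g (k + 1) : ℝ) + 2) * Real.log 2 := by
    have h6 : ((2 * 2 ^ g k + 2 ^ g (k + 1) : ℕ) : ℝ) ≤ ((2 ^ (g (k + 1) + 2) : ℕ) : ℝ) := by
      exact_mod_cast h4
    have h7 := Real.log_le_log (by positivity) h6
    have h8 : Real.log ((2 ^ (g (k + 1) + 2) : ℕ) : ℝ) = ((g (k + 1) : ℝ) + 2) * Real.log 2 := by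
      push_cast
      rw [Real.log_pow]
      push_cast
      ring
    linarith
  have h6 := hglt (k + 1)
  have h7 : Real.log ((k + 1 : ℕ) : ℝ) ≤ Real.log k + 1 := by
    have h8 : ((k + 1 : ℕ) : ℝ) ≤ k * Real.exp 1 := by
      have := Real.add_one_le_exp (1 : ℝ)
      push_cast
      nlinarith
    have h9 := Real.log_le_log (by positivity) h8
    rwa [Real.log_mul (by positivity) (Real.exp_pos _).ne', Real.log_exp] at h9
  have h8 : B * Real.log ((k + 1 : ℕ) : ℝ) ≤ B * (Real.log k + 1) := by gcongr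
  have h9 : 3 * (B + δ + 3) ≤ δ * (Real.log k - 2) := by
    have : 3 * (B + δ + 3) / δ ≤ Real.log k - 2 := by linarith
    rw [div_le_iff₀ hδ] at this
    linarith
  have h10 : (B + δ) * (Real.log k - 1 / 2) ≤ (2 + 1 / κ + 2 * δ) * Real.log (Real.log q) := by
    have : 2 + 1 / κ + 2 * δ = B + δ := by rw [hB]; ring
    rw [this]
    apply mul_le_mul_of_nonneg_left _ (by linarith)
    linarith
  nlinarith

/-- models of level at least `2 κ log n / log log n` -/
theorem upper_pol [IsProbabilityMeasure μ] (hM : IsModel μ K A) {κ : ℝ} (hκ : 0 < κ)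
    (hK : ∀ᶠ n : ℕ in atTop, 2 * κ * (Real.log n / Real.log (Real.log n)) ≤ K n) :
    ∀ᵐ ω ∂μ, {n | ω ∈ A n}.Infinite ∧
      gapOrder (fun q => Real.log (Real.log q)) {n | ω ∈ A n} ≤ ((2 + 1 / κ : ℝ) : EReal) := by
  have h1 : ∀ᵐ ω ∂μ, ∀ j : ℕ, {n | ω ∈ A n}.Infinite ∧
      gapOrder (fun q => Real.log (Real.log q)) {n | ω ∈ A n} ≤
        ((2 + 1 / κ + 2 * (1 / ((j : ℝ) + 1)) : ℝ) : EReal) := by
    rw [ae_all_iff]
    intro j
    exact upper_pol_aux hM hκ hK (by positivity)
  filter_upwards [h1] with ω hω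
  refine ⟨(hω 0).1, ?_⟩
  have h5 : Tendsto (fun n : ℕ => 2 + 1 / κ + 2 * (1 / ((n : ℝ) + 1))) atTop (𝓝 (2 + 1 / κ + 2 * 0)) :=
    tendsto_const_nhds.add (tendsto_one_div_add_atTop_nhds_zero_nat.const_mul 2)
  rw [mul_zero, add_zero] at h5
  exact ge_of_tendsto' ((continuous_coe_real_ereal.tendsto (2 + 1 / κ)).comp h5) fun j => (hω j).2

end Pool.Agent.W151.KW
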