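import Mathlib
import Pool.Agent.W151.KW.Pol

/-! # Models of level `O(log n / log log n)` with large gaps (helper151) -/

set_option autoImplicit false

namespace Pool.Agent.W151.KW

open Finset MeasureTheory Filter Topology

/-- a bound for the level on dyadic scales -/
theorem level_scale (K : ℕ → ℕ) {c c' : ℝ} (hc : 0 ≤ c) (hcc : c < c')
    (hK : ∀ᶠ n : ℕ in atTop, (K n : ℝ) ≤ c * (Real.log n / Real.log (Real.log n))) :
    ∀ᶠ k : ℕ in atTop, ∀ n, n < 2 ^ (k + 1) →
      (K n : ℝ) ≤ c' * ((k : ℝ) * Real.log 2 / Real.log ((k : ℝ) * Real.log 2)) := by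
  have hl2 := Real.log_pos (show (1 : ℝ) < 2 by norm_num)
  have hl2u := Real.log_two_lt_d9
  have hl2l := Real.log_two_gt_d9
  obtain ⟨N, hN⟩ := eventually_atTop.1 hK
  set C := (range (N + 16)).sup K with hC
  have hc'0 : 0 < c' := by linarith
  filter_upwards [ev_log (ε := c' * Real.log 2 / (C + 1)) (by positivity), ev_nat (2 * c / (c' - c)),
    eventually_ge_atTop 24] with k h1 h2 h3
  intro n hn
  have hk' : (24 : ℝ) ≤ k := by exact_mod_cast h3
  obtain ⟨l1, l2⟩ := logL (by omega : 1 ≤ k)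
  have hlk : 1 + 1 / 2 ≤ Real.log k := by
    have h5 : Real.exp (3 / 2) ≤ 24 := by
      have h6 : Real.exp (3 / 2) ≤ Real.exp 1 * Real.exp 1 := by
        rw [← Real.exp_add]
        exact Real.exp_le_exp.2 (by norm_num)
      have := Real.exp_one_lt_d9
      have h7 := Real.exp_pos 1
      nlinarith
    rw [Real.le_log_iff_exp_le (by linarith)]
    linarith [(by norm_num : (1 : ℝ) + 1 / 2 = 3 / 2)]
  set L : ℝ := (k : ℝ) * Real.log 2 with hL
  have hL0 : 0 < L := by positivity
  have hlL : 1 ≤ Real.log L := by linarith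
  have hCn : (0 : ℝ) ≤ C := Nat.cast_nonneg _
  rcases Nat.lt_or_ge n (N + 16) with h | h
  · have h4 : K n ≤ C := Finset.le_sup (f := K) (mem_range.2 h)
    have h5 : (K n : ℝ) ≤ C := by exact_mod_cast h4
    refine h5.trans ?_
    rw [← mul_div_assoc, le_div_iff₀ (by linarith)]
    have h6 : (C + 1) * Real.log k ≤ c' * L := by
      calc ((C : ℝ) + 1) * Real.log k ≤ (C + 1) * (c' * Real.log 2 / (C + 1) * k) := by gcongr
        _ = c' * L := by rw [hL]; field_simp
    nlinarith
  · refine (hN n (by omega)).trans ?_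
    have h4 := log_le_of (by omega : 0 < n) hn.le
    push_cast at h4
    set t : ℝ := Real.log n with ht
    set L' : ℝ := ((k : ℝ) + 1) * Real.log 2 with hL'
    have he := Real.exp_one_lt_d9
    have h5 : Real.exp 1 ≤ t := by
      have h6 : Real.log 16 ≤ t := by
        rw [ht]
        apply Real.log_le_log (by norm_num)
        exact_mod_cast (by omega : 16 ≤ n)
      have h7 : Real.log 16 = 4 * Real.log 2 := by
        rw [show (16 : ℝ) = 2 ^ 4 by norm_num, Real.log_pow]
        push_cast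
        ring
      linarith
    have h6 := Real.log_div_self_antitoneOn (show t ∈ {x : ℝ | Real.exp 1 ≤ x} from h5)
      (show L' ∈ {x : ℝ | Real.exp 1 ≤ x} from h5.trans h4) h4
    simp only at h6
    have ht0 : 0 < t := lt_of_lt_of_le (Real.exp_pos 1) h5
    have hL'0 : 0 < L' := lt_of_lt_of_le ht0 h4
    have hlt : 1 ≤ Real.log t := by rwa [Real.le_log_iff_exp_le ht0]
    have hlL' : 1 ≤ Real.log L' := hlt.trans (Real.log_le_log ht0 h4)
    have h7 : t / Real.log t ≤ L' / Real.log L' := by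
      rw [div_le_div_iff₀ hL'0 ht0] at h6
      rw [div_le_div_iff₀ (by linarith) (by linarith)]
      linarith
    have h8 : L' / Real.log L' ≤ L' / Real.log L := by
      apply div_le_div_of_nonneg_left hL'0.le (by linarith)
      apply Real.log_le_log hL0
      rw [hL, hL']
      nlinarith
    calc c * (t / Real.log t) ≤ c * (L' / Real.log L) := by
          apply mul_le_mul_of_nonneg_left (h7.trans h8) hc
      _ = (c * L') / Real.log L := by ring
      _ ≤ (c' * L) / Real.log L := by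
          apply div_le_div_of_nonneg_right _ (by linarith)
          have h9 : 0 < c' - c := by linarith
          rw [div_le_iff₀ h9] at h2
          have h10 : c * L' = c * L + c * Real.log 2 := by rw [hL', hL]; ring
          have h11 : 2 * c * Real.log 2 ≤ (k * (c' - c)) * Real.log 2 := by gcongr
          have h12 : (k * (c' - c)) * Real.log 2 = (c' - c) * L := by rw [hL]; ring
          have h13 : 0 ≤ c * Real.log 2 := by positivity
          rw [h10]
          nlinarith
      _ = c' * (L / Real.log L) := by ring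

section sup

variable {K : ℕ → ℕ}

/-- half of the level -/
noncomputable def mK (κ : ℝ) (k : ℕ) : ℕ :=
  ⌈κ * ((k : ℝ) * Real.log 2 / Real.log ((k : ℝ) * Real.log 2))⌉₊

/-- length of the blocks -/
noncomputable def gB (B : ℝ) (k : ℕ) : ℕ := Nat.log 2 ⌊(k : ℝ) ^ B⌋₊

theorem gB_spec {B : ℝ} (hB : 0 < B) {k : ℕ} (hk : 1 ≤ k) : ((2 ^ gB B k : ℕ) : ℝ) ≤ (k : ℝ) ^ B ∧
    (k : ℝ) ^ B < 2 * ((2 ^ gB B k : ℕ) : ℝ) := by
  have hk' : (1 : ℝ) ≤ k := by exact_mod_cast hk
  have h1 : 1 ≤ (k : ℝ) ^ B := Real.one_le_rpow hk' hB.le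
  have h2 : ⌊(k : ℝ) ^ B⌋₊ ≠ 0 := by
    have : 1 ≤ ⌊(k : ℝ) ^ B⌋₊ := (Nat.one_le_floor_iff _).2 h1
    omega
  have h3 : 2 ^ gB B k ≤ ⌊(k : ℝ) ^ B⌋₊ := Nat.pow_log_le_self 2 h2
  have h4 : ⌊(k : ℝ) ^ B⌋₊ < 2 ^ (gB B k + 1) := Nat.lt_pow_succ_log_self (by norm_num) _
  constructor
  · have h5 : ((2 ^ gB B k : ℕ) : ℝ) ≤ (⌊(k : ℝ) ^ B⌋₊ : ℝ) := by exact_mod_cast h3
    exact h5.trans (Nat.floor_le (by positivity))
  · have h5 := Nat.lt_floor_add_one ((k : ℝ) ^ B)
    have h6 : (⌊(k : ℝ) ^ B⌋₊ : ℝ) + 1 ≤ 2 * ((2 ^ gB B k : ℕ) : ℝ) := by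
      rw [pow_succ] at h4
      exact_mod_cast (by omega : ⌊(k : ℝ) ^ B⌋₊ + 1 ≤ 2 * 2 ^ gB B k)
    linarith

/-- expected number of elements of a block of length `2 ^ g` -/
noncomputable def Mg (g k : ℕ) : ℝ := ((2 ^ g : ℕ) : ℝ) * (1 / (((k : ℝ) + 1) * Real.log 2))

/-- the conditions at one scale -/
def Pc (κ B : ℝ) (k : ℕ) : Prop :=
  2 * gB B k ≤ k ∧ 1 ≤ mK κ k ∧ (mK κ k : ℝ) ≤ Mg (gB B k) k ∧
    2 * Real.log k ≤ ((2 ^ (k - gB B k) : ℕ) : ℝ) *
      Real.exp (-(mK κ k * (67 + Real.log (2 * Mg (gB B k) k / mK κ k))))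

theorem pc_eventually {κ B η : ℝ} (hκ : 0 < κ) (hη : 0 < η) (hB : 2 < B) (h : κ * (B - 2) = 1 - η) :
    ∀ᶠ k : ℕ in atTop, Pc κ B k := by
  have hl2 := Real.log_pos (show (1 : ℝ) < 2 by norm_num)
  have hl2u := Real.log_two_lt_d9
  have hl2l := Real.log_two_gt_d9
  set C1 : ℝ := 67 + |Real.log (6 / κ)| with hC1
  have hC1p : 0 < C1 := by positivity
  filter_upwards [ev_log (ε := Real.log 2 / (2 * B)) (by positivity),
    ev_log (ε := η / 4 * Real.log 2 / (2 * B + C1 + 3)) (by positivity),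
    ev_loglog (ε := η / (16 * κ)) (by positivity), ev_loge (16 * κ * (C1 + B) / η + 2),
    ev_loge (Real.log 4 / (B - 2)), ev_log (ε := κ * Real.log 2 / 1) (by positivity),
    ev_loge (κ + 4), eventually_ge_atTop 24] with k a1 a2 a3 a4 a5 a6 a7 a8
  have hk' : (24 : ℝ) ≤ k := by exact_mod_cast a8
  have hk0 : (0 : ℝ) < k := by linarith
  obtain ⟨l1, l2⟩ := logL (by omega : 1 ≤ k)
  have hB0 : 0 < B := by linarith
  obtain ⟨g1, g2⟩ := gB_spec hB0 (by omega : 1 ≤ k)
  set ℓ : ℝ := Real.log k with hℓ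
  set L : ℝ := (k : ℝ) * Real.log 2 with hL
  have hL0 : 0 < L := by positivity
  have hℓ4 : 4 ≤ ℓ := by linarith
  have hlL : 1 ≤ Real.log L := by linarith
  have hkpow : Real.log ((k : ℝ) ^ B) = B * ℓ := Real.log_rpow hk0 B
  have hg1 : (gB B k : ℝ) * Real.log 2 ≤ B * ℓ := by
    have h1 := Real.log_le_log (by positivity) g1
    rw [hkpow] at h1
    push_cast at h1
    rwa [Real.log_pow] at h1
  have hgk : 2 * gB B k ≤ k := by
    have h1 : B * ℓ ≤ B * (Real.log 2 / (2 * B) * k) := by gcongr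
    have h2 : B * (Real.log 2 / (2 * B) * k) = Real.log 2 * k / 2 := by field_simp
    have h3 : (2 * (gB B k : ℝ)) * Real.log 2 ≤ k * Real.log 2 := by nlinarith
    have h4 : 2 * (gB B k : ℝ) ≤ k := le_of_mul_le_mul_right h3 hl2
    exact_mod_cast h4
  have hx0 : 0 < κ * (L / Real.log L) := by positivity
  have hm1 : 1 ≤ mK κ k := Nat.one_le_ceil_iff.2 hx0
  have hm1' : (1 : ℝ) ≤ mK κ k := by exact_mod_cast hm1
  have hmge : κ * (L / Real.log L) ≤ mK κ k := Nat.le_ceil _
  have hmlt : (mK κ k : ℝ) < κ * (L / Real.log L) + 1 := Nat.ceil_lt_add_one hx0.le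
  have hMpos : 0 < Mg (gB B k) k := by unfold Mg; positivity
  -- bounds for `M`
  have hMup : Mg (gB B k) k ≤ (k : ℝ) ^ B / k * (3 / 2) := by
    unfold Mg
    calc ((2 ^ gB B k : ℕ) : ℝ) * (1 / (((k : ℝ) + 1) * Real.log 2)) ≤
        (k : ℝ) ^ B * (1 / (k * (2 / 3))) := by
          gcongr
          · linarith
          · linarith
      _ = _ := by field_simp
  have hMlow : (k : ℝ) ^ B / k / 4 ≤ Mg (gB B k) k := by
    unfold Mg
    have h1 : (k : ℝ) ^ B / 2 ≤ ((2 ^ gB B k : ℕ) : ℝ) := by linarith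
    calc (k : ℝ) ^ B / k / 4 = (k : ℝ) ^ B / 2 * (1 / (2 * k)) := by field_simp; norm_num
      _ ≤ _ := by
          apply mul_le_mul h1 _ (by positivity) (Nat.cast_nonneg _)
          apply one_div_le_one_div_of_le (by positivity)
          nlinarith
  have hmk : (mK κ k : ℝ) ≤ k := by
    have h1 : κ * (L / Real.log L) ≤ k * (κ / Real.log L) := by
      rw [hL]
      have : κ * ((k : ℝ) * Real.log 2 / Real.log L) = k * (κ / Real.log L) * Real.log 2 := by ring
      rw [hL] at this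
      rw [this]
      have h2 : 0 ≤ (k : ℝ) * (κ / Real.log ((k : ℝ) * Real.log 2)) := by
        have : 0 < Real.log ((k : ℝ) * Real.log 2) := by linarith
        positivity
      nlinarith
    have h2 : κ / Real.log L ≤ κ / (κ + 3) := by
      apply div_le_div_of_nonneg_left hκ.le (by linarith) (by linarith)
    have h3 : (k : ℝ) * (κ / Real.log L) ≤ k * (κ / (κ + 3)) := by gcongr
    have h4 : (k : ℝ) * (κ / (κ + 3)) = k - 3 * k / (κ + 3) := by field_simp; ring
    have h5 : 1 ≤ 3 * (k : ℝ) / (κ + 3) := by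
      rw [le_div_iff₀ (by linarith)]
      have := Real.log_le_sub_one_of_pos hk0
      linarith
    linarith
  have hmM : (mK κ k : ℝ) ≤ Mg (gB B k) k := by
    refine hmk.trans (le_trans ?_ hMlow)
    rw [div_div, le_div_iff₀ (by positivity)]
    have h1 : Real.log ((k : ℝ) * (k * 4)) ≤ Real.log ((k : ℝ) ^ B) := by
      rw [hkpow, Real.log_mul hk0.ne' (by positivity), Real.log_mul hk0.ne' (by norm_num)]
      rw [div_le_iff₀ (by linarith)] at a5
      nlinarith
    exact (Real.log_le_log_iff (by positivity) (by positivity)).1 h1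
  refine ⟨hgk, hm1, hmM, ?_⟩
  -- the main inequality
  have e2 : ((2 ^ (k - gB B k) : ℕ) : ℝ) = Real.exp (((k : ℝ) - gB B k) * Real.log 2) := by
    push_cast
    rw [← Real.rpow_natCast, Real.rpow_def_of_pos (by norm_num), Nat.cast_sub (by omega), mul_comm]
  have e3 : 67 + Real.log (2 * Mg (gB B k) k / mK κ k) ≤ (B - 2) * ℓ + Real.log ℓ + C1 := by
    have h1 : 2 * Mg (gB B k) k / mK κ k ≤ (k : ℝ) ^ B / (k * k) * ℓ * (6 / κ) := by
      calc 2 * Mg (gB B k) k / mK κ k ≤ 2 * ((k : ℝ) ^ B / k * (3 / 2)) / (κ * (L / Real.log L)) := by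
            gcongr
        _ = (k : ℝ) ^ B / (k * k) * Real.log L * (3 / (κ * Real.log 2)) := by
            rw [hL]; field_simp
        _ ≤ (k : ℝ) ^ B / (k * k) * ℓ * (6 / κ) := by
            gcongr ?_ * ?_ * ?_
            · have : 0 < κ * Real.log 2 := by positivity
              rw [div_le_div_iff₀ this hκ]
              nlinarith
    have h2 := Real.log_le_log (by positivity) h1
    have h3 : Real.log ((k : ℝ) ^ B / (k * k) * ℓ * (6 / κ)) = (B - 2) * ℓ + Real.log ℓ + Real.log (6 / κ) := by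
      rw [Real.log_mul (by positivity) (by positivity), Real.log_mul (by positivity) (by positivity),
        Real.log_div (by positivity) (by positivity), Real.log_mul hk0.ne' hk0.ne', hkpow]
      ring
    have h4 := le_abs_self (Real.log (6 / κ))
    rw [hC1]
    linarith
  have hlℓ : 0 ≤ Real.log ℓ := Real.log_nonneg (by linarith)
  have hlℓ2 : Real.log ℓ ≤ ℓ := by
    have := Real.log_le_sub_one_of_pos (show 0 < ℓ by linarith)
    linarith
  have e4 : (mK κ k : ℝ) * (67 + Real.log (2 * Mg (gB B k) k / mK κ k)) ≤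
      (κ * (L / Real.log L) + 1) * ((B - 2) * ℓ + Real.log ℓ + C1) := by
    have h0 : 0 ≤ (B - 2) * ℓ + Real.log ℓ + C1 := by
      have : 0 ≤ (B - 2) * ℓ := mul_nonneg (by linarith) (by linarith)
      linarith
    calc _ ≤ (mK κ k : ℝ) * ((B - 2) * ℓ + Real.log ℓ + C1) := by gcongr
      _ ≤ _ := by gcongr
  have e5 : κ * (L / Real.log L) * ((B - 2) * ℓ + Real.log ℓ + C1) ≤ (1 - η) * L + η / 4 * L := by
    have h1 : κ * (L / Real.log L) * ((B - 2) * ℓ + Real.log ℓ + C1) =
        (L / Real.log L) * (κ * (B - 2) * ℓ + κ * (Real.log ℓ + C1)) := by ring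
    rw [h1, h, div_mul_eq_mul_div, div_le_iff₀ (by linarith)]
    have h2 : (1 - η) * ℓ + κ * (Real.log ℓ + C1) ≤ ((1 - η) + η / 4) * Real.log L := by
      have h3 : 0 ≤ 1 - η := by
        rw [← h]
        exact mul_nonneg hκ.le (by linarith)
      have h4 : (1 - η) * ℓ ≤ (1 - η) * (Real.log L + 1 / 2) := by
        apply mul_le_mul_of_nonneg_left _ h3
        linarith
      have h5 : κ * Real.log ℓ ≤ η / 16 * ℓ := by
        calc κ * Real.log ℓ ≤ κ * (η / (16 * κ) * ℓ) := by gcongr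
          _ = η / 16 * ℓ := by field_simp
      have h6 : κ * (C1 + B) ≤ η / 16 * (ℓ - 2) := by
        have h7 : 16 * κ * (C1 + B) / η ≤ ℓ - 2 := by linarith
        rw [div_le_iff₀ hη] at h7
        linarith
      have h7 : (1 - η) * (1 / 2) ≤ κ * B := by
        rw [← h]
        nlinarith
      have h8 : η / 16 * ℓ ≤ η / 8 * Real.log L := by nlinarith
      have h9 : η / 16 * (ℓ - 2) ≤ η / 8 * Real.log L := by nlinarith
      nlinarith
    calc L * ((1 - η) * ℓ + κ * (Real.log ℓ + C1)) ≤ L * (((1 - η) + η / 4) * Real.log L) := by gcongr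
      _ = _ := by ring
  have e6 : (2 * B + C1 + 3) * ℓ ≤ η / 4 * L := by
    calc (2 * B + C1 + 3) * ℓ ≤ (2 * B + C1 + 3) * (η / 4 * Real.log 2 / (2 * B + C1 + 3) * k) := by gcongr
      _ = η / 4 * L := by rw [hL]; field_simp
  rw [e2, ← Real.exp_add]
  have e7 : Real.log (2 * ℓ) ≤ ℓ := by
    rw [Real.log_mul (by norm_num) (by linarith)]
    have h1 : Real.log ℓ ≤ ℓ / 2 := by
      have h2 := Real.log_le_sub_one_of_pos (show 0 < ℓ / 2 by linarith)
      rw [Real.log_div (by linarith) (by norm_num)] at h2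
      linarith
    linarith
  rw [← Real.exp_log (show 0 < 2 * ℓ by linarith)]
  apply Real.exp_le_exp.2
  have e8 : ((k : ℝ) - gB B k) * Real.log 2 = L - gB B k * Real.log 2 := by rw [hL]; ring
  rw [e8]
  have e9 : C1 ≤ C1 * ℓ := by nlinarith
  nlinarith

/-- models with large gaps -/
theorem sup_pol (κT BT ηT : ℕ → ℝ) (hT : ∀ T, 0 < κT T ∧ 0 < ηT T ∧ 2 < BT T ∧
      κT T * (BT T - 2) = 1 - ηT T)
    (hK : ∀ T, ∀ᶠ k : ℕ in atTop, ∀ n, n < 2 ^ (k + 1) →
      (K n : ℝ) ≤ 2 * κT T * ((k : ℝ) * Real.log 2 / Real.log ((k : ℝ) * Real.log 2)))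
    (h2K : ∃ n, 2 ≤ K n) :
    ∃ (μ : Measure (ℕ × ℕ → FS)) (A : ℕ → Set (ℕ × ℕ → FS)), IsProbabilityMeasure μ ∧
      IsModel μ K A ∧ ∀ᵐ ω ∂μ, {n | ω ∈ A n}.Infinite ∧
        ∀ θ : ℝ, 0 ≤ θ → (∀ᶠ T in atTop, θ < BT T) →
          (θ : EReal) ≤ gapOrder (fun q => Real.log (Real.log q)) {n | ω ∈ A n} := by
  have hl2 := Real.log_pos (show (1 : ℝ) < 2 by norm_num)
  have hl2u := Real.log_two_lt_d9
  have hl2l := Real.log_two_gt_d9
  obtain ⟨t, ht1, ht2⟩ := diag (fun T k => Pc (κT T) (BT T) k ∧ ∀ n, n < 2 ^ (k + 1) →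
      (K n : ℝ) ≤ 2 * κT T * ((k : ℝ) * Real.log 2 / Real.log ((k : ℝ) * Real.log 2)))
    (fun T => (pc_eventually (hT T).1 (hT T).2.1 (hT T).2.2.1 (hT T).2.2.2).and (hK T))
  obtain ⟨N, hN⟩ := eventually_atTop.1 ht2
  set g : ℕ → ℕ := fun k => gB (BT (t k)) k with hg
  set m : ℕ → ℕ := fun k => mK (κT (t k)) k with hm
  set k1 := max N 24 with hk1
  have hN' : ∀ k, k1 ≤ k → _ := fun k hk => hN k ((le_max_left _ _).trans hk)
  obtain ⟨μ, hμ, hM, hω⟩ := sup_model2 K g m k1 (le_max_right _ _) (fun k hk => (hN' k hk).1.1)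
    (fun k hk => (hN' k hk).1.2.1) (fun k hk n hn => by
      have h1 := (hN' k hk).2 n hn
      have h2 : κT (t k) * ((k : ℝ) * Real.log 2 / Real.log ((k : ℝ) * Real.log 2)) ≤ m k := Nat.le_ceil _
      have h3 : (K n : ℝ) ≤ 2 * m k + 1 := by nlinarith
      exact_mod_cast h3) (fun k hk => (hN' k hk).1.2.2.1)
    (fun k hk => (hN' k hk).1.2.2.2)
  refine ⟨μ, ev g, hμ, hM, ?_⟩
  obtain ⟨n0, hn0⟩ := h2K
  filter_upwards [hω, upper_fix hM (m := 1) le_rfl (n0 := n0) (by omega)] with ω hω hinf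
  refine ⟨hinf.1, ?_⟩
  intro θ hθ0 hθ
  -- it suffices to reach `θ`
  obtain ⟨T0, hT0⟩ := eventually_atTop.1 hθ
  refine le_of_forall_lt fun y hy => ?_
  obtain ⟨θ', hy', hθ'⟩ := EReal.lt_iff_exists_real_btwn.1 hy
  refine lt_of_lt_of_le hy' ?_
  rw [EReal.coe_lt_coe_iff] at hθ'
  rcases lt_or_ge θ' 0 with hneg | hpos
  · -- negative exponents
    refine le_gapOrder hinf.1 3 (fun q hq => ?_) (Eventually.frequently ?_)
    · have h1 : (3 : ℝ) ≤ q := by exact_mod_cast hq
      have := one_lt_log_three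
      exact Real.log_pos (lt_of_lt_of_le this (Real.log_le_log (by norm_num) h1))
    · filter_upwards [hω, eventually_ge_atTop k1,
        (ht1.eventually_ge_atTop T0)] with k hk hk2 hk3
      obtain ⟨a, H, b1, b2, b3, b4⟩ := hk
      have hk24 : 24 ≤ k := (le_max_right _ _).trans hk2
      have hk' : (24 : ℝ) ≤ k := by exact_mod_cast hk24
      have hBp : 0 < BT (t k) := by have := (hT (t k)).2.2.1; linarith
      have hH1 : 1 ≤ H := by
        have g2 := (gB_spec hBp (by omega : 1 ≤ k)).2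
        have h1 : (k : ℝ) ≤ (k : ℝ) ^ BT (t k) := by
          have := Real.rpow_le_rpow_of_exponent_le (by linarith : (1 : ℝ) ≤ k)
            (by have := (hT (t k)).2.2.1; linarith : (1 : ℝ) ≤ BT (t k))
          rwa [Real.rpow_one] at this
        have h2 : (24 : ℝ) < 2 * ((2 ^ gB (BT (t k)) k : ℕ) : ℝ) := by linarith
        have h3 : 24 < 2 * 2 ^ gB (BT (t k)) k := by exact_mod_cast h2
        have h4 : H + 1 = 2 ^ gB (BT (t k)) k := b3
        omega
      refine ⟨a, H, b1, b2, hH1, ?_, b4⟩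
      intro q hq _
      have h1 : (3 : ℝ) ≤ q := by exact_mod_cast hq
      have := one_lt_log_three
      have h2 : 0 < Real.log (Real.log q) :=
        Real.log_pos (lt_of_lt_of_le this (Real.log_le_log (by norm_num) h1))
      have h3 : 0 ≤ Real.log H := Real.log_natCast_nonneg H
      nlinarith
  · refine le_gapOrder hinf.1 3 (fun q hq => ?_) (Eventually.frequently ?_)
    · have h1 : (3 : ℝ) ≤ q := by exact_mod_cast hq
      have := one_lt_log_three
      exact Real.log_pos (lt_of_lt_of_le this (Real.log_le_log (by norm_num) h1))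
    · have hd : 0 < θ - θ' := by linarith
      filter_upwards [hω, eventually_ge_atTop k1,
        (ht1.eventually_ge_atTop T0), ev_loge ((θ' + 2) / (θ - θ'))] with k hk hk2 hk3 hk4
      obtain ⟨a, H, b1, b2, b3, b4⟩ := hk
      have hk24 : 24 ≤ k := (le_max_right _ _).trans hk2
      have hk' : (24 : ℝ) ≤ k := by exact_mod_cast hk24
      have hk0 : (0 : ℝ) < k := by linarith
      have hB2 := (hT (t k)).2.2.1
      have hBp : 0 < BT (t k) := by linarith
      have g2 := (gB_spec hBp (by omega : 1 ≤ k)).2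
      have h4 : (H : ℝ) + 1 = ((2 ^ gB (BT (t k)) k : ℕ) : ℝ) := by exact_mod_cast b3
      have h5 : (k : ℝ) ^ BT (t k) ≤ 4 * H := by
        have h1 : (k : ℝ) ≤ (k : ℝ) ^ BT (t k) := by
          have := Real.rpow_le_rpow_of_exponent_le (by linarith : (1 : ℝ) ≤ k)
            (by linarith : (1 : ℝ) ≤ BT (t k))
          rwa [Real.rpow_one] at this
        linarith
      have hH0 : (0 : ℝ) < H := by
        have : 0 < (k : ℝ) ^ BT (t k) := by positivity
        linarith
      have hH1 : 1 ≤ H := by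
        have : 0 < H := by exact_mod_cast hH0
        omega
      refine ⟨a, H, b1, b2, hH1, ?_, b4⟩
      intro q hq hq2
      have h1 : (3 : ℝ) ≤ q := by exact_mod_cast hq
      have h13 := one_lt_log_three
      have hlq : 1 < Real.log q := lt_of_lt_of_le h13 (Real.log_le_log (by norm_num) h1)
      have h6 := log_le_of (by omega : 0 < q) hq2
      push_cast at h6
      have h7 : Real.log (Real.log q) ≤ Real.log k + 1 := by
        have h8 : Real.log q ≤ k * Real.exp 1 := by
          have := Real.add_one_le_exp (1 : ℝ)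
          nlinarith
        have h9 := Real.log_le_log (by linarith) h8
        rwa [Real.log_mul hk0.ne' (Real.exp_pos _).ne', Real.log_exp] at h9
      have h8 := Real.log_le_log (by positivity) h5
      rw [Real.log_rpow hk0, Real.log_mul (by norm_num) hH0.ne'] at h8
      have h9 : Real.log 4 ≤ 2 := by
        rw [show (4 : ℝ) = 2 ^ 2 by norm_num, Real.log_pow]
        push_cast
        linarith
      have h10 : θ * Real.log k ≤ BT (t k) * Real.log k := by
        apply mul_le_mul_of_nonneg_right (hT0 (t k) hk3).le (Real.log_natCast_nonneg k)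
      have h11 : θ' * Real.log (Real.log q) ≤ θ' * (Real.log k + 1) := by gcongr
      rw [div_le_iff₀ hd] at hk4
      nlinarith

end sup

end Pool.Agent.W151.KW
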