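import Mathlib
import Pool.Agent.W151.KW.Par

/-! # Models with small gaps; models of small level -/

set_option autoImplicit false

namespace Pool.Agent.W151.KW

open Finset MeasureTheory Filter Topology
open Pool.Agent.H318R2.Cr

theorem poly_le_two_pow (k : ℕ) (hk : 17 ≤ k) : 150 * (k * (k + 1)) ≤ 2 ^ k := by
  induction k, hk using Nat.le_induction with
  | base => norm_num
  | succ k hk ih =>
    rw [pow_succ]
    nlinarith

/-- models with small gaps -/
theorem inf_gen (K m : ℕ → ℕ) (k1 : ℕ) (hk1 : 1250 ≤ k1) (hm : ∀ k, k1 ≤ k → 1 ≤ m k)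
    (hK : ∀ k, k1 ≤ k → ∀ n, n < 2 ^ (k + 1) → K n ≤ 2 * m k) (hmk : ∀ k, k1 ≤ k → m k ≤ k) :
    ∃ (μ : Measure (ℕ × ℕ → FS)) (A : ℕ → Set (ℕ × ℕ → FS)), IsProbabilityMeasure μ ∧
      IsModel μ K A ∧ ∀ᵐ ω ∂μ, ∀ᶠ k : ℕ in atTop, ∀ a : ℕ, 2 ^ k ≤ a → a < 2 ^ (k + 1) →
        ∃ n ∈ Ioc a (a + 150 * (2 * (m k * (k + 1)) + m (k + 1) * (k + 2))), ω ∈ A n := by
  have hl2 := Real.log_pos (show (1 : ℝ) < 2 by norm_num)
  have hl2u := Real.log_two_lt_d9
  have hl2l := Real.log_two_gt_d9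
  set g : ℕ → ℕ := fun k => Nat.log 2 (150 * (m k * (k + 1))) with hg
  have hgle : ∀ k, k1 ≤ k → 2 ^ g k ≤ 150 * (m k * (k + 1)) ∧ 150 * (m k * (k + 1)) < 2 * 2 ^ g k := by
    intro k hk
    have h1 := hm k hk
    have h2 : 150 * (m k * (k + 1)) ≠ 0 := by positivity
    have h3 : 2 ^ g k ≤ _ := Nat.pow_log_le_self 2 h2
    have h4 : _ < 2 ^ (g k + 1) := Nat.lt_pow_succ_log_self (by norm_num) (150 * (m k * (k + 1)))
    rw [pow_succ] at h4
    exact ⟨h3, by omega⟩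
  have hMl : ∀ k, k1 ≤ k → Mk g k ≤ 217 * m k ∧ 108 * m k ≤ Mk g k := by
    intro k hk
    have hL : 0 < ((k : ℝ) + 1) * Real.log 2 := by positivity
    obtain ⟨h2, h3⟩ := hgle k hk
    have h2' : ((2 ^ g k : ℕ) : ℝ) ≤ 150 * (m k * ((k : ℝ) + 1)) := by exact_mod_cast h2
    have h3' : 150 * (m k * ((k : ℝ) + 1)) < 2 * ((2 ^ g k : ℕ) : ℝ) := by exact_mod_cast h3
    have h4 : 0 ≤ (m k : ℝ) * ((k : ℝ) + 1) := by positivity
    unfold Mk
    rw [mul_one_div]
    constructor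
    · rw [div_le_iff₀ hL]; nlinarith
    · rw [le_div_iff₀ hL]; nlinarith
  have c1 : ∀ k, k1 ≤ k → g k ≤ k := by
    intro k hk
    have h1 := (hgle k hk).1
    have h2 := poly_le_two_pow k (by omega)
    have h3 := hmk k hk
    have h4 : 2 ^ g k ≤ 2 ^ k := by
      refine (h1.trans ?_).trans h2
      gcongr
    exact (Nat.pow_le_pow_iff_right (by norm_num)).1 h4
  have c2 : ∀ k, k1 ≤ k → (m k : ℝ) ≤ Mk g k := by
    intro k hk
    have h1 := (hMl k hk).2
    have h2 : (0 : ℝ) ≤ m k := Nat.cast_nonneg _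
    linarith
  have c3 : ∀ k, k1 ≤ k → ex k (m k) (Mk g k) ≤ Mk g k := by
    intro k hk
    obtain ⟨h1, h2⟩ := hMl k hk
    have hm1 : (1 : ℝ) ≤ m k := by exact_mod_cast hm k hk
    have hk' : (1250 : ℝ) ≤ k := by exact_mod_cast hk1.trans hk
    have hM0 := Mk_pos g k
    unfold ex
    have e1 : Real.log (Mk g k / m k) ≤ 5.55 := by
      have h3 : Mk g k / m k ≤ 2 ^ 8 := by
        rw [div_le_iff₀ (by linarith)]; linarith
      have h4 := Real.log_le_log (by positivity) h3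
      rw [Real.log_pow] at h4
      push_cast at h4
      linarith
    have e2 : (m k : ℝ) * (31 + Real.log (Mk g k / m k)) ≤ m k * 36.55 := by
      apply mul_le_mul_of_nonneg_left _ (by linarith)
      linarith
    have e3 : 125 * Mk g k / k ≤ Mk g k / 10 := by
      rw [div_le_iff₀ (by linarith)]
      nlinarith
    have e4 : Real.log (6 * Mk g k) ≤ Mk g k / 108 + 6.95 := by
      have h3 : 6 * Mk g k ≤ 2 ^ 10 * (Mk g k / 108) := by linarith
      have h4 := Real.log_le_log (by positivity) h3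
      rw [Real.log_mul (x := (2 : ℝ) ^ 10) (by positivity) (by positivity), Real.log_pow] at h4
      push_cast at h4
      have h5 := Real.log_le_sub_one_of_pos (show 0 < Mk g k / 108 by positivity)
      linarith
    linarith
  obtain ⟨μ, hμ, hM, hω⟩ := inf_model K g m k1 (by omega) c1 hm hK c2 c3
  refine ⟨μ, ev g, hμ, hM, ?_⟩
  filter_upwards [hω] with ω hω
  filter_upwards [hω, eventually_ge_atTop k1] with k hk hkk a ha1 ha2
  obtain ⟨n, hn1, hn2⟩ := hk a ha1 ha2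
  refine ⟨n, ?_, hn2⟩
  rw [mem_Ioc] at hn1 ⊢
  have h1 := (hgle k hkk).1
  have h2 := (hgle (k + 1) (by omega)).1
  rw [show k + 1 + 1 = k + 2 by ring] at h2
  refine ⟨hn1.1, ?_⟩
  omega

/-- models with small gaps, of level `2 κ log n` -/
theorem inf_kappa {κ : ℝ} (h0 : 0 < κ) (h1 : κ ≤ 1) :
    ∃ (μ : Measure (ℕ × ℕ → FS)) (A : ℕ → Set (ℕ × ℕ → FS)), IsProbabilityMeasure μ ∧
      IsModel μ (fun n => ⌈2 * κ * Real.log n⌉₊) A ∧
      ∀ᵐ ω ∂μ, cramerLimsup {n | ω ∈ A n} ≤ ((700 * κ : ℝ) : EReal) := by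
  have hl2 := Real.log_pos (show (1 : ℝ) < 2 by norm_num)
  have hl2u := Real.log_two_lt_d9
  have hl2l := Real.log_two_gt_d9
  set m : ℕ → ℕ := fun k => ⌈κ * (((k : ℝ) + 1) * Real.log 2)⌉₊ with hm
  have hmle : ∀ k : ℕ, (m k : ℝ) < κ * (((k : ℝ) + 1) * Real.log 2) + 1 :=
    fun k => Nat.ceil_lt_add_one (by positivity)
  obtain ⟨μ, A, hμ, hM, hω⟩ := inf_gen (fun n => ⌈2 * κ * Real.log n⌉₊) m 1250 le_rfl
    (fun k _ => Nat.one_le_ceil_iff.2 (by positivity)) (fun k _ n hn => K_le h0 k n hn) (by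
      intro k hk
      have hk' : (1250 : ℝ) ≤ k := by exact_mod_cast hk
      have h2 := hmle k
      have h3 : κ * (((k : ℝ) + 1) * Real.log 2) ≤ 1 * (((k : ℝ) + 1) * Real.log 2) := by gcongr
      have h4 : (m k : ℝ) ≤ k := by nlinarith
      exact_mod_cast h4)
  refine ⟨μ, A, hμ, hM, ?_⟩
  filter_upwards [hω] with ω hω
  refine limsup_le' _ ?_ hω
  filter_upwards [ev_nat (100 / κ), eventually_ge_atTop 1250] with k hk hk1
  have hk' : (1250 : ℝ) ≤ k := by exact_mod_cast hk1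
  rw [div_le_iff₀ h0] at hk
  push_cast
  have h2 := (hmle k).le
  have h3 := (hmle (k + 1)).le
  push_cast at h3
  set y : ℝ := (k : ℝ) + 2 with hy
  have hy0 : 0 < y := by positivity
  have hy1 : y ≤ 1.002 * k := by rw [hy]; linarith
  have h4 : (m k : ℝ) ≤ κ * (y * Real.log 2) + 1 := by
    refine h2.trans ?_
    gcongr
    rw [hy]; linarith
  have h5 : (m (k + 1) : ℝ) ≤ κ * (y * Real.log 2) + 1 := by
    refine h3.trans ?_
    gcongr
    rw [hy]; linarith
  have h6 : (k : ℝ) + 1 ≤ y := by rw [hy]; linarith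
  calc (150 : ℝ) * (2 * (m k * ((k : ℝ) + 1)) + m (k + 1) * y) ≤
      150 * (2 * ((κ * (y * Real.log 2) + 1) * y) + (κ * (y * Real.log 2) + 1) * y) := by gcongr
    _ = 450 * κ * Real.log 2 * y ^ 2 + 450 * y := by ring
    _ ≤ 450 * κ * Real.log 2 * (1.002 * k) ^ 2 + 450 * (1.002 * k) := by gcongr
    _ ≤ 700 * κ * (k * Real.log 2) ^ 2 := by
        have e1 : 450 * (1.002 * (k : ℝ)) ≤ 4.6 * (κ * k ^ 2) := by nlinarith
        have e2 : 450 * κ * Real.log 2 * (1.002 * (k : ℝ)) ^ 2 = 450 * 1.002 ^ 2 * Real.log 2 * (κ * k ^ 2) := by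
          ring
        have e3 : 700 * κ * ((k : ℝ) * Real.log 2) ^ 2 = 700 * Real.log 2 ^ 2 * (κ * k ^ 2) := by ring
        rw [e2, e3]
        have e4 : 0 ≤ κ * (k : ℝ) ^ 2 := by positivity
        have e5 : 450 * 1.002 ^ 2 * Real.log 2 + 4.6 ≤ 700 * Real.log 2 ^ 2 := by nlinarith
        nlinarith

section small

variable {K : ℕ → ℕ}

/-- level of the blocks -/
def mr (K : ℕ → ℕ) (k : ℕ) : ℕ := (range (2 ^ (k + 1))).sup K + 1

theorem le_mr (k n : ℕ) (hn : n < 2 ^ (k + 1)) : K n ≤ 2 * mr K k := by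
  have h1 : K n ≤ (range (2 ^ (k + 1))).sup K := Finset.le_sup (f := K) (mem_range.2 hn)
  unfold mr
  omega

theorem mr_small (hK : Tendsto (fun n : ℕ => (K n : ℝ) / Real.log n) atTop (𝓝 0)) {δ : ℝ} (hδ : 0 < δ) :
    ∀ᶠ k : ℕ in atTop, (mr K k : ℝ) ≤ δ * k := by
  have hl2 := Real.log_pos (show (1 : ℝ) < 2 by norm_num)
  have hl2u := Real.log_two_lt_d9
  obtain ⟨N, hN⟩ := eventually_atTop.1 (hK.eventually_le_const (show 0 < δ / 4 by positivity))
  set C := (range (N + 3)).sup K with hC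
  filter_upwards [ev_nat (4 * (C + 1) / δ), eventually_ge_atTop 1] with k hk hk1
  have hk' : (1 : ℝ) ≤ k := by exact_mod_cast hk1
  rw [div_le_iff₀ hδ] at hk
  unfold mr
  obtain ⟨n, hn, hn2⟩ := Finset.exists_mem_eq_sup (range (2 ^ (k + 1)))
    ⟨0, mem_range.2 (by positivity)⟩ K
  rw [hn2]
  push_cast
  rw [mem_range] at hn
  have hCn : (0 : ℝ) ≤ C := Nat.cast_nonneg _
  rcases Nat.lt_or_ge n (N + 3) with h | h
  · have h1 : K n ≤ C := Finset.le_sup (f := K) (mem_range.2 h)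
    have h2 : (K n : ℝ) ≤ C := by exact_mod_cast h1
    nlinarith
  · have h1 := hN n (by omega)
    have h2 : 0 < Real.log n := Real.log_pos (by exact_mod_cast (by omega : 1 < n))
    rw [div_le_iff₀ h2] at h1
    have h3 := log_le_of (by omega : 0 < n) hn.le
    push_cast at h3
    have h4 : Real.log n ≤ 2 * k := by nlinarith
    nlinarith

/-- small level: models without large gaps -/
theorem inf_zero (hK : Tendsto (fun n : ℕ => (K n : ℝ) / Real.log n) atTop (𝓝 0)) :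
    ∃ (μ : Measure (ℕ × ℕ → FS)) (A : ℕ → Set (ℕ × ℕ → FS)), IsProbabilityMeasure μ ∧
      IsModel μ K A ∧ ∀ᵐ ω ∂μ, {n | ω ∈ A n}.Infinite ∧ cramerLimsup {n | ω ∈ A n} = 0 := by
  have hl2 := Real.log_pos (show (1 : ℝ) < 2 by norm_num)
  have hl2l := Real.log_two_gt_d9
  obtain ⟨N, hN⟩ := eventually_atTop.1 (mr_small hK one_pos)
  obtain ⟨μ, A, hμ, hM, hω⟩ := inf_gen K (mr K) (max N 1250) (le_max_right _ _)
    (fun k _ => Nat.le_add_left _ _) (fun k _ n hn => le_mr k n hn) (by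
      intro k hk
      have := hN k ((le_max_left _ _).trans hk)
      rw [one_mul] at this
      exact_mod_cast this)
  refine ⟨μ, A, hμ, hM, ?_⟩
  filter_upwards [hω] with ω hω
  refine ⟨infinite_of _ hω, ?_⟩
  apply le_antisymm
  · have h1 : ∀ j : ℕ, cramerLimsup {n | ω ∈ A n} ≤ ((1 / ((j : ℝ) + 1) : ℝ) : EReal) := by
      intro j
      refine limsup_le' _ ?_ hω
      have hδ : 0 < 1 / (((j : ℝ) + 1) * 4000) := by positivity
      have h2 := mr_small hK hδ
      filter_upwards [h2, (tendsto_add_atTop_nat 1).eventually h2, eventually_ge_atTop 2] with k a1 a2 a3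
      have hk' : (2 : ℝ) ≤ k := by exact_mod_cast a3
      push_cast at a2 ⊢
      have a4 : 1 / (((j : ℝ) + 1) * 4000) * ((k : ℝ) + 1) ≤ 1 / (((j : ℝ) + 1) * 4000) * (2 * k) := by
        gcongr; linarith
      have a5 : 1 / (((j : ℝ) + 1) * 4000) * (k : ℝ) ≤ 1 / (((j : ℝ) + 1) * 4000) * (2 * k) := by
        gcongr; linarith
      calc (150 : ℝ) * (2 * (mr K k * ((k : ℝ) + 1)) + mr K (k + 1) * ((k : ℝ) + 2)) ≤
          150 * (2 * ((1 / (((j : ℝ) + 1) * 4000) * (2 * k)) * (2 * k)) +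
            (1 / (((j : ℝ) + 1) * 4000) * (2 * k)) * (2 * k)) := by
            gcongr
            · linarith
            · linarith
            · linarith
            · linarith
        _ = 1 / ((j : ℝ) + 1) * (0.45 * k ^ 2) := by field_simp; ring
        _ ≤ 1 / ((j : ℝ) + 1) * (k * Real.log 2) ^ 2 := by
            apply mul_le_mul_of_nonneg_left _ (by positivity)
            have : 0.45 ≤ Real.log 2 ^ 2 := by nlinarith
            nlinarith [sq_nonneg (k : ℝ)]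
    have h5 : Tendsto (fun n : ℕ => 1 / ((n : ℝ) + 1)) atTop (𝓝 0) := tendsto_one_div_add_atTop_nhds_zero_nat
    have h6 := ge_of_tendsto' ((continuous_coe_real_ereal.tendsto 0).comp h5) h1
    exact_mod_cast h6
  · have hinf := infinite_of _ hω
    have h1 := Pool.Agent.W150.SM.limsup_ge (S := {n | ω ∈ A n}) hinf (lam := 0) (Eventually.frequently
      (Eventually.of_forall fun k => ⟨2 ^ k, 0, le_rfl, Nat.pow_le_pow_right (by norm_num) (Nat.le_succ k),
        by simp, fun n hn => by rw [mem_Ioc] at hn; omega⟩))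
    exact_mod_cast h1

/-- small level: models with very large gaps -/
theorem sup_top (hK : Tendsto (fun n : ℕ => (K n : ℝ) / Real.log n) atTop (𝓝 0)) :
    ∃ (μ : Measure (ℕ × ℕ → FS)) (A : ℕ → Set (ℕ × ℕ → FS)), IsProbabilityMeasure μ ∧
      IsModel μ K A ∧ ∀ᵐ ω ∂μ, {n | ω ∈ A n}.Infinite ∧ cramerLimsup {n | ω ∈ A n} = ⊤ := by
  have hl2 := Real.log_pos (show (1 : ℝ) < 2 by norm_num)
  have hl2u := Real.log_two_lt_d9
  have hl2l := Real.log_two_gt_d9
  set gT : ℕ → ℕ → ℕ := fun T k => Nat.log 2 ((T + 1) * (k + 1) ^ 2) with hgT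
  have hgle : ∀ T k, 2 ^ gT T k ≤ (T + 1) * (k + 1) ^ 2 ∧ (T + 1) * (k + 1) ^ 2 < 2 * 2 ^ gT T k := by
    intro T k
    have h3 : 2 ^ gT T k ≤ (T + 1) * (k + 1) ^ 2 :=
      Nat.pow_log_le_self 2 (by positivity : (T + 1) * (k + 1) ^ 2 ≠ 0)
    have h4 : (T + 1) * (k + 1) ^ 2 < 2 ^ (gT T k + 1) := Nat.lt_pow_succ_log_self (by norm_num) _
    rw [pow_succ 2 (gT T k)] at h4
    exact ⟨h3, by omega⟩
  set MT : ℕ → ℕ → ℝ := fun T k => ((2 ^ gT T k : ℕ) : ℝ) * (1 / (((k : ℝ) + 1) * Real.log 2)) with hMT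
  set P : ℕ → ℕ → Prop := fun T k => gT T k ≤ k ∧ (mr K k : ℝ) ≤ MT T k ∧
    ex k (mr K k) (MT T k) + 3 * Real.log k ≤ k * Real.log 2 ∧
    ((2 ^ gT T k : ℕ) : ℝ) * (2 * Real.log k) ≤ (k : ℝ) ^ 3 ∧ 2 * Real.log k ≤ MT T k with hP
  have hev : ∀ T, ∀ᶠ k in atTop, P T k := by
    intro T
    set U : ℝ := (T : ℝ) + 1 with hU
    have hU1 : 1 ≤ U := by rw [hU]; linarith [(Nat.cast_nonneg T : (0 : ℝ) ≤ T)]
    set s : ℝ := 1 / (80 * U) with hs
    have hs0 : 0 < s := by positivity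
    have hl80 : 0 < Real.log (80 * U) := Real.log_pos (by linarith)
    set δ : ℝ := min (1 / 310) (1 / (20 * Real.log (80 * U))) with hδ
    have hδ0 : 0 < δ := lt_min (by norm_num) (by positivity)
    have hδ1 : δ ≤ 1 / 310 := min_le_left _ _
    have hδ2 : δ * Real.log (80 * U) ≤ 1 / 20 := by
      calc δ * Real.log (80 * U) ≤ 1 / (20 * Real.log (80 * U)) * Real.log (80 * U) := by
            apply mul_le_mul_of_nonneg_right (min_le_right _ _) hl80.le
        _ = 1 / 20 := by field_simp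
    filter_upwards [mr_small hK hδ0, ev_pow (4 * U), ev_log (ε := 1 / (8 * U)) (by positivity),
      ev_log (ε := 1 / 40) (by norm_num), ev_nat (10 * (500 * U + 1 + Real.log (24 * U))),
      eventually_ge_atTop 1] with k a1 a2 a3 a4 a5 a6
    have hk' : (1 : ℝ) ≤ k := by exact_mod_cast a6
    have hlk : 0 ≤ Real.log k := Real.log_nonneg hk'
    have hm1 : (1 : ℝ) ≤ mr K k := by
      have : 1 ≤ mr K k := Nat.le_add_left _ _
      exact_mod_cast this
    obtain ⟨h2, h3⟩ := hgle T k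
    have h2' : ((2 ^ gT T k : ℕ) : ℝ) ≤ U * ((k : ℝ) + 1) ^ 2 := by
      rw [hU]; exact_mod_cast h2
    have h3' : U * ((k : ℝ) + 1) ^ 2 < 2 * ((2 ^ gT T k : ℕ) : ℝ) := by
      rw [hU]; exact_mod_cast h3
    have hL : 0 < ((k : ℝ) + 1) * Real.log 2 := by positivity
    have h4 : ((2 ^ gT T k : ℕ) : ℝ) ≤ 4 * U * (k : ℝ) ^ 2 := by
      refine h2'.trans ?_
      calc U * ((k : ℝ) + 1) ^ 2 ≤ U * (2 * k) ^ 2 := by gcongr; linarith
        _ = _ := by ring
    have hMu : MT T k ≤ 4 * U * k := by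
      rw [hMT]
      simp only
      rw [mul_one_div, div_le_iff₀ hL]
      refine h2'.trans ?_
      have : U * ((k : ℝ) + 1) * ((k : ℝ) + 1) ≤ U * (2 * k) * ((k : ℝ) + 1) := by gcongr; linarith
      have h5 : 0 ≤ U * k * ((k : ℝ) + 1) := by positivity
      nlinarith
    have hMl : (k : ℝ) / 2 ≤ MT T k := by
      rw [hMT]
      simp only
      rw [mul_one_div, le_div_iff₀ hL]
      have h5 : 1 * ((k : ℝ) + 1) ^ 2 ≤ U * ((k : ℝ) + 1) ^ 2 := by gcongr
      nlinarith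
    have hM0 : 0 < MT T k := by linarith
    refine ⟨?_, ?_, ?_, ?_, ?_⟩
    · have h5 : ((2 ^ gT T k : ℕ) : ℝ) ≤ 2 ^ k := h4.trans a2
      have h6 : 2 ^ gT T k ≤ 2 ^ k := by exact_mod_cast h5
      exact (Nat.pow_le_pow_iff_right (by norm_num)).1 h6
    · have : δ * k ≤ 1 / 310 * k := by gcongr
      linarith
    · unfold ex
      have e1 : Real.log (MT T k / mr K k) ≤ s * (MT T k / mr K k) + Real.log (80 * U) := by
        have h5 := Real.log_le_sub_one_of_pos (show 0 < s * (MT T k / mr K k) by positivity)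
        rw [Real.log_mul hs0.ne' (by positivity), hs, one_div, Real.log_inv] at h5
        rw [hs, one_div]
        linarith
      have e2 : (mr K k : ℝ) * (31 + Real.log (MT T k / mr K k)) ≤
          31 * mr K k + s * MT T k + mr K k * Real.log (80 * U) := by
        calc (mr K k : ℝ) * (31 + Real.log (MT T k / mr K k)) ≤
            (mr K k : ℝ) * (31 + (s * (MT T k / mr K k) + Real.log (80 * U))) := by gcongr
          _ = _ := by field_simp; ring
      have e3 : s * MT T k ≤ k / 20 := by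
        calc s * MT T k ≤ s * (4 * U * k) := by gcongr
          _ = k / 20 := by rw [hs]; field_simp; norm_num
      have e4 : (mr K k : ℝ) * Real.log (80 * U) ≤ k / 20 := by
        calc (mr K k : ℝ) * Real.log (80 * U) ≤ (δ * k) * Real.log (80 * U) := by gcongr
          _ = (δ * Real.log (80 * U)) * k := by ring
          _ ≤ 1 / 20 * k := by gcongr
          _ = _ := by ring
      have e5 : 125 * MT T k / k ≤ 500 * U := by
        rw [div_le_iff₀ (by linarith)]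
        linarith
      have e6 : Real.log (6 * MT T k) ≤ Real.log (24 * U) + Real.log k := by
        rw [← Real.log_mul (by positivity) (by positivity)]
        apply Real.log_le_log (by positivity)
        linarith
      have e7 : δ * k ≤ 1 / 310 * k := by gcongr
      have e8 : 0.69 * (k : ℝ) ≤ k * Real.log 2 := by nlinarith
      linarith
    · calc ((2 ^ gT T k : ℕ) : ℝ) * (2 * Real.log k) ≤ 4 * U * (k : ℝ) ^ 2 * (2 * (1 / (8 * U) * k)) := by
            gcongr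
        _ = (k : ℝ) ^ 3 := by field_simp; norm_num
    · linarith
  obtain ⟨t, ht1, ht2⟩ := diag P hev
  obtain ⟨N, hN⟩ := eventually_atTop.1 ht2
  set g : ℕ → ℕ := fun k => gT (t k) k with hg
  set k1 := max N 17 with hk1
  have hN' : ∀ k, k1 ≤ k → P (t k) k := fun k hk => hN k ((le_max_left _ _).trans hk)
  obtain ⟨μ, hμ, hM, hω⟩ := sup_model K g (mr K) k1 (le_max_right _ _) (fun k hk => (hN' k hk).1)
    (fun k _ => Nat.le_add_left _ _) (fun k _ n hn => le_mr k n hn) (fun k hk => (hN' k hk).2.1)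
    (fun k hk => (hN' k hk).2.2.1) (fun k hk => (hN' k hk).2.2.2.1) (fun k hk => (hN' k hk).2.2.2.2)
  refine ⟨μ, ev g, hμ, hM, ?_⟩
  filter_upwards [hω] with ω hω
  refine ⟨hω.1, ?_⟩
  rw [EReal.eq_top_iff_forall_lt]
  intro y
  refine lt_of_lt_of_le (EReal.coe_lt_coe_iff.2 (lt_add_one y)) ?_
  refine Pool.Agent.W150.SM.limsup_ge hω.1 (Eventually.frequently ?_)
  obtain ⟨T, hT⟩ := exists_nat_ge (2 * |y + 1|)
  filter_upwards [hω.2, ht1.eventually_ge_atTop T] with k hk htk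
  obtain ⟨a, H, b1, b2, b3, b4⟩ := hk
  refine ⟨a, H, b1, b2, ?_, b4⟩
  have h3 := (hgle (t k) k).2
  have h4 : (t k + 1) * (k + 1) ^ 2 < 2 * (H + 1) := by rw [b3]; exact h3
  have h5 : ((t k : ℝ) + 1) * ((k : ℝ) + 1) ^ 2 + 1 ≤ 2 * ((H : ℝ) + 1) := by exact_mod_cast h4
  have h6 : (T : ℝ) ≤ t k := by exact_mod_cast htk
  have h7 : (((k : ℝ) + 1) * Real.log 2) ^ 2 ≤ ((k : ℝ) + 1) ^ 2 := by
    rw [mul_pow]
    have : Real.log 2 ^ 2 ≤ 1 := by nlinarith
    nlinarith [sq_nonneg ((k : ℝ) + 1)]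
  have h8 : (y + 1) * (((k : ℝ) + 1) * Real.log 2) ^ 2 ≤ |y + 1| * ((k : ℝ) + 1) ^ 2 := by
    calc (y + 1) * (((k : ℝ) + 1) * Real.log 2) ^ 2 ≤ |y + 1| * (((k : ℝ) + 1) * Real.log 2) ^ 2 := by
          gcongr; exact le_abs_self _
      _ ≤ _ := by gcongr
  have h9 : 2 * |y + 1| * ((k : ℝ) + 1) ^ 2 ≤ t k * ((k : ℝ) + 1) ^ 2 := by gcongr; linarith
  have h10 : 1 ≤ ((k : ℝ) + 1) ^ 2 := by nlinarith [(Nat.cast_nonneg k : (0 : ℝ) ≤ k)]
  linarith

end small

end Pool.Agent.W151.KW
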